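import Mathlib

attribute [-instance] instCharZeroOfIsSemireal MonTypeEquivalenceMon.monMonoid
  FloorSemiring.instCharZero littleWedderburn DivisionRing.toRatAlgebra RCLike.charZero_rclike
  NumberField.to_charZero FiniteField.instGrindPowIdentity RKHS.instFunLike
  IsStrictOrderedRing.toCharZero IdemSemiring.toSemiring NormedSpace.toModule
  instNoNatZeroDivisorsOfIsAddTorsionFree AddQuantale.instAddRightMono NormedField.toField
  CompletePartialOrder.toPartialOrder instNonUnitalAlgHomClassOfNonUnitalAlgEquivClass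
  Nat.instAtLeastTwoHAddOfNat instCoeHTCTOfCoeTailOfCoeHTC SemilatticeInf.toPartialOrder
  LieAdmissibleAlgebra.toModule BialgEquivClass.toBialgHomClass instCoeOTCOfCoeOut
  RightPreLieAlgebra.toModule Semifield.toCommSemiring
  MulSemiringActionSemiHomClass.toDistribMulActionSemiHomClass MonoidHomClass.toMulHomClass
  LeftPreLieAlgebra.toModule LieAlgebra.toModule MonoidWithZeroHomClass.toZeroHomClass
  instCoeHTCOfCoeHeadOfCoeOTC AddQuantale.instAddLeftMono
  CommMonTypeEquivalenceCommMon.commMonCommMonoid instCoeTOfCoeDep IdemCommSemiring.toCommSemiring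
  IdemSemiring.toCanonicallyOrderedAdd Quantale.instMulRightMono bot_nonempty
  DivisionRing.toDivisionSemiring MvPolynomial.coeToMvPowerSeries NormedDivisionRing.toDivisionRing
  NonUnitalAlgHomClass.toNonUnitalRingHomClass Group.IsPerfect.subsingleton_of_isMulCommutative
  CentroidHomClass.toAddMonoidHomClass instCoeHTC NonUnitalRing.toNonUnitalNonAssocRing
  LinearOrderedAddCommGroupWithTop.toAddCommMonoid

-- part MP_08482e_nt.Hub
section

/-! Finite sums with two hubs and their difference equation. An entry `(a, b)` of a vector stands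
for a summation index `n = a + 1` at distance `b + 1` from the upper bound `N = a + b + 2`. -/

namespace Pool.Agent.MP_08482e_nt

open Finset

noncomputable section

variable {R : Type} [CommRing R] [Algebra ℚ R]

abbrev Vec (R : Type) : Type := ℕ → ℕ → R

/-- Sum over the strictly smaller indices at the same level. -/
def yy (f : Vec R) : ℕ → ℕ → R
  | 0, _ => 0
  | a + 1, b => yy f a (b + 1) + f a (b + 1)

omit [Algebra ℚ R] in
theorem yy_add (f g : Vec R) : yy (f + g) = yy f + yy g := by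
  funext a b
  induction a generalizing b with
  | zero => simp [yy]
  | succ a ih => simp only [yy, ih, Pi.add_apply]; ring

theorem yy_smul (c : ℚ) (f : Vec R) : yy (c • f) = c • yy f := by
  funext a b
  induction a generalizing b with
  | zero => simp [yy]
  | succ a ih => simp only [yy, ih, Pi.smul_apply, smul_add]

def yL : Vec R →ₗ[ℚ] Vec R where
  toFun := yy
  map_add' := yy_add
  map_smul' := yy_smul

/-- A function of the level only. -/
def lev (l : ℕ → R) : Vec R := fun a b => l (a + b + 1)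

theorem yL_lev (l : ℕ → R) (f : Vec R) : yL (lev l * f) = lev l * yL f := by
  funext a b
  show yy _ a b = l (a + b + 1) * yy f a b
  induction a generalizing b with
  | zero => simp [yy]
  | succ a ih =>
    have e : a + (b + 1) + 1 = a + 1 + b + 1 := by ring
    simp only [yy, ih, Pi.mul_apply, lev, e]; ring

def shB (v : Vec R) : Vec R := fun a b => v (a + 1) b
def shA (v : Vec R) : Vec R := fun a b => v a (b + 1)
def shF (v : Vec R) : Vec R := lev (v 0)

theorem shA_yL (g : Vec R) : shA (yL g) = yL (shA g) := by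
  funext a b
  show yy g a (b + 1) = yy (shA g) a b
  induction a generalizing b with
  | zero => rfl
  | succ a ih => simp only [yy, ih]; rfl

theorem shB_yL (g : Vec R) : shB (yL g) = yL (shA g) + shA g := by
  rw [← shA_yL]; rfl

theorem shF_yL (g : Vec R) : shF (yL g) = 0 := rfl

theorem tele (v : Vec R) : yL (shB v - shA v) = shA v - shF v := by
  funext a b
  show yy _ a b = v a (b + 1) - v 0 (a + b + 1)
  induction a generalizing b with
  | zero => simp [yy]
  | succ a ih =>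
    have e : a + (b + 1) + 1 = a + 1 + b + 1 := by ring
    simp only [yy, ih, Pi.sub_apply, shB, shA, e]; ring

theorem shB_yL' (g : Vec R) : shB (yL g) = yL (shB g) + shF g := by
  have := tele g
  rw [map_sub] at this
  rw [shB_yL]; linear_combination -this

/-- Total sum at a level. -/
def al : Vec R →ₗ[ℚ] (ℕ → R) where
  toFun f M := Nat.casesOn M 0 fun m => yL f m 0 + f m 0
  map_add' f g := by
    funext M; cases M with
    | zero => simp
    | succ m => simp only [map_add, Pi.add_apply]; ring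
  map_smul' c f := by
    funext M; cases M with
    | zero => simp
    | succ m => simp only [map_smul, Pi.smul_apply, RingHom.id_apply, smul_add]

theorem al_zero (f : Vec R) : al f 0 = 0 := rfl
theorem al_succ (f : Vec R) (m : ℕ) : al f (m + 1) = yL f m 0 + f m 0 := rfl

theorem al_lev (l : ℕ → R) (f : Vec R) : al (lev l * f) = l * al f := by
  funext M; cases M with
  | zero => simp [al_zero]
  | succ m => simp only [al_succ, yL_lev, Pi.mul_apply, lev, add_zero]; ring

/-- `x n` stands for `q ^ (n + 1) / (1 - q ^ (n + 1))`. -/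
structure Par (R : Type) [CommRing R] where
  x : ℕ → R
  r : Vec R
  h1 : ∀ a b, r a b * (1 + x b) = 1 + x (a + b + 1)
  h2 : ∀ a b, r a b * x a = x a - x (a + b + 1)
  h3 : ∀ a b, x b * x a = x (a + b + 1) * (1 + x a + x b)

namespace Par

variable (P : Par R)

def p : Vec R := fun a _ => P.x a
def pb : Vec R := fun _ b => P.x b
def X : Vec R := lev P.x

omit [Algebra ℚ R] in
theorem r1 : P.r * (1 + P.pb) = 1 + P.X := by funext a b; exact P.h1 a b
omit [Algebra ℚ R] in
theorem r2 : P.r * P.p = P.p - P.X := by funext a b; exact P.h2 a b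
omit [Algebra ℚ R] in
theorem r3 : P.pb * P.p = P.X * (1 + P.p + P.pb) := by funext a b; exact P.h3 a b

theorem yL_X (f : Vec R) : yL (P.X * f) = P.X * yL f := yL_lev _ _

theorem yL_Xp (j : ℕ) (f : Vec R) : yL (P.X ^ j * f) = P.X ^ j * yL f := by
  induction j with
  | zero => simp
  | succ j ih => rw [pow_succ', mul_assoc, yL_X, ih, mul_assoc]

/-- The operator of a letter zero. -/
def Y : Vec R →ₗ[ℚ] Vec R where
  toFun f := yL ((1 + P.pb) * f) + P.pb * f
  map_add' f g := by simp only [mul_add, map_add]; ring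
  map_smul' c f := by simp only [mul_smul_comm, map_smul, RingHom.id_apply, smul_add]

theorem Y_def (f : Vec R) : P.Y f = yL ((1 + P.pb) * f) + P.pb * f := rfl

theorem Y_Xp (j : ℕ) (f : Vec R) : P.Y (P.X ^ j * f) = P.X ^ j * P.Y f := by
  rw [Y_def, Y_def, mul_left_comm, yL_Xp]; ring

theorem Y_p (g : Vec R) : P.Y (P.p * g) =
    yL (P.p * g) + P.X * yL (P.p * g) + P.X * g + P.X * P.Y g + P.X * (P.p * g) := by
  have e : (1 + P.pb) * (P.p * g) = P.p * g + P.X * (P.p * g) + P.X * ((1 + P.pb) * g) := by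
    linear_combination g * P.r3
  rw [Y_def, Y_def, e, map_add, map_add, yL_X, yL_X]
  linear_combination g * P.r3

/-- The two hub vectors. -/
def V : List ℕ → Vec R
  | [] => 1
  | 0 :: w => P.Y (V w)
  | (k + 1) :: w => yL (P.p ^ (k + 1) * V w)

end Par

/-- The weight of a word: a letter zero has weight one. -/
def wt (w : List ℕ) : ℕ := (w.map fun k => max k 1).sum

@[simp] theorem wt_nil : wt [] = 0 := rfl
@[simp] theorem wt_zero (w : List ℕ) : wt (0 :: w) = wt w + 1 := by simp only [wt, List.map_cons, zero_le, sup_of_le_right, List.sum_cons, add_comm, Nat.add_left_cancel_iff]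
@[simp] theorem wt_succ (k : ℕ) (w : List ℕ) : wt ((k + 1) :: w) = wt w + (k + 1) := by
  simp only [wt, List.map_cons, le_add_iff_nonneg_left, zero_le, sup_of_le_left, List.sum_cons, add_comm, Nat.add_left_cancel_iff]

/-- The sum of the letters. -/
def sm (w : List ℕ) : ℕ := w.sum

@[simp] theorem sm_nil : sm [] = 0 := rfl
@[simp] theorem sm_cons (k : ℕ) (w : List ℕ) : sm (k :: w) = k + sm w := rfl

namespace Par

variable (P : Par R)

/-- The filtered span of the normal words. -/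
def A (j w l s : ℤ) : Submodule ℚ (Vec R) :=
  Submodule.span ℚ {f | ∃ (i a : ℕ) (u : List ℕ), j ≤ i ∧ (i : ℤ) + a + wt u ≤ w ∧
    (u.length : ℤ) ≤ l ∧ (a : ℤ) + sm u ≤ s ∧ f = P.X ^ i * (P.p ^ a * P.V u)}

variable {P}

theorem A_gen {j w l s : ℤ} (i a : ℕ) (u : List ℕ) (h1 : j ≤ i) (h2 : (i : ℤ) + a + wt u ≤ w)
    (h3 : (u.length : ℤ) ≤ l) (h4 : (a : ℤ) + sm u ≤ s) :
    P.X ^ i * (P.p ^ a * P.V u) ∈ P.A j w l s :=
  Submodule.subset_span ⟨i, a, u, h1, h2, h3, h4, rfl⟩

theorem A_map {W : Type} [AddCommGroup W] [Module ℚ W] (L : Vec R →ₗ[ℚ] W) (S : Submodule ℚ W)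
    {j w l s : ℤ} (h : ∀ (i a : ℕ) (u : List ℕ), j ≤ i → (i : ℤ) + a + wt u ≤ w →
      (u.length : ℤ) ≤ l → (a : ℤ) + sm u ≤ s → L (P.X ^ i * (P.p ^ a * P.V u)) ∈ S)
    {f : Vec R} (hf : f ∈ P.A j w l s) : L f ∈ S := by
  have : P.A j w l s ≤ S.comap L := Submodule.span_le.2 (by
    rintro _ ⟨i, a, u, h1, h2, h3, h4, rfl⟩
    exact h i a u h1 h2 h3 h4)
  exact this hf

theorem A_mono {j w l s j' w' l' s' : ℤ} {f : Vec R} (hf : f ∈ P.A j w l s) (h1 : j' ≤ j)
    (h2 : w ≤ w') (h3 : l ≤ l') (h4 : s ≤ s') : f ∈ P.A j' w' l' s' :=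
  A_map LinearMap.id _ (fun i a u _ _ _ _ => A_gen i a u (by omega) (by omega) (by omega)
    (by omega)) hf

theorem A_Xp {j w l s : ℤ} {f : Vec R} (k : ℕ) (hf : f ∈ P.A j w l s) :
    P.X ^ k * f ∈ P.A (j + k) (w + k) l s :=
  A_map (LinearMap.mulLeft ℚ (P.X ^ k)) _ (fun i a u _ _ _ _ => by
    rw [LinearMap.mulLeft_apply, ← mul_assoc, ← pow_add]
    exact A_gen _ a u (by push_cast; omega) (by push_cast; omega) (by omega) (by omega)) hf

theorem A_X {j w l s : ℤ} {f : Vec R} (hf : f ∈ P.A j w l s) :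
    P.X * f ∈ P.A (j + 1) (w + 1) l s := by simpa using A_Xp 1 hf

theorem A_pp {j w l s : ℤ} {f : Vec R} (k : ℕ) (hf : f ∈ P.A j w l s) :
    P.p ^ k * f ∈ P.A j (w + k) l (s + k) :=
  A_map (LinearMap.mulLeft ℚ (P.p ^ k)) _ (fun i a u _ _ _ _ => by
    rw [LinearMap.mulLeft_apply, mul_left_comm, ← mul_assoc (P.p ^ k), ← pow_add]
    exact A_gen i _ u (by omega) (by push_cast; omega) (by omega) (by push_cast; omega)) hf

theorem A_p {j w l s : ℤ} {f : Vec R} (hf : f ∈ P.A j w l s) :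
    P.p * f ∈ P.A j (w + 1) l (s + 1) := by simpa using A_pp 1 hf

theorem A_M {j w l s : ℤ} {f : Vec R} (hf : f ∈ P.A j w l s) :
    yL (P.p * f) ∈ P.A j (w + 1) (l + 1) (s + 1) :=
  A_map (yL ∘ₗ LinearMap.mulLeft ℚ P.p) _ (fun i a u _ _ _ _ => by
    rw [LinearMap.comp_apply, LinearMap.mulLeft_apply, mul_left_comm, yL_Xp, ← mul_assoc P.p,
      ← pow_succ']
    have := A_gen (P := P) (j := j) (w := w + 1) (l := l + 1) (s := s + 1) i 0 ((a + 1) :: u)
      (by omega) (by simp only [CharP.cast_eq_zero, add_zero, wt_succ, Nat.cast_add, Nat.cast_one]; omega) (by simp; omega) (by simp only [CharP.cast_eq_zero, sm_cons, Nat.cast_add, Nat.cast_one, zero_add]; omega)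
    simpa only [pow_zero, V, one_mul] using this) hf

theorem A_Y0 (a : ℕ) (u : List ℕ) :
    P.Y (P.p ^ a * P.V u) ∈ P.A 0 (a + wt u + 1) (u.length + 1) (a + sm u) := by
  induction a with
  | zero =>
    have := A_gen (P := P) (j := 0) (w := (0 : ℕ) + wt u + 1) (l := u.length + 1)
      (s := (0 : ℕ) + sm u) 0 0 (0 :: u) (by simp) (by simp) (by simp) (by simp)
    simpa [V] using this
  | succ a ih =>
    have g : P.p ^ a * P.V u ∈ P.A 0 (a + wt u) u.length (a + sm u) := by
      simpa using A_gen (P := P) (j := 0) (w := a + wt u) (l := u.length) (s := a + sm u) 0 a u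
        (by simp) (by simp) (by simp) (by simp)
    rw [pow_succ', mul_assoc, Y_p]
    refine add_mem (add_mem (add_mem (add_mem ?_ ?_) ?_) ?_) ?_
    · exact A_mono (A_M g) (by omega) (by push_cast; omega) (by omega) (by push_cast; omega)
    · exact A_mono (A_X (A_M g)) (by omega) (by push_cast; omega) (by omega) (by push_cast; omega)
    · exact A_mono (A_X g) (by omega) (by push_cast; omega) (by omega) (by push_cast; omega)
    · exact A_mono (A_X ih) (by omega) (by push_cast; omega) (by omega) (by push_cast; omega)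
    · exact A_mono (A_X (A_p g)) (by omega) (by push_cast; omega) (by omega) (by push_cast; omega)

theorem A_Y {j w l s : ℤ} {f : Vec R} (hf : f ∈ P.A j w l s) :
    P.Y f ∈ P.A j (w + 1) (l + 1) s :=
  A_map P.Y _ (fun i a u _ _ _ _ => by
    rw [Y_Xp]
    exact A_mono (A_Xp i (A_Y0 a u)) (by omega) (by omega) (by omega) (by omega)) hf

variable (P)

/-- The quotient `(p ^ k - X ^ k) / (p - X)`. -/
def hq : ℕ → Vec R
  | 0 => 0
  | k + 1 => P.p ^ k + P.X * hq k

omit [Algebra ℚ R] in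
theorem hq_mul (k : ℕ) : (P.p - P.X) * P.hq k = P.p ^ k - P.X ^ k := by
  induction k with
  | zero => simp [hq]
  | succ k ih => rw [hq]; linear_combination P.X * ih

variable {P}

theorem A_hq {j w l s : ℤ} {f : Vec R} (k : ℕ) (hf : f ∈ P.A j w l s) :
    P.hq k * f ∈ P.A j (w + k - 1) l (s + k - 1) := by
  induction k with
  | zero => simp [hq]
  | succ k ih =>
    rw [hq, add_mul, mul_assoc]
    exact add_mem (A_mono (A_pp k hf) le_rfl (by push_cast; omega) le_rfl (by push_cast; omega))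
      (A_mono (A_X ih) (by omega) (by push_cast; omega) le_rfl (by push_cast; omega))

variable (P)

def C (v : Vec R) : Vec R := P.r * (shB v - shA v)
def U (v : Vec R) : Vec R := shB v - P.C v
def G (k : ℕ) (v : Vec R) : Vec R := P.p ^ k * P.U v - P.X * (P.hq k * P.C v)

theorem Y_C (v : Vec R) : P.Y (P.C v) = (1 + P.X) * (shB v - shF v) - P.C v := by
  have e : (1 + P.pb) * P.C v = (shB v - shA v) + P.X * (shB v - shA v) := by
    rw [C]; linear_combination (shB v - shA v) * P.r1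
  rw [Y_def, e, map_add, yL_X, tele]
  linear_combination e

theorem shB_Y (v : Vec R) : shB (P.Y v) = P.Y (shB v) + (1 + P.X) * shF v := by
  have e1 : shB (P.Y v) = shB (yL ((1 + P.pb) * v)) + P.pb * shB v := rfl
  have e2 : shB ((1 + P.pb) * v) = (1 + P.pb) * shB v := rfl
  have e3 : shF ((1 + P.pb) * v) = (1 + P.X) * shF v := rfl
  rw [e1, shB_yL', e2, e3, Y_def]; ring

theorem shA_Y (v : Vec R) : shA (P.Y v) = shB (P.Y v) - P.pb * shB v - shA v := by
  have e1 : shB (P.Y v) = shB (yL ((1 + P.pb) * v)) + P.pb * shB v := rfl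
  have e2 : shA (P.Y v) = shA (yL ((1 + P.pb) * v)) + shA (P.pb * v) := rfl
  have e3 : shA ((1 + P.pb) * v) = shA v + shA (P.pb * v) := by
    funext a b; simp only [shA, Pi.mul_apply, Pi.add_apply, Pi.one_apply]; ring
  rw [e1, e2, shB_yL, shA_yL, e3]; ring

theorem C_Y (v : Vec R) : P.C (P.Y v) = P.U v + P.X * P.U v + P.X * P.C v := by
  rw [C, shA_Y, U, C]
  linear_combination shB v * P.r1

theorem U_Y (v : Vec R) : P.U (P.Y v) = P.Y (P.U v) := by
  rw [U, C_Y, shB_Y, U, map_sub, Y_C]; ring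

omit [Algebra ℚ R] in
theorem D_eq (v : Vec R) : (P.p - P.X) * P.U v - P.X * P.C v = (P.p - P.X) * shA v := by
  rw [U, C]; linear_combination -(shB v - shA v) * P.r2

omit [Algebra ℚ R] in
theorem p_G (k : ℕ) (v : Vec R) :
    P.p * P.G k v = P.p ^ (k + 1) * shA v + P.X ^ (k + 1) * (shB v - shA v) := by
  rw [G, U, C]
  linear_combination -(P.p ^ k + P.X * P.hq k) * (shB v - shA v) * P.r2 -
    P.X * (shB v - shA v) * P.hq_mul k

theorem yL_pG (k : ℕ) (v : Vec R) :
    yL (P.p * P.G k v) = yL (P.p ^ (k + 1) * shA v) + P.X ^ (k + 1) * (shA v - shF v) := by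
  rw [p_G, map_add, yL_Xp, tele]

theorem C_M (k : ℕ) (v : Vec R) : P.C (yL (P.p ^ (k + 1) * v)) =
    P.p ^ k * (P.p * P.U v - P.X * P.U v - P.X * P.C v) := by
  have e : shA (P.p ^ (k + 1) * v) = P.p ^ (k + 1) * shA v := rfl
  rw [C, shB_yL, shA_yL, e]
  linear_combination P.p ^ k * shA v * P.r2 - P.p ^ k * P.D_eq v

theorem U_M (k : ℕ) (v : Vec R) : P.U (yL (P.p ^ (k + 1) * v)) = yL (P.p * P.G k v) +
    P.X * (P.hq k * (P.p * P.U v - P.X * P.U v - P.X * P.C v)) + P.X ^ (k + 1) * shF v := by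
  have e : shA (P.p ^ (k + 1) * v) = P.p ^ (k + 1) * shA v := rfl
  rw [U, C_M, shB_yL, e, yL_pG]
  linear_combination -(P.p ^ k + P.X * P.hq k) * P.D_eq v - P.X * shA v * P.hq_mul k

theorem al_step (k : ℕ) (v : Vec R) (M : ℕ) : al (P.p ^ (k + 1) * v) (M + 1) =
    al (P.p * P.G k v) M + P.x M ^ (k + 1) * v 0 M := by
  cases M with
  | zero => simp [al_succ, al_zero, yL, yy, p]
  | succ m =>
    have e : shA (P.p ^ (k + 1) * v) = P.p ^ (k + 1) * shA v := rfl
    have e1 : yL (P.p ^ (k + 1) * v) (m + 1) 0 = shB (yL (P.p ^ (k + 1) * v)) m 0 := rfl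
    rw [al_succ, al_succ, e1, shB_yL, e, yL_pG, p_G]
    simp only [Pi.add_apply, Pi.mul_apply, Pi.pow_apply, Pi.sub_apply, X, lev, p, shA, shB, shF,
      add_zero]
    ring

theorem V_zero (u : List ℕ) : P.V u 0 = P.x ^ wt u ∧ sm u = 0 ∨ P.V u 0 = 0 := by
  induction u with
  | nil => left; exact ⟨by funext b; simp [V], rfl⟩
  | cons k u ih =>
    cases k with
    | zero =>
      have e : P.V (0 :: u) 0 = P.x * P.V u 0 := by
        funext b; simp [V, Y_def, yL, yy, pb]
      rcases ih with h | h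
      · left; rw [e, h.1, wt_zero, pow_succ']; exact ⟨rfl, by simpa using h.2⟩
      · right; rw [e, h, mul_zero]
    | succ k => right; rfl

theorem shF_V (u : List ℕ) : shF (P.V u) ∈ P.A 0 (wt u) 0 0 := by
  rcases P.V_zero u with h | h
  · have e : shF (P.V u) = P.X ^ wt u * (P.p ^ 0 * P.V []) := by
      funext a b; simp [shF, h.1, lev, X, V]
    rw [e]; exact A_gen _ _ _ (by simp) (by simp) (by simp) (by simp)
  · have e : shF (P.V u) = 0 := by funext a b; simp [shF, h, lev]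
    rw [e]; exact zero_mem _

theorem V_mem (u : List ℕ) : P.V u ∈ P.A 0 (wt u) u.length (sm u) := by
  simpa using A_gen (P := P) (j := 0) (w := wt u) (l := u.length) (s := sm u) 0 0 u
    (by simp) (by simp) (by simp) (by simp)

variable {P}

theorem G_mem {u : List ℕ} (k : ℕ)
    (hU : P.U (P.V u) - P.V u ∈ P.A 1 (wt u) (u.length - 1) (sm u - 1))
    (hC : P.C (P.V u) ∈ P.A 0 (wt u) (u.length - 1) (sm u)) :
    P.G k (P.V u) - P.p ^ k * P.V u ∈ P.A 1 (wt u + k) (u.length - 1) (sm u + k - 1) := by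
  have e : P.G k (P.V u) - P.p ^ k * P.V u =
      P.p ^ k * (P.U (P.V u) - P.V u) - P.X * (P.hq k * P.C (P.V u)) := by rw [G]; ring
  rw [e]
  exact sub_mem (A_mono (A_pp k hU) le_rfl le_rfl le_rfl (by omega))
    (A_mono (A_X (A_hq k hC)) (by omega) (by omega) le_rfl (by omega))

variable (P)

theorem UC_mem (u : List ℕ) :
    P.U (P.V u) - P.V u ∈ P.A 1 (wt u) (u.length - 1) (sm u - 1) ∧
      P.C (P.V u) ∈ P.A 0 (wt u) (u.length - 1) (sm u) := by
  induction u with
  | nil =>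
    have e : P.C 1 = 0 := by funext a b; simp [C, shA, shB]
    have e' : P.U 1 - 1 = 0 := by rw [U, e]; funext a b; simp [shB]
    simp only [V, e, e']; exact ⟨zero_mem _, zero_mem _⟩
  | cons k u ih =>
    obtain ⟨hU, hC⟩ := ih
    have hU' : P.U (P.V u) ∈ P.A 0 (wt u) u.length (sm u) := by
      have := add_mem (A_mono hU (j' := 0) (by omega) le_rfl (l' := u.length) (s' := sm u)
        (by omega) (by omega)) (P.V_mem u)
      simpa using this
    cases k with
    | zero =>
      simp only [V, U_Y, C_Y, wt_zero, List.length_cons, sm_cons, zero_add]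
      push_cast
      refine ⟨?_, add_mem (add_mem ?_ ?_) ?_⟩
      · rw [← map_sub]; exact A_mono (A_Y hU) le_rfl le_rfl (by omega) le_rfl
      · exact A_mono hU' le_rfl (by omega) (by omega) le_rfl
      · exact A_mono (A_X hU') (by omega) le_rfl (by omega) le_rfl
      · exact A_mono (A_X hC) (by omega) le_rfl (by omega) le_rfl
    | succ k =>
      have hD : P.p * P.U (P.V u) - P.X * P.U (P.V u) - P.X * P.C (P.V u) ∈
          P.A 0 (wt u + 1) u.length (sm u + 1) :=
        sub_mem (sub_mem (A_p hU') (A_mono (A_X hU') (by omega) le_rfl le_rfl (by omega)))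
          (A_mono (A_X hC) (by omega) le_rfl (by omega) (by omega))
      simp only [V, U_M, C_M, wt_succ, List.length_cons, sm_cons]
      push_cast
      refine ⟨?_, A_mono (A_pp k hD) le_rfl (by omega) (by omega) (by omega)⟩
      have e : yL (P.p ^ (k + 1) * P.V u) = yL (P.p * P.G k (P.V u)) -
          yL (P.p * (P.G k (P.V u) - P.p ^ k * P.V u)) := by
        rw [← map_sub]; congr 1; ring
      rw [e, show ∀ a b c d : Vec R, a + b + c - (a - d) = b + c + d from fun _ _ _ _ => by abel]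
      refine add_mem (add_mem ?_ ?_) ?_
      · exact A_mono (A_X (A_hq k hD)) (by omega) (by omega) (by omega) (by omega)
      · exact A_mono (A_Xp (k + 1) (P.shF_V u)) (by push_cast; omega) (by push_cast; omega)
          (by omega) (by omega)
      · exact A_mono (A_M (G_mem k hU hC)) le_rfl (by omega) (by omega) (by omega)

end Par

end

end Pool.Agent.MP_08482e_nt

end

-- part MP_08482e_nt.One
section

/-! Sums with one hub, and the solution of the difference equation of the sums with two hubs. -/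

namespace Pool.Agent.MP_08482e_nt

open Finset

noncomputable section

variable {R : Type} [CommRing R] [Algebra ℚ R]

/-- Partial sums. -/
def sg : (ℕ → R) →ₗ[ℚ] (ℕ → R) where
  toFun f M := ∑ m ∈ range M, f m
  map_add' f g := by funext M; simp [sum_add_distrib]
  map_smul' c f := by funext M; simp [smul_sum]

theorem sg_apply (f : ℕ → R) (M : ℕ) : sg f M = ∑ m ∈ range M, f m := rfl

theorem sg_eq {f g : ℕ → R} (h0 : f 0 = 0) (h : ∀ M, f (M + 1) = f M + g M) : f = sg g := by
  funext M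
  induction M with
  | zero => simp [sg_apply, h0]
  | succ M ih => rw [h, ih, sg_apply, sg_apply, sum_range_succ]

theorem yL_dvd (e : Vec R) (he : ∀ a b, e (a + 1) b ∣ e a (b + 1)) {f : Vec R} {g : ℕ → R}
    (h : ∀ a b, e a b ∣ f a b - g a) (a b : ℕ) : e a b ∣ yL f a b - sg g a := by
  show e a b ∣ yy f a b - sg g a
  induction a generalizing b with
  | zero => simp [yy, sg_apply]
  | succ a ih =>
    have := (he a b).trans (dvd_add (ih (b + 1)) (h a (b + 1)))
    rw [yy, sg_apply, sum_range_succ, ← sg_apply]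
    convert this using 1; ring

namespace Par

variable (P : Par R)

/-- The nested sums with one hub. -/
def H : List ℕ → ℕ → R
  | [] => 1
  | k :: w => sg (P.x ^ k * H w)

theorem al_Xp (i : ℕ) (f : Vec R) : al (P.X ^ i * f) = P.x ^ i * al f := by
  induction i with
  | zero => simp
  | succ i ih => rw [pow_succ', mul_assoc, X, al_lev, ← X, ih, ← mul_assoc, ← pow_succ']

theorem F_mem (B : ℕ → ℕ → Submodule ℚ (ℕ → R))
    (mono : ∀ {W l W' l' f}, f ∈ B W l → W ≤ W' → l ≤ l' → f ∈ B W' l') (one : 1 ∈ B 0 0)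
    (step : ∀ i {W l f}, f ∈ B W l → sg (P.x ^ (i + 1) * f) ∈ B (W + (i + 1)) (l + 1))
    (k : ℕ) (w : List ℕ) :
    al (P.p ^ (k + 1) * P.V w) ∈ B (k + 1 + wt w) (min (w.length + 1) (k + 1 + sm w)) := by
  induction hn : w.length using Nat.strong_induction_on generalizing k w with
  | _ n ih =>
    subst hn
    have e : al (P.p ^ (k + 1) * P.V w) = sg (al (P.p * (P.G k (P.V w) - P.p ^ k * P.V w))) +
        sg (P.x ^ (k + 1) * P.V w 0) := by
      rw [← map_add]
      refine sg_eq rfl fun M => ?_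
      rw [al_step, mul_sub, map_sub, ← mul_assoc, ← pow_succ']
      simp only [Pi.add_apply, Pi.sub_apply, Pi.mul_apply, Pi.pow_apply]; ring
    rw [e]
    refine add_mem (A_map (sg ∘ₗ al ∘ₗ LinearMap.mulLeft ℚ P.p) _ (fun i a u h1 h2 h3 h4 => ?_)
      (G_mem k (P.UC_mem w).1 (P.UC_mem w).2)) ?_
    · obtain ⟨i, rfl⟩ : ∃ j, i = j + 1 := ⟨i - 1, by omega⟩
      rw [LinearMap.comp_apply, LinearMap.comp_apply, LinearMap.mulLeft_apply, mul_left_comm, al_Xp,
        ← mul_assoc P.p, ← pow_succ']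
      exact mono (step i (ih _ (by omega) a u rfl)) (by omega) (by omega)
    · rcases P.V_zero w with h | h
      · rw [h.1, ← pow_add, show k + 1 + wt w = k + wt w + 1 by ring, ← mul_one (P.x ^ _)]
        exact mono (step _ one) (by omega) (by omega)
      · simp only [h, mul_zero, map_zero, zero_mem]

theorem V_dvd {t : R} (hx : ∀ n, t ^ (n + 1) ∣ P.x n) (w : List ℕ) (a b : ℕ) :
    t ^ (b + 1) ∣ P.V w a b - P.H w a := by
  induction w generalizing a b with
  | nil => simp [V, H]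
  | cons k w ih =>
    have he : ∀ a b : ℕ, (fun _ b => t ^ (b + 1) : Vec R) (a + 1) b ∣ (fun _ b => t ^ (b + 1) : Vec R) a (b + 1) :=
      fun _ b => pow_dvd_pow t (by omega)
    cases k with
    | zero =>
      have := dvd_add (yL_dvd _ he (f := (1 + P.pb) * P.V w) (g := P.x ^ 0 * P.H w) (fun a b => by
        have := dvd_add (ih a b) ((hx b).mul_right (P.V w a b))
        convert this using 1
        simp [pb]; ring) a b) ((hx b).mul_right (P.V w a b))
      convert this using 1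
      simp only [V, H, Y_def, Pi.add_apply, Pi.mul_apply, pb]; ring
    | succ k =>
      exact yL_dvd _ he (f := P.p ^ (k + 1) * P.V w) (g := P.x ^ (k + 1) * P.H w) (fun a b => by
        convert (ih a b).mul_left (P.x a ^ (k + 1)) using 1
        simp only [Pi.mul_apply, Pi.pow_apply, p]; ring) a b

theorem F_dvd {t : R} (hx : ∀ n, t ^ (n + 1) ∣ P.x n) (k : ℕ) (w : List ℕ) (M : ℕ) :
    t ^ (M + 1) ∣ al (P.p ^ (k + 1) * P.V w) M - P.H ((k + 1) :: w) M := by
  cases M with
  | zero => simp [al_zero, H, sg_apply]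
  | succ m =>
    have h : ∀ a b, t ^ (a + b + 2) ∣ (P.p ^ (k + 1) * P.V w) a b - (P.x ^ (k + 1) * P.H w) a := fun a b => by
      convert (mul_dvd_mul (hx a) (P.V_dvd hx w a b)).mul_left (P.x a ^ k) using 1
      · ring
      · simp only [Pi.mul_apply, Pi.pow_apply, p]; ring
    have := dvd_add (yL_dvd (fun a b => t ^ (a + b + 2)) (fun a b => pow_dvd_pow t (by omega)) h m 0) (h m 0)
    rw [al_succ, H, sg_apply, sum_range_succ, ← sg_apply]
    convert this using 1; ring

/-- The filtered span of the sums with one hub. -/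
def D (W l s : ℕ) : Submodule ℚ (ℕ → R) :=
  Submodule.span ℚ {f | ∃ w : List ℕ, wt w ≤ W ∧ w.length ≤ l ∧ sm w ≤ s ∧ f = P.H w}

variable {P}

theorem D_gen {W l s : ℕ} (w : List ℕ) (h1 : wt w ≤ W) (h2 : w.length ≤ l) (h3 : sm w ≤ s) :
    P.H w ∈ P.D W l s := Submodule.subset_span ⟨w, h1, h2, h3, rfl⟩

theorem D_map {V : Type} [AddCommGroup V] [Module ℚ V] (L : (ℕ → R) →ₗ[ℚ] V) (S : Submodule ℚ V)
    {W l s : ℕ} (h : ∀ w : List ℕ, wt w ≤ W → w.length ≤ l → sm w ≤ s → L (P.H w) ∈ S)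
    {f : ℕ → R} (hf : f ∈ P.D W l s) : L f ∈ S := by
  have : P.D W l s ≤ S.comap L := Submodule.span_le.2 (by
    rintro _ ⟨w, h1, h2, h3, rfl⟩
    exact h w h1 h2 h3)
  exact this hf

theorem D_mono {W l s W' l' s' : ℕ} {f : ℕ → R} (hf : f ∈ P.D W l s) (h1 : W ≤ W') (h2 : l ≤ l')
    (h3 : s ≤ s') : f ∈ P.D W' l' s' :=
  D_map LinearMap.id _ (fun w _ _ _ => D_gen w (by omega) (by omega) (by omega)) hf

theorem D_step {W l s : ℕ} {f : ℕ → R} (k : ℕ) (hf : f ∈ P.D W l s) :
    sg (P.x ^ k * f) ∈ P.D (W + max k 1) (l + 1) (s + k) :=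
  D_map (sg ∘ₗ LinearMap.mulLeft ℚ (P.x ^ k)) _ (fun w _ _ _ => D_gen (k :: w)
    (by cases k <;> simp only [wt_zero, zero_le, sup_of_le_right, add_le_add_iff_right, wt_succ, le_add_iff_nonneg_left, sup_of_le_left] <;> omega) (by simpa) (by simp only [sm_cons]; omega)) hf

theorem H_nu (w : List ℕ) : (fun m : ℕ => (m : R)) * P.H w ∈ P.D (wt w + 1) (w.length + 1) (sm w) := by
  induction w with
  | nil =>
    have e : (fun m : ℕ => (m : R)) * P.H [] = P.H [0] := by funext M; simp only [H, Pi.mul_apply, Pi.one_apply, mul_one, pow_zero, sg_apply, sum_const, card_range, nsmul_eq_mul]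
    rw [e]; exact D_gen _ (by simp) (by simp) (by simp)
  | cons k w ih =>
    have e : (fun m : ℕ => (m : R)) * P.H (k :: w) = P.H (0 :: k :: w) + P.H (k :: w) +
        sg (P.x ^ k * ((fun m : ℕ => (m : R)) * P.H w)) := by
      rw [H, H, H, ← map_add, ← map_add]
      refine sg_eq (by simp only [Pi.mul_apply, Nat.cast_zero, zero_mul]) fun M => ?_
      simp only [Pi.add_apply, Pi.mul_apply, Pi.pow_apply, sg_apply, sum_range_succ]
      push_cast; ring
    have wk : wt (k :: w) = wt w + max k 1 := by simp only [wt, List.map_cons, List.sum_cons, add_comm, Nat.add_left_cancel_iff]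
    rw [e]
    exact add_mem (add_mem (D_gen _ (by simp) (by simp) (by simp)) (D_gen _ (by simp) (by simp) (by simp)))
      (D_mono (D_step k ih) (by omega) (by simp) (by simp only [sm_cons]; omega))

theorem D_nu {W l s : ℕ} {f : ℕ → R} (r : ℕ) (hf : f ∈ P.D W l s) :
    (fun m : ℕ => ((m + 1 : ℕ) : R) ^ r) * f ∈ P.D (W + r) (l + r) s := by
  induction r with
  | zero =>
    simp only [pow_zero]
    show (1 : ℕ → R) * f ∈ P.D W l s
    rwa [one_mul]
  | succ r ih =>
    have e : (fun m : ℕ => ((m + 1 : ℕ) : R) ^ (r + 1)) * f = (fun m : ℕ => (m : R)) *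
        ((fun m : ℕ => ((m + 1 : ℕ) : R) ^ r) * f) + (fun m : ℕ => ((m + 1 : ℕ) : R) ^ r) * f := by
      funext m; simp only [Pi.add_apply, Pi.mul_apply]; push_cast; ring
    rw [e]
    exact add_mem (D_map (LinearMap.mulLeft ℚ fun m : ℕ => (m : R)) _ (fun w _ _ _ =>
      D_mono (H_nu w) (by omega) (by omega) (by omega)) ih) (D_mono ih (by omega) (by omega) le_rfl)

end Par

/-- Nested sums of a family of sequences. -/
def Ns : (l : ℕ) → (Fin l → ℕ → R) → ℕ → R
  | 0, _ => 1
  | l + 1, φ => sg (φ 0 * Ns l fun i => φ i.succ)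

omit [Algebra ℚ R] in
theorem sum_pi_succ (l : ℕ) (S : Finset ℕ) (F : (Fin (l + 1) → ℕ) → R) :
    ∑ n ∈ Fintype.piFinset fun _ : Fin (l + 1) => S, F n =
      ∑ a ∈ S, ∑ n ∈ Fintype.piFinset fun _ : Fin l => S, F (Fin.cons a n) := by
  rw [← sum_product']
  refine sum_nbij' (fun n => (n 0, Fin.tail n)) (fun p => Fin.cons p.1 p.2) ?_ ?_ ?_ ?_ ?_ <;>
    simp only [Fintype.mem_piFinset, Fin.forall_fin_succ, mem_product, Fin.tail, imp_self, implies_true, Fin.cons_zero, Fin.cons_succ, Fin.cons_self_tail, Fin.tail_cons, Prod.mk.eta]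

theorem Ns_eq (l : ℕ) (φ : Fin l → ℕ → R) {M N : ℕ} (h : M ≤ N) : Ns l φ M =
    ∑ n ∈ Fintype.piFinset fun _ : Fin l => range (N + 1),
      if (∀ i j : Fin l, i < j → n j < n i) ∧ (∀ i, 0 < n i) ∧ ∀ i, n i ≤ M then ∏ i, φ i (n i - 1) else 0 := by
  induction l generalizing M with
  | zero => simp only [Ns, Pi.one_apply, Fintype.piFinset_of_isEmpty, univ_unique, isEmpty_Prop, not_lt, le_of_subsingleton, IsEmpty.forall_iff, implies_true, and_self, ↓ reduceIte, univ_eq_empty, prod_empty, sum_const, card_singleton, one_smul]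
  | succ l ih =>
    rw [sum_pi_succ, sum_range_succ', sum_eq_zero (s := Fintype.piFinset _) fun n _ =>
      if_neg fun c => by simpa using c.2.1 0, add_zero, Ns, sg_apply,
      ← sum_range_add_sum_Ico _ h, sum_eq_zero (s := Ico M N) fun m hm => sum_eq_zero fun n _ =>
        if_neg fun c => by have := c.2.2 0; have := (mem_Ico.1 hm).1; simp only [mem_Ico, Fintype.mem_piFinset, mem_range, Order.lt_add_one_iff, Fin.cons_zero, Order.add_one_le_iff] at *; omega, add_zero]
    refine sum_congr rfl fun m hm => ?_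
    have := mem_range.1 hm
    rw [Pi.mul_apply, ih _ (show m ≤ N by omega), mul_sum]
    refine sum_congr rfl fun n _ => ?_
    rw [mul_ite, mul_zero, Fin.prod_univ_succ]
    refine if_congr ?_ rfl rfl
    simp only [Fin.forall_fin_succ, Fin.cons_zero, Fin.cons_succ, Fin.succ_pos,
      Fin.succ_lt_succ_iff, Fin.not_lt_zero, false_imp_iff, true_and, forall_const, Nat.lt_succ_iff]
    constructor
    · rintro ⟨a, b, c⟩
      exact ⟨⟨c, a⟩, ⟨by omega, b⟩, by omega, fun i => by have := c i; omega⟩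
    · rintro ⟨⟨c, a⟩, ⟨-, b⟩, -⟩
      exact ⟨a, b, c⟩

end

end Pool.Agent.MP_08482e_nt

end

-- part MP_08482e_nt.Ser
section

/-! The nested sums of power series in `q`. -/

namespace Pool.Agent.MP_08482e_nt

open Finset PowerSeries

noncomputable section

theorem span_mem {V W : Type} [AddCommGroup V] [Module ℚ V] [AddCommGroup W] [Module ℚ W]
    (L : V →ₗ[ℚ] W) {s : Set V} {S : Submodule ℚ W} (h : ∀ v ∈ s, L v ∈ S) {v : V}
    (hv : v ∈ Submodule.span ℚ s) : L v ∈ S :=
  (Submodule.span_le.2 h : Submodule.span ℚ s ≤ S.comap L) hv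

/-- The series `∑ v ^ (s - 1) / (s - 1)! t ^ v`. -/
def E (s : ℕ) : ℚ⟦X⟧ := mk fun v => if 0 < v then (v : ℚ) ^ (s - 1) / (Nat.factorial (s - 1) : ℚ) else 0

/-- The operator `t d / d t`. -/
def th : ℚ⟦X⟧ →ₗ[ℚ] ℚ⟦X⟧ := LinearMap.mulLeft ℚ X ∘ₗ (derivative ℚ).toLinearMap

theorem th_apply (f : ℚ⟦X⟧) : th f = X * derivative ℚ f := rfl

theorem E_one : (1 - X) * E 1 = X := by
  ext n
  rcases n with _ | _ | n <;> simp only [E, tsub_self, pow_zero, Nat.factorial_zero, Nat.cast_one, ne_eq, one_ne_zero, not_false_eq_true, div_self, sub_mul, one_mul, coeff_zero_eq_constantCoeff, map_sub, constantCoeff_mk, lt_self_iff_false, ↓ reduceIte, map_mul, constantCoeff_X, mul_zero, sub_self, coeff_X, zero_ne_one, zero_add, coeff_mk, Order.lt_one_iff, coeff_succ_X_mul, sub_zero, lt_add_iff_pos_left, add_pos_iff, Order.lt_two_iff, zero_le, or_true, Order.lt_add_one_iff, Nat.add_eq_right, Nat.add_eq_zero_iff, and_false]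

theorem th_E (s : ℕ) : th (E (s + 1)) = ((s : ℚ) + 1) • E (s + 2) := by
  ext n
  rcases n with _ | n
  · simp only [E, add_tsub_cancel_right, th_apply, coeff_zero_eq_constantCoeff, map_mul, constantCoeff_X, zero_mul, Nat.add_one_sub_one, map_smul, coeff_mk, lt_self_iff_false, ↓ reduceIte, smul_eq_mul, mul_zero]
  · simp only [th_apply, coeff_succ_X_mul, coeff_derivative, E, coeff_mk, Nat.succ_pos, if_true, map_smul,
      smul_eq_mul, Nat.add_one_sub_one, show s + 2 - 1 = s + 1 from rfl, Nat.factorial_succ]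
    push_cast; field_simp; ring

theorem th_pow (k : ℕ) : th (E 1 ^ (k + 1)) = ((k : ℚ) + 1) • (E 1 ^ (k + 1) + E 1 ^ (k + 2)) := by
  have h := E_one
  have h' := congrArg (derivative ℚ) h
  rw [Derivation.leibniz, map_sub, Derivation.map_one_eq_zero, derivative_X, smul_eq_mul, smul_eq_mul] at h'
  have e : X * derivative ℚ (E 1) = E 1 + E 1 ^ 2 := by grind
  rw [th_apply, Derivation.leibniz_pow, Nat.add_one_sub_one, mul_smul_comm, smul_eq_mul, mul_left_comm, e,
    ← Nat.cast_smul_eq_nsmul ℚ]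
  push_cast; congr 1; ring

theorem E_mem (s : ℕ) : E (s + 1) ∈ Submodule.span ℚ {f | ∃ k ≤ s, f = E 1 ^ (k + 1)} := by
  induction s with
  | zero => exact Submodule.subset_span ⟨0, le_rfl, by simp⟩
  | succ s ih =>
    rw [← Submodule.smul_mem_iff _ (show (s : ℚ) + 1 ≠ 0 by positivity), ← th_E]
    refine span_mem th ?_ ih
    rintro _ ⟨k, hk, rfl⟩
    rw [th_pow]
    exact Submodule.smul_mem _ _ (add_mem (Submodule.subset_span ⟨k, by omega, rfl⟩)
      (Submodule.subset_span ⟨k + 1, by omega, rfl⟩))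

theorem pow_mem (k : ℕ) : E 1 ^ (k + 1) ∈ Submodule.span ℚ {f | ∃ s ≤ k, f = E (s + 1)} := by
  induction k with
  | zero => exact Submodule.subset_span ⟨0, le_rfl, by simp⟩
  | succ k ih =>
    have : E 1 ^ (k + 1) + E 1 ^ (k + 2) ∈ Submodule.span ℚ {f | ∃ s ≤ k + 1, f = E (s + 1)} := by
      rw [← Submodule.smul_mem_iff _ (show (k : ℚ) + 1 ≠ 0 by positivity), ← th_pow]
      refine span_mem th ?_ ih
      rintro _ ⟨s, hs, rfl⟩
      rw [th_E]
      exact Submodule.smul_mem _ _ (Submodule.subset_span ⟨s + 1, by omega, rfl⟩)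
    refine (add_mem_cancel_left (Submodule.span_mono ?_ ih)).1 this
    rintro _ ⟨s, hs, e⟩
    exact ⟨s, by omega, e⟩

/-- Substitution of the powers of `q`. -/
def Ph : ℚ⟦X⟧ →ₐ[ℚ] (ℕ → ℚ⟦X⟧) := AlgHom.pi fun m => expand (m + 1) m.succ_ne_zero

theorem Ph_apply (f : ℚ⟦X⟧) (m : ℕ) : Ph f m = expand (m + 1) m.succ_ne_zero f := rfl

theorem Ph_one (n : ℕ) : (1 - X ^ (n + 1)) * Ph (E 1) n = X ^ (n + 1) := by
  simpa only [Ph_apply, map_mul, map_sub, map_one, expand_X] using congrArg (expand (n + 1) n.succ_ne_zero) E_one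

/-- The parameters. -/
def qP : Par ℚ⟦X⟧ where
  x := Ph (E 1)
  r a b := (1 - X ^ (b + 1)) * (1 + Ph (E 1) (a + b + 1))
  h1 a b := by linear_combination (1 + Ph (E 1) (a + b + 1)) * Ph_one b
  h2 a b := by
    have h := Ph_one (a + b + 1)
    have h' := Ph_one a
    rw [show a + b + 1 + 1 = a + 1 + (b + 1) by ring, pow_add] at h
    grind
  h3 a b := by
    have h := Ph_one (a + b + 1)
    have h' := Ph_one a
    have h'' := Ph_one b
    rw [show a + b + 1 + 1 = a + 1 + (b + 1) by ring, pow_add] at h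
    grind

theorem qP_pow (k : ℕ) : qP.x ^ k = Ph (E 1 ^ k) := (map_pow Ph _ _).symm

theorem qP_dvd (n : ℕ) : X ^ (n + 1) ∣ qP.x n := ⟨1 + Ph (E 1) n, by
  show Ph (E 1) n = _
  linear_combination Ph_one n⟩

/-- The limit of a sequence whose `M`-th member is final modulo `q ^ (M + 1)`. -/
def lim : (ℕ → ℚ⟦X⟧) →ₗ[ℚ] ℚ⟦X⟧ where
  toFun g := mk fun d => coeff d (g d)
  map_add' f g := by ext; simp
  map_smul' c f := by ext; simp

theorem lim_Ns (l : ℕ) (g : Fin l → ℕ → ℕ → ℚ) :
    lim (Ns l fun i m => Ph (mk fun v => if 0 < v then g i (m + 1) v else 0) m) = mk fun N : ℕ =>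
      ∑ p ∈ ((Fintype.piFinset fun _ : Fin l => range (N + 1)) ×ˢ
        (Fintype.piFinset fun _ : Fin l => range (N + 1))).filter
        (fun p => (∀ i j : Fin l, i < j → p.1 j < p.1 i) ∧ (∀ i, 0 < p.1 i) ∧
          (∀ i, 0 < p.2 i) ∧ ∑ i, p.1 i * p.2 i = N), ∏ i, g i (p.1 i) (p.2 i) := by
  ext d
  simp only [lim, LinearMap.coe_mk, AddHom.coe_mk, coeff_mk]
  rw [Ns_eq _ _ le_rfl, map_sum, sum_filter, sum_product]
  refine sum_congr rfl fun n hn => ?_
  by_cases c : (∀ i j : Fin l, i < j → n j < n i) ∧ ∀ i, 0 < n i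
  swap
  · rw [if_neg fun h => c ⟨h.1, h.2.1⟩, map_zero, sum_eq_zero fun v _ => if_neg fun h => c ⟨h.1, h.2.1⟩]
  rw [if_pos ⟨c.1, c.2, fun i => Nat.lt_succ_iff.1 (mem_range.1 (Fintype.mem_piFinset.1 hn i))⟩]
  have e : ∀ i, Ideal.Quotient.mk (Ideal.span {(X : ℚ⟦X⟧) ^ (d + 1)})
      (Ph (mk fun v => if 0 < v then g i (n i - 1 + 1) v else 0) (n i - 1)) = Ideal.Quotient.mk _
      (∑ v ∈ range (d + 1), (if 0 < v then g i (n i) v else 0) • X ^ (n i * v)) := fun i => by
    rw [Ideal.Quotient.eq, Ideal.mem_span_singleton, X_pow_dvd_iff]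
    intro m hm
    have := c.2 i
    obtain ⟨k, hk⟩ : ∃ k, n i = k + 1 := ⟨n i - 1, by omega⟩
    rw [map_sub, map_sum, Ph_apply, hk, Nat.add_one_sub_one, sub_eq_zero]
    simp only [map_smul, coeff_X_pow, smul_eq_mul]
    by_cases dv : k + 1 ∣ m
    · obtain ⟨v, rfl⟩ := dv
      rw [coeff_expand_mul, coeff_mk, sum_eq_single v (fun w _ ne => by simp [ne.symm])
        (fun h => absurd (mem_range.2 (by nlinarith only [hm])) h)]
      simp
    · rw [coeff_expand_of_not_dvd _ _ _ dv]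
      exact (sum_eq_zero fun v _ => by rw [if_neg (c := m = _) fun h => dv ⟨v, h⟩, mul_zero]).symm
  have := (map_prod _ _ _).trans ((prod_congr (rfl : univ = _) fun i _ => e i).trans (map_prod _ _ _).symm)
  rw [Ideal.Quotient.eq, Ideal.mem_span_singleton, X_pow_dvd_iff] at this
  rw [sub_eq_zero.1 ((map_sub _ _ _).symm.trans (this d d.lt_succ_self)), prod_univ_sum, map_sum]
  refine sum_congr rfl fun v _ => ?_
  rw [prod_smul, prod_pow_eq_pow_sum, map_smul, coeff_X_pow, prod_ite_zero]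
  simp only [eq_true c.1, c.2, mem_univ, forall_const, implies_true, true_and, smul_eq_mul, mul_ite, mul_one, mul_zero,
    ← ite_and, eq_comm (a := d), and_comm]

/-- The filtered span of the truncated brackets. -/
def Br (W l : ℕ) : Submodule ℚ (ℕ → ℚ⟦X⟧) := Submodule.span ℚ {f | ∃ (k : ℕ) (t : Fin k → ℕ),
  (∀ i, 1 ≤ t i) ∧ ∑ i, t i ≤ W ∧ k ≤ l ∧ f = Ns k fun i => Ph (E (t i))}

theorem Br_mono {W l W' l' : ℕ} {f : ℕ → ℚ⟦X⟧} (h : f ∈ Br W l) (h1 : W ≤ W') (h2 : l ≤ l') : f ∈ Br W' l' := by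
  refine Submodule.span_mono ?_ h
  rintro _ ⟨k, t, a, b, c, e⟩
  exact ⟨k, t, a, b.trans h1, c.trans h2, e⟩

theorem Br_one : 1 ∈ Br 0 0 := Submodule.subset_span ⟨0, Fin.elim0, by simp, by simp, le_rfl, rfl⟩

theorem Br_step (i : ℕ) {W l : ℕ} {f : ℕ → ℚ⟦X⟧} (h : f ∈ Br W l) :
    sg (qP.x ^ (i + 1) * f) ∈ Br (W + (i + 1)) (l + 1) := by
  refine span_mem (sg ∘ₗ LinearMap.mulLeft ℚ (qP.x ^ (i + 1))) ?_ h
  rintro _ ⟨k, t, a, b, c, rfl⟩
  rw [qP_pow]
  refine span_mem (sg ∘ₗ LinearMap.mulRight ℚ _ ∘ₗ Ph.toLinearMap) ?_ (pow_mem i)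
  rintro _ ⟨s, hs, rfl⟩
  exact Submodule.subset_span ⟨k + 1, Fin.cons (s + 1) t, by simp [Fin.forall_fin_succ, a],
    by simp only [Fin.sum_univ_succ, Fin.cons_zero, Fin.cons_succ]; omega, by omega, rfl⟩

theorem top_mem (s : ℕ) {W l S : ℕ} {f : ℕ → ℚ⟦X⟧} (h : f ∈ qP.D W l S) :
    lim (sg (Ph (E (s + 1)) * f)) ∈ (Br (W + (s + 1)) (min (l + 1) (S + (s + 1)))).map lim := by
  refine span_mem (lim ∘ₗ sg ∘ₗ LinearMap.mulRight ℚ f ∘ₗ Ph.toLinearMap) ?_ (E_mem s)
  rintro _ ⟨k, hk, rfl⟩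
  refine Par.D_map (lim ∘ₗ sg ∘ₗ LinearMap.mulLeft ℚ (Ph (E 1 ^ (k + 1)))) _ (fun w _ _ _ => ?_) h
  refine ⟨_, Br_mono (qP.F_mem Br Br_mono Br_one Br_step k w) (by omega) (by omega), ?_⟩
  ext d
  have := X_pow_dvd_iff.1 (qP.F_dvd qP_dvd k w d) d d.lt_succ_self
  rw [map_sub, sub_eq_zero, Par.H, qP_pow] at this
  simpa only [lim, LinearMap.coe_mk, AddHom.coe_mk, coeff_mk, map_pow, LinearMap.coe_comp, Function.comp_apply, LinearMap.mulLeft_apply] using this

theorem bi_eq (s r : ℕ) (f : ℕ → ℚ⟦X⟧) : (fun m => Ph (mk fun v => if 0 < v then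
    (((m + 1 : ℕ) : ℚ) ^ r / (Nat.factorial r : ℚ)) * ((v : ℚ) ^ (s - 1) / (Nat.factorial (s - 1) : ℚ))
    else 0) m) * f = Ph (E s) * ((fun m : ℕ => ((m + 1 : ℕ) : ℚ⟦X⟧) ^ r) * (Nat.factorial r : ℚ)⁻¹ • f) := by
  funext m
  have : (mk fun v => if 0 < v then (((m + 1 : ℕ) : ℚ) ^ r / (Nat.factorial r : ℚ)) *
      ((v : ℚ) ^ (s - 1) / (Nat.factorial (s - 1) : ℚ)) else 0) =
      (((m + 1 : ℕ) : ℚ) ^ r / (Nat.factorial r : ℚ)) • E s := by
    ext v; simp only [Nat.cast_add, Nat.cast_one, coeff_mk, E, map_smul, smul_eq_mul, mul_ite, mul_zero]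
  rw [Pi.mul_apply, this, map_smul]
  simp only [Pi.mul_apply, Pi.smul_apply]
  simp only [Algebra.smul_def, div_eq_mul_inv, map_mul, map_pow, map_natCast]
  ring

theorem bi_mem (l : ℕ) (s r : Fin l → ℕ) (hs : ∀ i, 1 ≤ s i) : (Ns l fun i m => Ph (mk fun v => if 0 < v then
    (((m + 1 : ℕ) : ℚ) ^ r i / (Nat.factorial (r i) : ℚ)) *
      ((v : ℚ) ^ (s i - 1) / (Nat.factorial (s i - 1) : ℚ)) else 0) m) ∈
    qP.D (∑ i, s i + ∑ i, r i) (l + ∑ i, r i) (∑ i, s i) := by
  induction l with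
  | zero => exact Par.D_gen [] (by simp) (by simp) (by simp)
  | succ l ih =>
    have h := Par.D_nu (r 0) (Submodule.smul_mem _ (Nat.factorial (r 0) : ℚ)⁻¹
      (ih (fun i => s i.succ) (fun i => r i.succ) fun i => hs _))
    obtain ⟨a, ha⟩ : ∃ a, s 0 = a + 1 := ⟨s 0 - 1, by have := hs 0; omega⟩
    rw [Ns, bi_eq, Fin.sum_univ_succ, Fin.sum_univ_succ, ha]
    refine span_mem (sg ∘ₗ LinearMap.mulRight ℚ _ ∘ₗ Ph.toLinearMap) ?_ (E_mem a)
    rintro _ ⟨k, hk, rfl⟩
    have := Par.D_step (k + 1) h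
    rw [qP_pow] at this
    exact Par.D_mono this (by omega) (by omega) (by omega)

theorem bi_lim (l : ℕ) (s r : Fin l → ℕ) (hs : ∀ i, 1 ≤ s i) : lim (Ns l fun i m => Ph (mk fun v =>
    if 0 < v then (((m + 1 : ℕ) : ℚ) ^ r i / (Nat.factorial (r i) : ℚ)) *
      ((v : ℚ) ^ (s i - 1) / (Nat.factorial (s i - 1) : ℚ)) else 0) m) ∈
    (Br (∑ i, s i + ∑ i, r i) (min (l + ∑ i, r i) (∑ i, s i))).map lim := by
  cases l with
  | zero => exact ⟨1, Br_mono Br_one (by simp) (by simp), rfl⟩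
  | succ l =>
    have h := Par.D_nu (r 0) (Submodule.smul_mem _ (Nat.factorial (r 0) : ℚ)⁻¹
      (bi_mem l (fun i => s i.succ) (fun i => r i.succ) fun i => hs _))
    obtain ⟨a, ha⟩ : ∃ a, s 0 = a + 1 := ⟨s 0 - 1, by have := hs 0; omega⟩
    rw [Ns, bi_eq, Fin.sum_univ_succ, Fin.sum_univ_succ, ha]
    exact Submodule.map_mono (fun _ h => Br_mono h (by omega) (by omega)) (top_mem a h)

end

end Pool.Agent.MP_08482e_nt

end
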