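import Pool.Agent.MP_08482e_nt.Mg.H68_Final
import Pool.Agent.MP_08482e_nt.Mg.Ser

/-! The q-series satisfy the quasi-shuffle and the duality relations. -/

namespace Pool.Agent.MP_08482e_nt.H68

open Finset PowerSeries

noncomputable section

section ring
variable {R : Type} [CommRing R]

/-- Nested sums in an arbitrary ring. -/
def tr (x : ℕ → R) : List ℕ → ℕ → R
  | [], _ => 1
  | k :: w, M => ∑ n ∈ range M, x n ^ k * tr x w n

/-- The part of a nested sum with a given largest index. -/
def dl (x : ℕ → R) : List (ℕ × ℕ) → ℕ → R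
  | [], n => if n = 0 then 1 else 0
  | _ :: _, 0 => 0
  | p :: l, n + 1 => x n ^ (p.1 + 1) * ∑ k ∈ range (n + 1), ((n - k).choose p.2 : R) * dl x l k

/-- The symmetric form of the sums. -/
def sy (q : R) (N : ℕ) : List (ℕ × ℕ) → ℕ → ℕ → R
  | [], _, _ => 1
  | p :: l, s, t => ∑ z ∈ range N ×ˢ range N, ((z.1.choose p.1 : R) * (z.2.choose p.2 : R)) *
      q ^ ((z.1 + 1 + s) * (z.2 + 1) + t * (z.1 + 1)) * sy q N l (s + z.1 + 1) t

theorem hockey (d : ℕ → R) (m n : ℕ) :
    ∑ j ∈ range n, ∑ k ∈ range (j + 1), ((j - k).choose m : R) * d k =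
      ∑ k ∈ range (n + 1), ((n - k).choose (m + 1) : R) * d k := by
  induction n with
  | zero => simp only [range_zero, sum_empty, zero_add, range_one, zero_tsub, Nat.choose_zero_succ, Nat.cast_zero, zero_mul, sum_const_zero]
  | succ n ih =>
    rw [sum_range_succ, ih, sum_range_succ _ (n + 1), Nat.sub_self, Nat.choose_zero_succ,
      Nat.cast_zero, zero_mul, add_zero, ← sum_add_distrib]
    refine sum_congr rfl fun k hk => ?_
    have := mem_range.1 hk
    rw [show n + 1 - k = n - k + 1 by omega, Nat.choose_succ_succ']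
    push_cast; ring

theorem word_consq (p : ℕ × ℕ) (l : List (ℕ × ℕ)) :
    word (p :: l) = (p.1 + 1) :: (List.replicate p.2 0 ++ word l) := by simp [word]

theorem tr_zeros (x : ℕ → R) (w : List ℕ) (d : ℕ → R)
    (h : ∀ n, tr x w n = ∑ k ∈ range (n + 1), d k) (m n : ℕ) :
    tr x (List.replicate m 0 ++ w) n = ∑ k ∈ range (n + 1), ((n - k).choose m : R) * d k := by
  induction m generalizing n with
  | zero => simp only [List.replicate_zero, List.nil_append, h, Nat.choose_zero_right, Nat.cast_one, one_mul]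
  | succ m ih =>
    rw [List.replicate_succ, List.cons_append, tr, ← hockey]
    exact sum_congr rfl fun j _ => by rw [pow_zero, one_mul, ih]

theorem tr_word (x : ℕ → R) (l : List (ℕ × ℕ)) (n : ℕ) :
    tr x (word l) n = ∑ k ∈ range (n + 1), dl x l k := by
  induction l generalizing n with
  | nil => simp only [word, List.flatMap_nil, tr, dl, sum_ite_eq', mem_range, lt_add_iff_pos_left, Order.lt_add_one_iff, zero_le, ↓ reduceIte]
  | cons p l ih =>
    rw [word_consq, tr, sum_range_succ', dl, add_zero]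
    exact sum_congr rfl fun j _ => by rw [dl, tr_zeros x _ _ ih]

theorem sy_append (q : R) (N : ℕ) (l : List (ℕ × ℕ)) (p : ℕ × ℕ) (s t : ℕ) :
    sy q N (l ++ [p]) s t = ∑ z ∈ range N ×ˢ range N, ((z.1.choose p.1 : R) * (z.2.choose p.2 : R)) *
      q ^ ((z.1 + 1 + s) * (z.2 + 1) + t * (z.1 + 1)) * sy q N l s (t + z.2 + 1) := by
  induction l generalizing s with
  | nil => simp only [List.nil_append, sy, mul_one]
  | cons r l ih =>
    simp only [List.cons_append, sy, ih, mul_sum]
    rw [sum_comm]
    exact sum_congr rfl fun z _ => sum_congr rfl fun y _ => by ring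

theorem sy_dual (q : R) (N : ℕ) (l : List (ℕ × ℕ)) (s t : ℕ) :
    sy q N (dual l) t s = sy q N l s t := by
  induction l generalizing s with
  | nil => simp [dual, sy]
  | cons p l ih =>
    have e : dual (p :: l) = dual l ++ [p.swap] := by simp [dual]
    rw [e, sy_append, sy, sum_product, sum_product_right]
    refine sum_congr rfl fun g _ => sum_congr rfl fun v _ => ?_
    rw [ih]
    simp only [Prod.fst_swap, Prod.snd_swap]
    ring

theorem geo_step (y : R) (a N : ℕ) : (1 - y) * ∑ v ∈ range N, (v.choose (a + 1) : R) * y ^ (v + 1) =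
    y * ∑ v ∈ range N, (v.choose a : R) * y ^ (v + 1) - (N.choose (a + 1) : R) * y ^ (N + 1) := by
  induction N with
  | zero => simp only [range_zero, sum_empty, mul_zero, Nat.choose_zero_succ, Nat.cast_zero, zero_add, pow_one, zero_mul, sub_self]
  | succ N ih =>
    rw [sum_range_succ, sum_range_succ, mul_add, ih, Nat.choose_succ_succ']
    push_cast; ring

theorem geo_zero (y : R) (N : ℕ) :
    (1 - y) * ∑ v ∈ range N, (v.choose 0 : R) * y ^ (v + 1) = y - y ^ (N + 1) := by
  induction N with
  | zero => simp only [range_zero, Nat.choose_zero_right, Nat.cast_one, one_mul, sum_empty, mul_zero, zero_add, pow_one, sub_self]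
  | succ N ih => rw [sum_range_succ, mul_add, ih]; simp only [Nat.choose_zero_right, Nat.cast_one, one_mul]; ring

theorem geo_pow {x y : R} {N : ℕ} (hy : y ^ (N + 1) = 0) (h : (1 - y) * x = y) (a : ℕ) :
    x ^ (a + 1) = ∑ v ∈ range N, (v.choose a : R) * y ^ (v + 1) := by
  induction a with
  | zero =>
    have := geo_zero y N
    rw [hy] at this
    linear_combination -(1 + x) * this +
      (∑ v ∈ range N, (v.choose 0 : R) * y ^ (v + 1) + 1) * h
  | succ a ih =>
    have := geo_step y a N
    rw [hy, ← ih] at this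
    linear_combination -(1 + x) * this +
      (∑ v ∈ range N, (v.choose (a + 1) : R) * y ^ (v + 1) + x ^ (a + 1)) * h

theorem cauchy {y : R} {N : ℕ} (hy : y ^ (N + 1) = 0) (c d : ℕ → R) :
    ∑ n ∈ range N, y ^ (n + 1) * ∑ k ∈ range (n + 1), c (n - k) * d k =
      ∑ g ∈ range N, c g * y ^ (g + 1) * ∑ k ∈ range (N + 1), y ^ k * d k := by
  have z : ∀ j, N + 1 ≤ j → y ^ j = 0 := fun j hj => pow_eq_zero_of_le hj hy
  have e1 : ∑ n ∈ range N, y ^ (n + 1) * ∑ k ∈ range (n + 1), c (n - k) * d k =
      ∑ n ∈ range N, ∑ k ∈ range (n + 1), (fun k g => c g * d k * y ^ (g + 1 + k)) k (n - k) := by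
    refine sum_congr rfl fun n _ => ?_
    rw [mul_sum]
    refine sum_congr rfl fun k hk => ?_
    have := mem_range.1 hk
    show _ = c (n - k) * d k * y ^ (n - k + 1 + k)
    rw [show n - k + 1 + k = n + 1 by omega]; ring
  have e2 : ∑ g ∈ range N, c g * y ^ (g + 1) * ∑ k ∈ range (N + 1), y ^ k * d k =
      ∑ k ∈ range (N + 1), ∑ g ∈ range N, c g * d k * y ^ (g + 1 + k) := by
    rw [sum_comm]
    refine sum_congr rfl fun g _ => ?_
    rw [mul_sum]
    exact sum_congr rfl fun k _ => by ring
  rw [e1, e2, sum_range_diag_flip N (fun k g => c g * d k * y ^ (g + 1 + k)), sum_range_succ _ N,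
    sum_eq_zero (s := range N) (f := fun g => c g * d N * y ^ (g + 1 + N))
      fun g _ => by rw [z _ (by omega), mul_zero], add_zero]
  refine sum_congr rfl fun k _ => sum_subset (range_subset_range.2 (by omega)) fun g _ hg => ?_
  have := mem_range.not.1 hg
  rw [z _ (by omega), mul_zero]

theorem dl_sy {q : R} {N : ℕ} (hq : q ^ (N + 1) = 0) {x : ℕ → R}
    (hx : ∀ n, (1 - q ^ (n + 1)) * x n = q ^ (n + 1)) (l : List (ℕ × ℕ)) (s : ℕ) :
    ∑ n ∈ range (N + 1), (q ^ s) ^ n * dl x l n = sy q N l s 0 := by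
  have hp : ∀ j, (q ^ (j + 1)) ^ (N + 1) = 0 := fun j => by
    rw [← pow_mul, mul_comm, pow_mul, hq, zero_pow j.succ_ne_zero]
  induction l generalizing s with
  | nil => simp only [dl, mul_ite, mul_one, mul_zero, sum_ite_eq', mem_range, lt_add_iff_pos_left, Order.lt_add_one_iff, zero_le, ↓ reduceIte, pow_zero, sy]
  | cons p l ih =>
    rw [sum_range_succ', dl, mul_zero, add_zero, sy, sum_product]
    simp only [dl, geo_pow (hp _) (hx _), sum_mul, mul_sum (range N)]
    rw [sum_comm]
    refine sum_congr rfl fun v _ => ?_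
    have := congrArg ((v.choose p.1 : R) * ·) (cauchy (hp (s + v)) (fun g => (g.choose p.2 : R)) (dl x l))
    simp only [ih, mul_sum (range N)] at this
    refine (sum_congr rfl fun n _ => ?_).trans (this.trans (sum_congr rfl fun g _ => ?_)) <;> ring

theorem tr_dual {q : R} {N : ℕ} (hq : q ^ (N + 1) = 0) {x : ℕ → R}
    (hx : ∀ n, (1 - q ^ (n + 1)) * x n = q ^ (n + 1)) (l : List (ℕ × ℕ)) :
    tr x (word l) N = tr x (word (dual l)) N := by
  have e : ∀ l, tr x (word l) N = sy q N l 0 0 := fun l => by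
    rw [tr_word, ← dl_sy hq hx]; simp
  rw [e, e, sy_dual]

end ring

theorem xq_eq (n : ℕ) : xq (n + 1) = qP.x n := by
  ext d
  show _ = coeff d (expand (n + 1) n.succ_ne_zero (MP_08482e_nt.E 1))
  by_cases dv : n + 1 ∣ d
  · obtain ⟨v, rfl⟩ := dv
    rw [coeff_expand_mul]
    simp only [xq, coeff_mk, Order.lt_add_one_iff, zero_le, mul_pos_iff_of_pos_left, dvd_mul_right, and_true, MP_08482e_nt.E, tsub_self, pow_zero, Nat.factorial_zero, Nat.cast_one, ne_eq, one_ne_zero, not_false_eq_true, div_self]
  · rw [coeff_expand_of_not_dvd _ _ _ dv]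
    simp [xq, dv]

theorem trunc_eq (w : List ℕ) : trunc w = qP.H w := by
  induction w with
  | nil => rfl
  | cons k w ih =>
    funext M
    simp [trunc, Par.H, sg_apply, xq_eq, ih]

theorem zeta_single (w : List ℕ) : zeta (Finsupp.single w 1) = lim (qP.H w) := by
  simp only [zeta, Finsupp.linearCombination_single, one_smul, trunc_eq]
  rfl

theorem map_trunc {R : Type} [CommRing R] (π : ℚ⟦X⟧ →+* R) (w : List ℕ) (M : ℕ) :
    π (trunc w M) = tr (fun n => π (qP.x n)) w M := by
  induction w generalizing M with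
  | nil => simp [trunc, tr]
  | cons k w ih => simp only [trunc, xq_eq, map_sum, map_mul, map_pow, ih, tr]

theorem zeta_dual (l : List (ℕ × ℕ)) :
    zeta (Finsupp.single (word l) 1) = zeta (Finsupp.single (word (dual l)) 1) := by
  ext d
  simp only [zeta, Finsupp.linearCombination_single, one_smul, coeff_mk]
  let π := Ideal.Quotient.mk (Ideal.span {(X : ℚ⟦X⟧) ^ (d + 1)})
  have := tr_dual (q := π X) (N := d) (x := fun n => π (qP.x n))
    (by rw [← map_pow]; exact Ideal.Quotient.eq_zero_iff_mem.2 (Ideal.mem_span_singleton_self _))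
    (fun n => by
      have := congrArg π (Ph_one n)
      simp only [map_mul, map_sub, map_one, map_pow] at this
      exact this) l
  rw [← map_trunc, ← map_trunc, Ideal.Quotient.eq, Ideal.mem_span_singleton, X_pow_dvd_iff] at this
  exact sub_eq_zero.1 ((map_sub _ _ _).symm.trans (this d d.lt_succ_self))

/-- The truncated series, extended linearly. -/
def tlq (M : ℕ) : (List ℕ →₀ ℚ) →ₗ[ℚ] ℚ⟦X⟧ := Finsupp.linearCombination ℚ fun w => trunc w M

theorem tlq_single (M : ℕ) (w : List ℕ) : tlq M (Finsupp.single w 1) = trunc w M := by simp [tlq]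

theorem tlq_cons (k M : ℕ) (f : List ℕ →₀ ℚ) :
    tlq M (Finsupp.mapDomain (List.cons k) f) = ∑ n ∈ range M, xq (n + 1) ^ k * tlq n f := by
  induction f using Finsupp.induction_linear with
  | zero => simp
  | add f g hf hg => simp only [Finsupp.mapDomain_add, map_add, hf, hg, mul_add, sum_add_distrib]
  | single w c => simp only [tlq, Finsupp.mapDomain_single, Finsupp.linearCombination_single, trunc, smul_sum, Algebra.mul_smul_comm]

theorem tlq_stuffle (u v : List ℕ) (M : ℕ) : tlq M (stuffle 1 u v) = trunc u M * trunc v M := by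
  induction u generalizing v M with
  | nil => simp [stuffle, tlq_single, trunc]
  | cons a u ihu =>
    induction v generalizing M with
    | nil => simp [stuffle, tlq_single, trunc]
    | cons c v ihv =>
      rw [stuffle, ite_self, one_smul, map_add, map_add, tlq_cons, tlq_cons, tlq_cons]
      simp only [ihu, ihv]
      induction M with
      | zero => simp [trunc]
      | succ M ih =>
        have e : ∀ k w, trunc (k :: w) (M + 1) = trunc (k :: w) M + xq (M + 1) ^ k * trunc w M :=
          fun k w => sum_range_succ _ _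
        rw [sum_range_succ, sum_range_succ, sum_range_succ, e, e]
        linear_combination ih

theorem coeff_zeta (f : List ℕ →₀ ℚ) (d : ℕ) : coeff d (zeta f) = coeff d (tlq d f) := by
  induction f using Finsupp.induction_linear with
  | zero => simp
  | add f g hf hg => simp only [map_add, hf, hg]
  | single w c => simp [tlq, zeta]

theorem coeff_trunc (l : List (ℕ × ℕ)) {i d : ℕ} (h : i ≤ d) :
    coeff i (trunc (word l) d) = coeff i (trunc (word l) i) := by
  cases l with
  | nil => rfl
  | cons p l =>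
    rw [word_consq]
    induction d, h using Nat.le_induction with
    | base => rfl
    | succ d hd ih =>
      rw [← ih, trunc, sum_range_succ, map_add, trunc, add_eq_left, xq_eq, pow_succ', mul_assoc]
      exact X_pow_dvd_iff.1 ((qP_dvd d).mul_right _) i (by omega)

theorem zeta_stuffle (l m : List (ℕ × ℕ)) : zeta (stuffle 1 (word l) (word m)) =
    zeta (Finsupp.single (word l) 1) * zeta (Finsupp.single (word m) 1) := by
  ext d
  rw [coeff_zeta, tlq_stuffle, coeff_mul, coeff_mul]
  refine sum_congr rfl fun p hp => ?_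
  have := mem_antidiagonal.1 hp
  rw [coeff_zeta, coeff_zeta, tlq_single, tlq_single, coeff_trunc l (show p.1 ≤ d by omega),
    coeff_trunc m (show p.2 ≤ d by omega)]

theorem rel_le_ker : rel 1 ≤ LinearMap.ker zeta := by
  refine Submodule.span_le.2 ?_
  rintro _ ⟨l, m, rfl⟩
  show zeta _ = 0
  rw [map_sub, zeta_stuffle, zeta_stuffle, ← zeta_dual, sub_self]

theorem zeta_mem (l : List (ℕ × ℕ)) : zeta (Finsupp.single (word l) 1) ∈ Submodule.span ℚ
    {f | ∃ w : List ℕ, 0 ∉ w ∧ wt w ≤ wt (word l) ∧ f = zeta (Finsupp.single w 1)} := by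
  cases l with
  | nil => exact Submodule.subset_span ⟨[], by simp, le_rfl, rfl⟩
  | cons p l =>
    let B : ℕ → Submodule ℚ (ℕ → ℚ⟦X⟧) := fun W =>
      Submodule.span ℚ {f | ∃ w : List ℕ, 0 ∉ w ∧ wt w ≤ W ∧ f = qP.H w}
    have h := qP.F_mem (fun W _ => B W) (fun h e _ => Submodule.span_mono (by
        rintro _ ⟨w, a, c, rfl⟩; exact ⟨w, a, c.trans e, rfl⟩) h)
      (Submodule.subset_span ⟨[], by simp, le_rfl, rfl⟩)
      (fun i _ _ _ hf => span_mem (sg ∘ₗ LinearMap.mulLeft ℚ (qP.x ^ (i + 1))) (by
        rintro _ ⟨w, hw, c, rfl⟩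
        exact Submodule.subset_span ⟨(i + 1) :: w, by simpa using hw, by simpa using c, rfl⟩) hf)
      p.1 (List.replicate p.2 0 ++ word l)
    have e : zeta (Finsupp.single (word (p :: l)) 1) =
        lim (MP_08482e_nt.al (qP.p ^ (p.1 + 1) * qP.V (List.replicate p.2 0 ++ word l))) := by
      rw [zeta_single, word_consq]
      ext d
      have := X_pow_dvd_iff.1 (qP.F_dvd qP_dvd p.1 (List.replicate p.2 0 ++ word l) d) d d.lt_succ_self
      rw [map_sub, sub_eq_zero] at this
      simpa only [lim, LinearMap.coe_mk, AddHom.coe_mk, coeff_mk] using this.symm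
    rw [e]
    refine span_mem lim ?_ h
    rintro _ ⟨w, hw, c, rfl⟩
    exact Submodule.subset_span ⟨w, hw, by rw [word_consq, wt_succ]; omega, (zeta_single w).symm⟩

end

end Pool.Agent.MP_08482e_nt.H68

/-! Relations among q-zeta values that are not formal relations. -/

namespace Pool.Agent.MP_08482e_nt.H68

open Finsupp Submodule

theorem wt_word (l : List (ℕ × ℕ)) : wt (word l) = (l.map fun p => p.1 + p.2 + 1).sum := by
  induction l with
  | nil => rfl
  | cons p l ih => simp only [wt] at ih; simp only [wt, word_cons, List.map_cons, le_add_iff_nonneg_left, zero_le, sup_of_le_left, List.map_append, List.map_replicate, sup_of_le_right, List.sum_cons, List.sum_append, List.sum_replicate, smul_eq_mul, mul_one, ih, List.sum_map_add, List.map_const']; omega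

theorem extra (h : ℚ) (φ : (List ℕ →₀ ℚ) →ₗ[ℚ] (List ℕ →₀ ℚ))
    (hφ : ∀ l, φ (single (word l) 1) - single (word l) 1 ∈
      span ℚ {x | ∃ m, wt (word m) < wt (word l) ∧ x = single (word m) 1}) :
    ∃ x ∈ span ℚ {x | ∃ l, x = single (word l) 1}, zeta (φ x) = 0 ∧ x ∉ rel h := by
  set Z := span ℚ {x : List ℕ →₀ ℚ | ∃ w, 0 ∉ w ∧ x = single w 1}
  have zw : ∀ w : List ℕ, 0 ∉ w → ∃ l, w = word l := fun w hw =>
    (parse' w).resolve_right (by rintro ⟨v, rfl⟩; simp at hw)
  have key : ∀ n l, wt (word l) < n → zeta (single (word l) 1) ∈ Z.map (zeta ∘ₗ φ) := fun n => by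
    induction n with
    | zero => simp
    | succ n ih =>
      refine fun l hl => span_le.2 ?_ (zeta_mem l)
      rintro _ ⟨w, hw, c, rfl⟩
      obtain ⟨m, rfl⟩ := zw w hw
      have := span_mem zeta (S := Z.map (zeta ∘ₗ φ)) (by
        rintro _ ⟨k, e, rfl⟩; exact ih k (by omega)) (hφ m)
      simpa only [map_coe, LinearMap.coe_comp, Function.comp_apply, Set.mem_image, SetLike.mem_coe, map_sub, sub_sub_cancel, mem_map] using sub_mem (mem_map_of_mem (f := zeta ∘ₗ φ) (p := Z) (subset_span ⟨_, hw, rfl⟩)) this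
  have := add_mem (span_mem zeta (S := Z.map (zeta ∘ₗ φ)) (by
    rintro _ ⟨k, e, rfl⟩; exact key _ k e) (hφ l0)) (key _ l0 (Nat.lt_succ_self _))
  obtain ⟨y, hy, e⟩ := this
  refine ⟨single (word l0) 1 - y, sub_mem (subset_span ⟨_, rfl⟩) (span_mono ?_ hy), ?_, fun hx => ?_⟩
  · rintro _ ⟨w, hw, rfl⟩
    obtain ⟨m, rfl⟩ := zw w hw
    exact ⟨m, rfl⟩
  · rw [map_sub, map_sub, sub_eq_zero]; simpa using e.symm
  · exact formal_fails h (by simpa only [sub_add_cancel] using add_mem (mem_sup_left hx) (mem_sup_right hy))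

end Pool.Agent.MP_08482e_nt.H68
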