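import Pool.Agent.MP_08482e_nt.H68.Base
import Pool.Agent.MP_08482e_nt.H68.Eta

attribute [-instance] instNoNatZeroDivisorsOfIsAddTorsionFree littleWedderburn
  Action.FintypeCat.instMulActionObjFiniteOf RightPreLieAlgebra.toModule LeftPreLieAlgebra.toModule
  LieAlgebra.toModule ContinuousSemilinearMapClass.toSemilinearMapClass instCharZeroOfIsSemireal
  AddQuantale.instAddLeftMono MonTypeEquivalenceMon.monMonoid CoalgHomClass.toSemilinearMapClass
  IdemSemiring.toCanonicallyOrderedAdd RKHS.instFunLike IsScalarTower.complexToReal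
  instNonUnitalAlgHomClassOfNonUnitalAlgEquivClass RingHomClass.toLinearMapClassNNRat
  IdemSemiring.toSemiring SemilinearIsometryClass.toSemilinearMapClass AddQuantale.instAddRightMono
  NumberField.to_charZero MulRingSeminormClass.toMonoidWithZeroHomClass
  BialgEquivClass.toBialgHomClass Module.free_of_finite_type_torsion_free'
  RingHomClass.toLinearMapClassRat RCLike.charZero_rclike GrpTypeEquivalenceGrp.grpGroup
  NormedCommRing.toCommRing IdemCommSemiring.toCommSemiring Bialgebra.toAlgebra AdjoinRoot.instField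
  Quantale.instMulRightMono DenselyNormedField.toNormedField CompletePartialOrder.toPartialOrder
  MulSemiringActionSemiHomClass.toDistribMulActionSemiHomClass NonUnitalRing.toNonUnitalNonAssocRing
  EuclideanDomain.toCommRing BialgHomClass.toAlgHomClass MulSemiringAction.toDistribMulAction
  MonoidHomClass.toMulHomClass SeminormedCommRing.toCommRing TotallySeparatedSpace.t2Space
  LieRing.toAddCommGroup Quantale.instMulLeftMono DistribLattice.toLattice
  IsOrderedMonoid.toMulLeftMono
  NonUnitalAlgHomClass.instSemilinearMapClassOfNonUnitalAlgSemiHomClassToMonoidHomRingHom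
  IdemSemiring.toMulLeftMono NontriviallyNormedField.toNormedField IsMulCommutative.is_comm
  instCoeOTCOfCoeOut LieAdmissibleRing.toNonUnitalNonAssocRing instCoeHTCOfCoeHeadOfCoeOTC
  NormedRing.toSeminormedRing NormedRing.toRing AlgEquivClass.toAlgHomClass
  NonUnitalNormedRing.toNonUnitalSeminormedRing NonUnitalNormedCommRing.toNonUnitalCommRing
  NonUnitalAlgHomClass.toNonUnitalRingHomClass CentroidHomClass.toAddMonoidHomClass
  GeneralizedCoheytingAlgebra.toLattice FiniteField.instGrindPowIdentity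
  ValuationClass.toMonoidWithZeroHomClass LinearOrderedCommMonoidWithZero.toPosMulStrictMono
  CommGroup.toGroup TestFunctionClass.toDFunLike Field.toCommRing
  AddCommMonoidWithOne.toAddCommMonoid BooleanRing.toCommRing
  LinearOrderedAddCommMonoidWithTop.toAddCommMonoid invertibleTwo
  NonUnitalSeminormedCommRing.toNonUnitalCommRing AlgHomClass.linearMapClass
  ContDiffMapSupportedInClass.toDFunLike MulCharClass.toMonoidHomClass
  NormedDivisionRing.toDivisionRing BialgHomClass.toMonoidHomClass instSMulZeroClass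
  Action.instMulAction NonUnitalNonAssocCommSemiring.toNonUnitalNonAssocSemiring BooleanRing.toRing
  LinearMap.instLoewnerPartialOrder MulDistribMulActionSemiHomClass.toMonoidHomClass
  RightPreLieRing.toNonUnitalNonAssocRing IdemSemiring.toSemilatticeSup MulOne.toOne
  Torsor.toMulAction SemilinearEquivClass.instSemilinearMapClass Module.FaithfullyFlat.toFlat
  NonAssocCommRing.toNonUnitalNonAssocCommRing Algebra.complexToReal
  LinearOrderedAddCommGroupWithTop.toAddCommMonoid
  NonUnitalNormedCommRing.toNonUnitalSeminormedCommRing NonAssocCommSemiring.toNonAssocSemiring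
  NeZero.of_gt' Unique.instSubsingleton LeftPreLieRing.toNonUnitalNonAssocRing instCoeTOfCoeDep
  CommMonTypeEquivalenceCommMon.commMonCommMonoid instCoeHTCTOfCoeTailOfCoeHTC Polynomial.charZero
  MulSemiringActionSemiHomClass.toRingHomClass GeneralizedHeytingAlgebra.toLattice

-- part MP_08482e_nt.H68.Eds
section

/-! Sequences of logarithmic growth with values in a real vector space. -/

namespace Pool.Agent.MP_08482e_nt.H68

open Finset

noncomputable section

def e_hh (n : ℕ) : ℝ := ∑ i ∈ range (n + 1), 1 / ((i : ℝ) + 1)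

theorem e_hh_succ (n : ℕ) : e_hh (n + 1) = e_hh n + 1 / ((n : ℝ) + 2) := by
  rw [e_hh, sum_range_succ, e_hh]; push_cast; ring

theorem e_hh_mono : Monotone e_hh := monotone_nat_of_le_succ fun n => by
  rw [e_hh_succ]; exact le_add_of_nonneg_right (by positivity)

theorem e_hh_one (n : ℕ) : 1 ≤ e_hh n := le_trans (by simp [e_hh]) (e_hh_mono n.zero_le)

theorem e_hh_pos (n : ℕ) : 0 < e_hh n := one_pos.trans_le (e_hh_one n)

/-- Real sequences of size `log ^ J / n ^ e`. -/
def e_Sc (e : ℕ) (α : ℕ → ℝ) : Prop :=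
  ∃ (J : ℕ) (C : ℝ), 0 ≤ C ∧ ∀ n, |α n| ≤ C * e_hh n ^ J / ((n : ℝ) + 1) ^ e

theorem e_Sc_mul {e e' : ℕ} {α β : ℕ → ℝ} (h : e_Sc e α) (h' : e_Sc e' β) :
    e_Sc (e + e') fun n => α n * β n := by
  obtain ⟨J, C, hC, h⟩ := h
  obtain ⟨J', C', hC', h'⟩ := h'
  refine ⟨J + J', C * C', by positivity, fun n => ?_⟩
  have := e_hh_pos n
  rw [abs_mul]
  refine (mul_le_mul (h n) (h' n) (abs_nonneg _) (by positivity)).trans_eq ?_
  rw [pow_add, pow_add]; field_simp

theorem e_Sc_one : e_Sc 0 fun _ => 1 := ⟨0, 1, one_pos.le, by simp⟩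

theorem e_Sc_inv : e_Sc 1 fun n => 1 / ((n : ℝ) + 1) :=
  ⟨0, 1, one_pos.le, fun n => by rw [abs_of_nonneg (by positivity)]; simp⟩

theorem e_Sc_mono {e e' : ℕ} (he : e ≤ e') {α : ℕ → ℝ} (h : e_Sc e' α) : e_Sc e α := by
  obtain ⟨J, C, hC, h⟩ := h
  refine ⟨J, C, hC, fun n => (h n).trans ?_⟩
  have := e_hh_pos n
  gcongr
  simp

theorem e_Sc_pow (i : ℕ) : e_Sc i fun n => (1 / ((n : ℝ) + 1)) ^ i :=
  ⟨0, 1, one_pos.le, fun n => by rw [abs_of_nonneg (by positivity)]; simp⟩

theorem e_Sc_sum {α : ℕ → ℝ} (h : e_Sc 1 α) : e_Sc 0 fun n => ∑ i ∈ range n, α i := by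
  obtain ⟨J, C, hC, h⟩ := h
  refine ⟨J + 1, C, hC, fun n => (abs_sum_le_sum_abs _ _).trans ?_⟩
  have := e_hh_pos n
  calc ∑ i ∈ range n, |α i| ≤ ∑ i ∈ range (n + 1), |α i| := by rw [sum_range_succ]; simp
    _ ≤ ∑ i ∈ range (n + 1), C * e_hh n ^ J * (1 / ((i : ℝ) + 1)) := sum_le_sum fun i hi => by
        refine (h i).trans ?_
        have := e_hh_pos i
        have := e_hh_mono (Nat.lt_succ_iff.1 (mem_range.1 hi))
        rw [pow_one, mul_one_div]
        gcongr
    _ = _ := by rw [← mul_sum, ← e_hh]; simp [pow_succ, mul_assoc]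

theorem e_Sc_cons {α : ℕ → ℝ} (h : e_Sc 1 α) (c : ℝ) :
    e_Sc 1 fun n => Nat.casesOn n c α := by
  obtain ⟨J, C, hC, h⟩ := h
  refine ⟨J, |c| + 2 * C, by positivity, fun n => ?_⟩
  cases n with
  | zero => simp only [Nat.rec_zero, e_hh, zero_add, range_one, one_div, sum_singleton, CharP.cast_eq_zero, inv_one, one_pow, mul_one, div_one, le_add_iff_nonneg_right, Nat.ofNat_pos, mul_nonneg_iff_of_pos_left, hC]
  | succ n =>
    refine (h n).trans ?_
    have h1 := e_hh_pos n
    have h2 : e_hh n ^ J ≤ e_hh (n + 1) ^ J := pow_le_pow_left₀ h1.le (e_hh_mono n.le_succ) J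
    have h3 : (0 : ℝ) ≤ n := n.cast_nonneg
    have h4 : 0 ≤ |c| * e_hh (n + 1) ^ J := by have := e_hh_pos (n + 1); positivity
    have h5 := mul_le_mul_of_nonneg_left h2 hC
    have h6 : 0 ≤ C * e_hh n ^ J := by positivity
    rw [pow_one, pow_one, div_le_div_iff₀ (by positivity) (by positivity)]
    push_cast
    nlinarith only [h4, h5, h6]

theorem e_Sc_conv {α β : ℕ → ℝ} (h : e_Sc 1 α) (h' : e_Sc 1 β) :
    e_Sc 1 fun n => ∑ p ∈ antidiagonal n, α p.1 * β p.2 := by
  obtain ⟨J, C, hC, h⟩ := h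
  obtain ⟨J', C', hC', h'⟩ := h'
  refine ⟨J + J' + 1, 2 * (C * C'), by positivity, fun n => (abs_sum_le_sum_abs _ _).trans ?_⟩
  have hn := e_hh_pos n
  have e1 : ∑ p ∈ antidiagonal n, 1 / ((p.1 : ℝ) + 1) = e_hh n :=
    Finset.Nat.sum_antidiagonal_eq_sum_range_succ (fun i _ => 1 / ((i : ℝ) + 1)) n
  have e2 : ∑ p ∈ antidiagonal n, 1 / ((p.2 : ℝ) + 1) = e_hh n := by
    rw [← e1, ← Finset.Nat.sum_antidiagonal_swap]; rfl
  calc _ ≤ ∑ p ∈ antidiagonal n, C * C' * e_hh n ^ (J + J') / ((n : ℝ) + 1) *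
        (1 / ((p.1 : ℝ) + 1) + 1 / ((p.2 : ℝ) + 1)) := sum_le_sum fun p hp => by
        have hp := mem_antidiagonal.1 hp
        have a1 := e_hh_pos p.1
        have a2 := e_hh_pos p.2
        have a3 := e_hh_mono (show p.1 ≤ n by omega)
        have a4 := e_hh_mono (show p.2 ≤ n by omega)
        have a5 : (n : ℝ) = p.1 + p.2 := by rw [← hp]; push_cast; rfl
        rw [abs_mul]
        refine (mul_le_mul (h _) (h' _) (abs_nonneg _) (by positivity)).trans ?_
        calc _ ≤ C * e_hh n ^ J / ((p.1 : ℝ) + 1) ^ 1 * (C' * e_hh n ^ J' / ((p.2 : ℝ) + 1) ^ 1) := by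
              gcongr
          _ = C * C' * e_hh n ^ (J + J') / ((n : ℝ) + 2) *
              (1 / ((p.1 : ℝ) + 1) + 1 / ((p.2 : ℝ) + 1)) := by rw [a5, pow_add]; field_simp; ring
          _ ≤ _ := by gcongr; norm_num
    _ = _ := by rw [← mul_sum, sum_add_distrib, e1, e2, pow_succ]; ring

theorem e_pot (J n : ℕ) : e_hh n ^ J / ((n : ℝ) + 1) ^ 2 ≤
    3 * ((e_hh n + 2 * J) ^ J / ((n : ℝ) + 1) - (e_hh (n + 1) + 2 * J) ^ J / ((n : ℝ) + 2)) := by
  have h1 := e_hh_pos n
  have h3 : (0 : ℝ) ≤ n := n.cast_nonneg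
  have hJ : (0 : ℝ) ≤ J := J.cast_nonneg
  set a := e_hh n + 2 * J with ha
  set d := 1 / ((n : ℝ) + 2) with hd
  have d0 : 0 < d := by positivity
  have a0 : 0 < a := by positivity
  have e : e_hh (n + 1) + 2 * J = a + d := by rw [e_hh_succ]; ring
  have b := one_add_mul_le_pow (a := -(d / (a + d))) (by
    have : d / (a + d) ≤ 1 := (div_le_one (by positivity)).2 (by linarith)
    linarith only [this]) J
  have e2 : 1 + -(d / (a + d)) = a / (a + d) := by field_simp; ring
  have b2 : J * (d / (a + d)) ≤ d / 2 := by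
    rw [← mul_div_assoc, div_le_div_iff₀ (by positivity) (by positivity)]
    nlinarith only [h1, d0]
  rw [e2, div_pow, le_div_iff₀ (by positivity)] at b
  have b3 : (1 - d / 2) * (a + d) ^ J ≤ a ^ J :=
    le_trans (mul_le_mul_of_nonneg_right (by linarith only [b2]) (by positivity)) b
  have b4 : (a + d) ^ J / ((n : ℝ) + 2) ≤ a ^ J / ((n : ℝ) + 3 / 2) := by
    rw [div_le_div_iff₀ (by positivity) (by positivity)]
    have : (1 - d / 2) * ((n : ℝ) + 2) = n + 3 / 2 := by rw [hd]; field_simp; ring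
    rw [← this]
    nlinarith only [b3]
  have b5 : e_hh n ^ J ≤ a ^ J := pow_le_pow_left₀ h1.le (by linarith) J
  have b6 : a ^ J / ((n : ℝ) + 1) ^ 2 ≤ 3 * (a ^ J / ((n : ℝ) + 1) - a ^ J / ((n : ℝ) + 3 / 2)) := by
    have : 3 * (a ^ J / ((n : ℝ) + 1) - a ^ J / ((n : ℝ) + 3 / 2)) =
        a ^ J / (((n : ℝ) + 1) * (2 / 3 * n + 1)) := by field_simp; ring
    rw [this, sq]
    gcongr
    linarith only []
  rw [e]
  have : e_hh n ^ J / ((n : ℝ) + 1) ^ 2 ≤ a ^ J / ((n : ℝ) + 1) ^ 2 := by gcongr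
  linarith only [b4, b6, this]

theorem e_Sc_tail {α : ℕ → ℝ} (h : e_Sc 2 α) :
    Summable α ∧ e_Sc 1 fun n => ∑ i ∈ range n, α i - ∑' i, α i := by
  obtain ⟨J, C, hC, h⟩ := h
  let u : ℕ → ℝ := fun n => 3 * C * ((e_hh n + 2 * J) ^ J / ((n : ℝ) + 1))
  have u0 : ∀ n, 0 ≤ u n := fun n => by have := e_hh_pos n; positivity
  have hu : ∀ n m, ∑ i ∈ range m, |α (i + n)| ≤ u n := fun n m => by
    have : ∑ i ∈ range m, |α (i + n)| ≤ ∑ i ∈ range m, (u (i + n) - u (i + 1 + n)) :=
      sum_le_sum fun i _ => by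
        refine (h _).trans ?_
        have := mul_le_mul_of_nonneg_left (e_pot J (i + n)) hC
        rw [add_right_comm i 1 n, mul_div_assoc]
        refine this.trans_eq ?_
        simp only [u]; push_cast; ring
    rw [sum_range_sub' (fun i => u (i + n)), zero_add] at this
    linarith [u0 (m + n)]
  have hs : ∀ n, Summable fun i => |α (i + n)| := fun n =>
    summable_of_sum_range_le (fun _ => abs_nonneg _) (hu n)
  have h0 : Summable α := (hs 0).of_abs
  refine ⟨h0, J, 3 * C * (1 + 2 * J) ^ J, by positivity, fun n => ?_⟩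
  beta_reduce
  rw [← h0.sum_add_tsum_nat_add n, sub_add_cancel_left, abs_neg]
  refine (norm_tsum_le_tsum_norm (f := fun i => α (i + n)) (hs n)).trans
    ((Real.tsum_le_of_sum_range_le (fun _ => abs_nonneg _) (hu n)).trans ?_)
  have h1 := e_hh_one n
  have hJ : (0 : ℝ) ≤ J := J.cast_nonneg
  rw [pow_one, mul_assoc (3 * C), ← mul_pow, mul_div_assoc]
  simp only [u]
  gcongr
  nlinarith only [h1]

variable {U V W : Type} [AddCommGroup U] [Module ℝ U] [AddCommGroup V] [Module ℝ V]
  [AddCommGroup W] [Module ℝ W]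

/-- Vector valued sequences of size `log ^ J / n ^ e`. -/
def e_Cl (V : Type) [AddCommGroup V] [Module ℝ V] (e : ℕ) : Submodule ℝ (ℕ → V) :=
  Submodule.span ℝ {x | ∃ α v, e_Sc e α ∧ x = fun n => α n • v}

theorem e_gen {e : ℕ} {α : ℕ → ℝ} (h : e_Sc e α) (v : V) : (fun n => α n • v) ∈ e_Cl V e :=
  Submodule.subset_span ⟨α, v, h, rfl⟩

theorem e_ind {e : ℕ} (L : (ℕ → V) →ₗ[ℝ] W) (S : Submodule ℝ W)
    (h : ∀ α v, e_Sc e α → L (fun n => α n • v) ∈ S) {x : ℕ → V} (hx : x ∈ e_Cl V e) : L x ∈ S := by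
  have : e_Cl V e ≤ S.comap L := Submodule.span_le.2 (by rintro _ ⟨α, v, a, rfl⟩; exact h α v a)
  exact this hx

theorem e_const (v : V) : (fun _ => v) ∈ e_Cl V 0 := by simpa using e_gen e_Sc_one v

theorem e_mono {e e' : ℕ} (he : e ≤ e') {x : ℕ → V} (h : x ∈ e_Cl V e') : x ∈ e_Cl V e :=
  e_ind LinearMap.id _ (fun _ v a => e_gen (e_Sc_mono he a) v) h

theorem e_map {e : ℕ} (L : V →ₗ[ℝ] W) {x : ℕ → V} (h : x ∈ e_Cl V e) :
    (fun n => L (x n)) ∈ e_Cl W e :=
  e_ind (L.compLeft ℕ) _ (fun α v a => by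
    convert e_gen a (L v) using 1
    funext n; simp) h

theorem e_bil {e e' : ℕ} (B : U →ₗ[ℝ] V →ₗ[ℝ] W) {x : ℕ → U} {y : ℕ → V} (h : x ∈ e_Cl U e)
    (h' : y ∈ e_Cl V e') : (fun n => B (x n) (y n)) ∈ e_Cl W (e + e') :=
  e_ind (LinearMap.pi fun n => B.flip (y n) ∘ₗ LinearMap.proj n) _ (fun α u a =>
    e_ind (LinearMap.pi fun n => B (α n • u) ∘ₗ LinearMap.proj n) _ (fun β v b => by
      convert e_gen (e_Sc_mul a b) (B u v) using 1
      funext n; simp [smul_smul]) h') h

theorem e_conv (B : U →ₗ[ℝ] V →ₗ[ℝ] W) {x : ℕ → U} {y : ℕ → V} (h : x ∈ e_Cl U 1)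
    (h' : y ∈ e_Cl V 1) : (fun n => ∑ p ∈ antidiagonal n, B (x p.1) (y p.2)) ∈ e_Cl W 1 := by
  have := e_ind (LinearMap.pi fun n => ∑ p ∈ antidiagonal n, B.flip (y p.2) ∘ₗ LinearMap.proj p.1)
    (e_Cl W 1) (fun α u a => ?_) h
  · convert this using 1
    funext n; simp
  have := e_ind (LinearMap.pi fun n => ∑ p ∈ antidiagonal n, B (α p.1 • u) ∘ₗ LinearMap.proj p.2)
    (e_Cl W 1) (fun β v b => ?_) h'
  · convert this using 1
    funext n; simp only [LinearMap.pi_apply, LinearMap.coe_sum, LinearMap.coe_comp, LinearMap.coe_proj, Finset.sum_apply, Function.comp_apply, Function.eval, map_smul, LinearMap.flip_apply, LinearMap.coe_smul, Pi.smul_apply]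
  convert e_gen (e_Sc_conv a b) (B u v) using 1
  funext n; simp only [map_smul, LinearMap.pi_apply, LinearMap.coe_sum, LinearMap.coe_comp, LinearMap.coe_smul, LinearMap.coe_proj, Finset.sum_apply, Function.comp_apply, Function.eval, Pi.smul_apply, smul_smul, sum_smul]

theorem e_smul {e e' : ℕ} {α : ℕ → ℝ} {y : ℕ → V} (h : e_Sc e α) (h' : y ∈ e_Cl V e') :
    (fun n => α n • y n) ∈ e_Cl V (e + e') := by
  simpa using e_bil (LinearMap.lsmul ℝ V) (e_gen h (1 : ℝ)) h'

theorem e_sum {x : ℕ → V} (h : x ∈ e_Cl V 1) : (fun n => ∑ i ∈ range n, x i) ∈ e_Cl V 0 := by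
  have := e_ind (LinearMap.pi fun n => ∑ i ∈ range n, LinearMap.proj i) (e_Cl V 0) (fun α u a => ?_) h
  · convert this using 1
    funext n; simp
  convert e_gen (e_Sc_sum a) u using 1
  funext n; simp [sum_smul]

theorem e_cons {x : ℕ → V} (h : (fun n => x (n + 1)) ∈ e_Cl V 1) : x ∈ e_Cl V 1 := by
  have := e_ind (W := ℕ → V) (LinearMap.pi fun n => Nat.casesOn n 0 fun m => LinearMap.proj m)
    (e_Cl V 1) (fun α u a => ?_) h
  · have h0 : e_Sc 1 fun _ => 0 := ⟨0, 0, le_rfl, by simp⟩
    convert add_mem this (e_gen (e_Sc_cons h0 1) (x 0)) using 1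
    funext n; cases n <;> simp
  convert e_gen (e_Sc_cons a 0) u using 1
  funext n; cases n <;> simp

theorem e_tail {x : ℕ → V} (h : x ∈ e_Cl V 2) :
    ∃ c, (fun n => ∑ i ∈ range n, x i - c) ∈ e_Cl V 1 := by
  induction h using Submodule.span_induction with
  | mem x hx =>
    obtain ⟨α, v, a, rfl⟩ := hx
    refine ⟨(∑' i, α i) • v, ?_⟩
    convert e_gen (e_Sc_tail a).2 v using 1
    funext n; simp [sum_smul, sub_smul]
  | zero => exact ⟨0, by convert zero_mem (e_Cl V 1) using 1; funext n; simp⟩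
  | add x y _ _ a b =>
    obtain ⟨c, a⟩ := a
    obtain ⟨d, b⟩ := b
    refine ⟨c + d, ?_⟩
    convert add_mem a b using 1
    funext n; simp only [Pi.add_apply, sum_add_distrib]; abel
  | smul r x _ a =>
    obtain ⟨c, a⟩ := a
    refine ⟨r • c, ?_⟩
    convert Submodule.smul_mem _ r a using 1
    funext n; simp [smul_sum, smul_sub]

theorem e_uniq {c : V} (h : (fun _ => c) ∈ e_Cl V 1) : c = 0 := by
  refine (Module.forall_dual_apply_eq_zero_iff ℝ c).1 fun f => ?_
  have h2 : Summable fun n : ℕ => (1 / ((n : ℝ) + 1)) • f c := by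
    have h4 := e_smul (y := fun _ => f c) e_Sc_inv (e_map (x := fun _ => c) f h)
    suffices ∀ y ∈ e_Cl ℝ (1 + 1), Summable y from this _ h4
    intro y hy
    induction hy using Submodule.span_induction with
    | mem x hx =>
      obtain ⟨α, v, a, rfl⟩ := hx
      exact (e_Sc_tail a).1.smul_const v
    | zero => exact summable_zero
    | add x y _ _ a b => exact a.add b
    | smul r x _ a => exact a.const_smul r
  by_contra h0
  have h3 := h2.mul_right (f c)⁻¹
  simp only [smul_eq_mul, mul_assoc, mul_inv_cancel₀ h0, mul_one] at h3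
  exact Real.not_summable_one_div_natCast ((summable_nat_add_iff 1).1 (by simpa only [Nat.cast_add, Nat.cast_one, one_div] using h3))

theorem e_closed (S : Submodule ℝ V) {x : ℕ → V} {c : V} (hx : ∀ n, x n ∈ S)
    (h : (fun n => x n - c) ∈ e_Cl V 1) : c ∈ S := by
  have := neg_mem (e_map S.mkQ h)
  refine (Submodule.Quotient.mk_eq_zero S).1 (e_uniq ?_)
  convert this using 1
  funext n
  simp [(Submodule.Quotient.mk_eq_zero S).2 (hx n)]

theorem e_grow (τ : Module.End ℝ V) {M : ℕ} (hM : τ ^ M = 0) {x d : ℕ → V}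
    (hx : ∀ n, x (n + 1) = x n + d n)
    (h : ∀ k, (fun n => (τ ^ (k + 1)) (x n)) ∈ e_Cl V 0 → (fun n => (τ ^ k) (d n)) ∈ e_Cl V 1) :
    x ∈ e_Cl V 0 ∧ d ∈ e_Cl V 1 := by
  have e : ∀ n, x n = x 0 + ∑ i ∈ range n, d i := fun n => by
    induction n with
    | zero => simp
    | succ n ih => rw [hx, ih, sum_range_succ, add_assoc]
  have st : ∀ k, (fun n => (τ ^ k) (d n)) ∈ e_Cl V 1 → (fun n => (τ ^ k) (x n)) ∈ e_Cl V 0 :=
    fun k hk => by
      convert add_mem (e_const ((τ ^ k) (x 0))) (e_sum hk) using 1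
      funext n; rw [e n]; simp only [map_add, map_sum, Pi.add_apply]
  have key : ∀ j k, j + k = M → (fun n => (τ ^ k) (x n)) ∈ e_Cl V 0 := fun j => by
    induction j with
    | zero => intro k hk; rw [show k = M by omega, hM]; exact zero_mem _
    | succ j ih => exact fun k hk => st k (h k (ih (k + 1) (by omega)))
  have h0 := key M 0 rfl
  exact ⟨h0, h 0 (e_map τ h0)⟩

end

end Pool.Agent.MP_08482e_nt.H68

/-! The coefficients of the solution of the Knizhnik-Zamolodchikov equation in a real algebra. -/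

namespace Pool.Agent.MP_08482e_nt.H68

open Finset

noncomputable section

variable {B C : Type} [Ring B] [Algebra ℝ B] [Ring C] [Algebra ℝ C]

def e_exp (x : B) : B :=
  letI : Module ℚ B := Module.compHom B (algebraMap ℚ ℝ)
  IsNilpotent.exp x

theorem e_exp_eq {x : B} {k : ℕ} (h : x ^ k = 0) :
    e_exp x = ∑ i ∈ range k, (i.factorial : ℝ)⁻¹ • x ^ i := by
  let _ : Module ℚ B := Module.compHom B (algebraMap ℚ ℝ)
  refine (IsNilpotent.exp_eq_sum h).trans (sum_congr rfl fun i _ => ?_)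
  show algebraMap ℚ ℝ (i.factorial : ℚ)⁻¹ • x ^ i = _
  simp

theorem e_exp_add {x y : B} (h : Commute x y) (hx : IsNilpotent x) (hy : IsNilpotent y) :
    e_exp (x + y) = e_exp x * e_exp y :=
  letI : Module ℚ B := Module.compHom B (algebraMap ℚ ℝ)
  IsNilpotent.exp_add_of_commute h hx hy

theorem e_exp_zero : e_exp (0 : B) = 1 := by simpa using e_exp_eq (x := (0 : B)) (k := 1) (by simp)

theorem e_exp_map {x : B} (hx : IsNilpotent x) (f : B →ₐ[ℝ] C) : f (e_exp x) = e_exp (f x) :=
  letI : Module ℚ B := Module.compHom B (algebraMap ℚ ℝ)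
  letI : Module ℚ C := Module.compHom C (algebraMap ℚ ℝ)
  IsNilpotent.map_exp hx f

theorem e_mul {e : ℕ} {x y : ℕ → B} (h : x ∈ e_Cl B e) (h' : y ∈ e_Cl B 0) :
    x * y ∈ e_Cl B e := by
  have := e_bil (LinearMap.mul ℝ B) h h'
  exact this

theorem e_mul' {e : ℕ} {x y : ℕ → B} (h : x ∈ e_Cl B 0) (h' : y ∈ e_Cl B e) :
    x * y ∈ e_Cl B e := by
  have := e_bil (LinearMap.mul ℝ B).flip h' h
  exact this

theorem e_fsum {V : Type} [AddCommGroup V] [Module ℝ V] {e : ℕ} (k : ℕ) {f : ℕ → ℕ → V}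
    (h : ∀ i, f i ∈ e_Cl V e) : (fun n => ∑ i ∈ range k, f i n) ∈ e_Cl V e := by
  convert Submodule.sum_mem (t := range k) _ fun i _ => h i using 1
  funext n; simp

theorem e_exp_mem {α : ℕ → ℝ} (h : e_Sc 0 α) {b : B} (hb : IsNilpotent b) :
    (fun n => e_exp (α n • b)) ∈ e_Cl B 0 := by
  obtain ⟨k, hk⟩ := hb
  have p : ∀ i, e_Sc 0 fun n => α n ^ i := fun i => by
    induction i with
    | zero => simpa using e_Sc_one
    | succ i ih => simpa [pow_succ] using e_Sc_mul ih h
  convert e_fsum k fun i => e_gen (p i) ((i.factorial : ℝ)⁻¹ • b ^ i) using 2 with n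
  rw [e_exp_eq (k := k) (by rw [smul_pow, hk, smul_zero])]
  exact sum_congr rfl fun i _ => by rw [smul_pow, smul_comm]

theorem e_exp_rem {b : B} (hb : IsNilpotent b) : (fun n : ℕ =>
    e_exp ((1 / ((n : ℝ) + 1)) • b) - 1 - (1 / ((n : ℝ) + 1)) • b) ∈ e_Cl B 2 := by
  obtain ⟨k, hk⟩ := hb
  convert e_fsum k fun i => e_gen (e_Sc_mono (show 2 ≤ i + 2 by omega) (e_Sc_pow (i + 2)))
    (((i + 2).factorial : ℝ)⁻¹ • b ^ (i + 2)) using 2 with n
  rw [e_exp_eq (k := k + 2) (by rw [smul_pow, pow_add b, hk, zero_mul, smul_zero]), sum_range_succ',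
    sum_range_succ']
  simp only [zero_add, Nat.factorial_one, Nat.cast_one, inv_one, pow_one, one_smul, Nat.factorial_zero,
    pow_zero, add_sub_cancel_right]
  exact sum_congr rfl fun i _ => by rw [smul_pow, smul_comm]

def e_D (a : B) : Module.End ℝ B := LinearMap.mulRight ℝ a - LinearMap.mulLeft ℝ a

theorem e_D_apply (a x : B) : e_D a x = x * a - a * x := rfl

theorem e_D_nil {a : B} (ha : IsNilpotent a) : IsNilpotent (e_D a) :=
  (LinearMap.commute_mulLeft_right a a).symm.isNilpotent_sub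
    ((LinearMap.isNilpotent_mulRight_iff ℝ a).2 ha) ((LinearMap.isNilpotent_mulLeft_iff ℝ a).2 ha)

theorem e_eig {D : Module.End ℝ B} (hD : IsNilpotent D) {c : ℝ} (hc : c ≠ 0) {x : B}
    (h : c • x = D x) : x = 0 := by
  obtain ⟨k, hk⟩ := hD
  have : ∀ i, c ^ i • x = (D ^ i) x := fun i => by
    induction i with
    | zero => simp
    | succ i ih => rw [pow_succ', mul_smul, ih, ← map_smul, h, pow_succ]; rfl
  have := this k
  rw [hk] at this
  exact (smul_eq_zero.1 this).resolve_left (pow_ne_zero _ hc)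

theorem e_res {D : Module.End ℝ B} {k : ℕ} (hk : D ^ k = 0) {c : ℝ} (hc : c ≠ 0) (y : B) :
    c • ∑ i ∈ range k, (1 / c) ^ (i + 1) • (D ^ i) y =
      D (∑ i ∈ range k, (1 / c) ^ (i + 1) • (D ^ i) y) + y := by
  have := sum_range_sub' (fun i => (1 / c) ^ i • (D ^ i) y) k
  rw [hk] at this
  simp only [pow_zero, one_smul, Module.End.one_apply, LinearMap.zero_apply, smul_zero, sub_zero,
    sum_sub_distrib] at this
  rw [← sub_eq_iff_eq_add', smul_sum, map_sum]
  refine Eq.trans ?_ this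
  congr 1 <;> refine sum_congr rfl fun i _ => ?_
  · rw [smul_smul, pow_succ', ← mul_assoc, mul_one_div_cancel hc, one_mul]
  · rw [map_smul, pow_succ' D]; rfl

/-- The recursion for the coefficients. -/
def e_KZ (a b : B) (K : ℕ → B) : Prop :=
  K 0 = 1 ∧ ∀ n : ℕ, (n : ℝ) • K n = e_D a (K n) + (∑ i ∈ range n, K i) * b

theorem e_KZ_sol {a b : B} {K : ℕ → B} (h : e_KZ a b K) {k : ℕ} (hk : e_D a ^ k = 0) (n : ℕ) :
    K (n + 1) = ∑ i ∈ range k, (1 / ((n : ℝ) + 1)) ^ (i + 1) •
      (e_D a ^ i) ((∑ i ∈ range (n + 1), K i) * b) := by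
  have hc : (n : ℝ) + 1 ≠ 0 := by positivity
  refine sub_eq_zero.1 (e_eig ⟨k, hk⟩ hc ?_)
  have := h.2 (n + 1)
  push_cast at this
  rw [smul_sub, e_res hk hc, this, map_sub, add_sub_add_right_eq_sub]

theorem e_KZ_uq {a b : B} (ha : IsNilpotent a) {K K' : ℕ → B} (h : e_KZ a b K) (h' : e_KZ a b K')
    (n : ℕ) : K n = K' n := by
  obtain ⟨k, hk⟩ := e_D_nil ha
  induction n using Nat.strong_induction_on with
  | _ n ih =>
    cases n with
    | zero => rw [h.1, h'.1]
    | succ n => rw [e_KZ_sol h hk, e_KZ_sol h' hk, sum_congr rfl fun i hi => ih i (mem_range.1 hi)]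

theorem e_KZ_ex {a : B} (ha : IsNilpotent a) (b : B) : ∃ K, e_KZ a b K := by
  obtain ⟨k, hk⟩ := e_D_nil ha
  let G : ℕ → B → B := fun n s => ∑ i ∈ range k, (1 / ((n : ℝ) + 1)) ^ (i + 1) • (e_D a ^ i) (s * b)
  let S : ℕ → B := fun n => Nat.rec 1 (fun n s => s + G n s) n
  let K : ℕ → B := fun n => Nat.casesOn n 1 fun n => G n (S n)
  have e : ∀ n, ∑ i ∈ range (n + 1), K i = S n := fun n => by
    induction n with
    | zero => simp [K, S]
    | succ n ih => rw [sum_range_succ, ih]
  refine ⟨K, rfl, fun n => ?_⟩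
  cases n with
  | zero => simp [K, e_D_apply]
  | succ n => rw [e, Nat.cast_succ]; exact e_res hk (by positivity) _

theorem e_KZ_map {a b : B} {K : ℕ → B} (h : e_KZ a b K) (f : B →ₐ[ℝ] C) :
    e_KZ (f a) (f b) fun n => f (K n) :=
  ⟨by simp [h.1], fun n => by simpa [e_D_apply] using congrArg f (h.2 n)⟩

omit [Algebra ℝ B] in
theorem e_cs (f g : ℕ → B) (n : ℕ) : ∑ p ∈ antidiagonal n, (∑ i ∈ range p.1, f i) * g p.2 =
    ∑ m ∈ range n, ∑ p ∈ antidiagonal m, f p.1 * g p.2 := by
  induction n with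
  | zero => simp
  | succ n ih =>
    rw [Finset.Nat.sum_antidiagonal_succ, sum_range_succ _ n, ← ih, ← sum_add_distrib]
    simp only [range_zero, sum_empty, zero_mul, sum_range_succ, add_mul, zero_add]

omit [Algebra ℝ B] in
theorem e_cs' (f g : ℕ → B) (n : ℕ) : ∑ p ∈ antidiagonal n, f p.1 * (∑ i ∈ range p.2, g i) =
    ∑ m ∈ range n, ∑ p ∈ antidiagonal m, f p.1 * g p.2 := by
  induction n with
  | zero => simp
  | succ n ih =>
    rw [Finset.Nat.sum_antidiagonal_succ', sum_range_succ _ n, ← ih, ← sum_add_distrib]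
    simp only [range_zero, sum_empty, mul_zero, sum_range_succ, mul_add, zero_add]

theorem e_KZ_mul {a b a' b' : C} {K K' : ℕ → C} (h : e_KZ a b K) (h' : e_KZ a' b' K')
    (h1 : ∀ n, a * K' n = K' n * a) (h2 : ∀ n, b * K' n = K' n * b) (h3 : ∀ n, K n * a' = a' * K n) :
    e_KZ (a + a') (b + b') fun n => ∑ p ∈ antidiagonal n, K p.1 * K' p.2 := by
  refine ⟨by simp [h.1, h'.1], fun n => ?_⟩
  rw [mul_add _ b, ← e_cs, e_cs, ← e_cs' K K' n, map_sum, e_cs', ← e_cs, sum_mul, e_cs, ← e_cs', sum_mul,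
    ← sum_add_distrib, ← sum_add_distrib, smul_sum]
  refine sum_congr rfl fun p hp => ?_
  rw [← mem_antidiagonal.1 hp, Nat.cast_add, add_smul, ← smul_mul_assoc, ← mul_smul_comm, h.2, h'.2]
  simp only [e_D_apply, add_mul, mul_add, sub_mul, mul_sub, mul_assoc, h1, h2]
  rw [← mul_assoc (K _) a', h3, mul_assoc]
  abel

def e_H (n : ℕ) : ℝ := ∑ i ∈ range n, 1 / ((i : ℝ) + 1)

theorem e_lim {a t b' : B} (ha : IsNilpotent a) (ht : IsNilpotent t) (hc : ∀ x, Commute t x)
    {K : ℕ → B} (h : e_KZ a (t * b') K) : K ∈ e_Cl B 1 ∧ ∃ w, (fun n =>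
      (∑ i ∈ range (n + 1), K i) * e_exp (e_H n • -(t * b')) - (1 + t * w)) ∈ e_Cl B 1 := by
  obtain ⟨k, hk⟩ := e_D_nil ha
  obtain ⟨M, hM⟩ := id ht
  have hb : IsNilpotent (-(t * b')) := ((hc b').isNilpotent_mul_right ht).neg
  have cD : ∀ i (u x : B), (∀ x, Commute u x) → (e_D a ^ i) (u * x) = u * (e_D a ^ i) x :=
    fun i u x hu => by
      induction i with
      | zero => rfl
      | succ i ih =>
        rw [pow_succ', Module.End.mul_apply, Module.End.mul_apply, ih, e_D_apply, e_D_apply, mul_sub,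
          ← mul_assoc a, ← (hu a).eq, mul_assoc, mul_assoc]
  obtain ⟨hS, hK⟩ := e_grow (LinearMap.mulLeft ℝ t) (M := M) (by rw [LinearMap.pow_mulLeft, hM]; simp)
    (x := fun n => ∑ i ∈ range (n + 1), K i) (d := fun n => K (n + 1)) (fun n => sum_range_succ _ _)
    fun j hj => by
      simp only [LinearMap.pow_mulLeft, LinearMap.mulLeft_apply] at hj ⊢
      have a1 := e_mul hj (e_const b')
      have a2 := e_fsum k fun i => e_smul (e_Sc_mono (show 1 ≤ i + 1 by omega) (e_Sc_pow (i + 1)))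
        (e_map (e_D a ^ i) a1)
      convert a2 using 2 with n
      rw [e_KZ_sol h hk, mul_sum]
      refine sum_congr rfl fun i _ => ?_
      rw [mul_smul_comm, ← cD i _ _ fun x => (hc x).pow_left j, ← mul_assoc _ t, ← (hc _).eq]
      simp only [Pi.mul_apply, pow_succ t, mul_assoc]
  have hU := e_exp_mem (e_Sc_sum e_Sc_inv) hb
  have d1 := add_mem (e_map (e_D a) hK) (e_mul hK (e_const (-(t * b'))))
  have d2 := e_smul e_Sc_inv d1
  have d3 := e_mul' (add_mem hS (e_mono zero_le_one hK)) (e_exp_rem hb)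
  have hd := e_mul (add_mem d2 d3) hU
  obtain ⟨c, hc'⟩ := e_tail (x := fun n => (∑ i ∈ range (n + 1 + 1), K i) * e_exp (e_H (n + 1) • -(t * b')) -
      (∑ i ∈ range (n + 1), K i) * e_exp (e_H n • -(t * b'))) (by
    convert hd using 2 with n
    have e := h.2 (n + 1)
    have e' : K (n + 1) = (1 / ((n : ℝ) + 1)) • (((n + 1 : ℕ) : ℝ) • K (n + 1)) := by
      rw [smul_smul, Nat.cast_succ, one_div_mul_cancel (by positivity), one_smul]
    rw [e] at e'
    rw [e_H, sum_range_succ _ n, add_comm (∑ _ ∈ range n, _), add_smul,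
      e_exp_add (((Commute.refl _).smul_left _).smul_right _) (hb.smul _) (hb.smul _), ← mul_assoc, e_H,
      ← sub_mul, sum_range_succ _ (n + 1), Pi.mul_apply]
    congr 1
    simp only [Pi.add_apply, Pi.mul_apply, smul_add, mul_sub, mul_one, mul_smul_comm, add_mul, mul_neg, smul_neg] at e' ⊢
    rw [sub_eq_iff_eq_add, ← sub_eq_zero]
    refine Eq.trans ?_ (sub_eq_zero.2 e')
    abel)
  simp only [sum_range_sub fun n => (∑ i ∈ range (n + 1), K i) * e_exp (e_H n • -(t * b'))] at hc'
  have e0 : (∑ i ∈ range (0 + 1), K i) * e_exp (e_H 0 • -(t * b')) = 1 := by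
    simp [e_H, e_exp_zero, h.1]
  rw [e0] at hc'
  obtain ⟨w, hw⟩ := e_closed (LinearMap.range (LinearMap.mulLeft ℝ t)) (fun n => by
    have a1 : ∑ i ∈ range n, K (i + 1) ∈ LinearMap.range (LinearMap.mulLeft ℝ t) :=
      Submodule.sum_mem _ fun j _ => by
        rw [e_KZ_sol h hk]
        refine Submodule.sum_mem _ fun i _ => Submodule.smul_mem _ _ ?_
        rw [← mul_assoc, ← (hc _).eq, mul_assoc, cD _ _ _ hc]
        exact ⟨_, rfl⟩
    obtain ⟨u, hu⟩ := a1
    obtain ⟨j, hj⟩ := hb.smul (e_H n)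
    rw [sum_range_succ', h.1, ← hu, add_mul, one_mul, add_sub_assoc]
    refine add_mem ⟨_, (mul_assoc _ _ _).symm⟩ ?_
    rw [e_exp_eq (k := j + 1) (by rw [pow_succ, hj, zero_mul]), sum_range_succ']
    simp only [Nat.factorial_zero, Nat.cast_one, inv_one, pow_zero, one_smul, add_sub_cancel_right]
    refine Submodule.sum_mem _ fun i _ => Submodule.smul_mem _ _ ?_
    rw [pow_succ', smul_mul_assoc, neg_mul, mul_assoc]
    exact Submodule.smul_mem _ _ (neg_mem ⟨_, rfl⟩)) hc'
  refine ⟨e_cons hK, w, ?_⟩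
  simpa only [sub_sub, ← hw, LinearMap.mulLeft_apply] using hc'

theorem e_grp_lim (Δ i j : B →ₗ[ℝ] C) {Z : ℕ → B} {z : B} (h : ∀ n, Δ (Z n) = i (Z n) * j (Z n))
    (hz : (fun n => Z n - z) ∈ e_Cl B 1) : Δ z = i z * j z := by
  have h0 := add_mem (e_mono zero_le_one hz) (e_const z)
  refine sub_eq_zero.1 (e_uniq ?_)
  have h1 := e_mul (e_map i hz) (e_map j h0)
  have h2 := e_mul' (e_const (i z)) (e_map j hz)
  convert sub_mem (add_mem h1 h2) (e_map Δ hz) using 2 with n
  simp only [map_sub, Pi.add_apply, sub_add_cancel, h, Pi.sub_apply, Pi.mul_apply, sub_mul, mul_sub, sub_add_sub_cancel, sub_sub_sub_cancel_left]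

theorem e_grp (Δ i j : B →ₐ[ℝ] C) (hij : ∀ x y, i x * j y = j y * i x) {a b : B} (ha : IsNilpotent a)
    (hb : IsNilpotent b) (pa : Δ a = i a + j a) (pb : Δ b = i b + j b) {K F : ℕ → B}
    (hK : e_KZ a b K) (hF : e_KZ 0 b F) (cK : K ∈ e_Cl B 1) (cF : F ∈ e_Cl B 1) {Y γ γ' : B}
    (hγ : γ * γ' = 1)
    (lK : (fun n => (∑ i ∈ range (n + 1), K i) * e_exp (e_H n • -b) - Y * γ) ∈ e_Cl B 1)
    (lF : (fun n => (∑ i ∈ range (n + 1), F i) * e_exp (e_H n • -b) - γ) ∈ e_Cl B 1) :
    Δ Y = i Y * j Y := by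
  have cv : ∀ {a : B} {K : ℕ → B}, IsNilpotent a → Δ a = i a + j a → e_KZ a b K → ∀ n,
      Δ (K n) = ∑ p ∈ antidiagonal n, i (K p.1) * j (K p.2) := fun ha pa hK =>
    e_KZ_uq (ha.map Δ) (e_KZ_map hK Δ) (by
      rw [pa, pb]
      exact e_KZ_mul (e_KZ_map hK i) (e_KZ_map hK j) (fun _ => hij _ _) (fun _ => hij _ _)
        fun _ => hij _ _)
  have hR : (fun n => ∑ m ∈ range (n + 1), (K m - Y * F m)) ∈ e_Cl B 1 := by
    have a1 := sub_mem lK (e_mul' (e_const Y) lF)
    have a2 := e_mul a1 (e_exp_mem (e_Sc_sum e_Sc_inv) hb)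
    convert a2 using 2 with n
    have : e_exp (e_H n • -b) * e_exp (e_H n • b) = 1 := by
      rw [← e_exp_add (((Commute.refl _).neg_left.smul_left _).smul_right _) (hb.neg.smul _) (hb.smul _),
        smul_neg, neg_add_cancel, e_exp_zero]
    simp only [Pi.sub_apply, Pi.mul_apply, mul_sub, sub_sub_sub_cancel_right, sub_mul, mul_assoc, sum_sub_distrib,
      ← mul_sum]
    rw [← e_H, this, mul_one, mul_one]
  have h0 := e_mul' (e_const Y) cF
  have h1 := e_conv (LinearMap.mul ℝ C) (e_map i.toLinearMap h0) (e_map j.toLinearMap hR)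
  have h2 := e_conv (LinearMap.mul ℝ C) (e_map i.toLinearMap hR) (e_map j.toLinearMap cK)
  have h3 : (fun n => (Δ Y - i Y * j Y) * Δ (∑ m ∈ range (n + 1), F m)) ∈ e_Cl C 1 := by
    convert sub_mem (add_mem h1 h2) (e_map Δ.toLinearMap hR) using 2 with n
    have a1 := e_cs' (fun m => i (Y * F m)) (fun m => j (K m - Y * F m)) (n + 1)
    have a2 := e_cs (fun m => i (K m - Y * F m)) (fun m => j (K m)) (n + 1)
    rw [Finset.Nat.sum_antidiagonal_succ'] at a1
    rw [Finset.Nat.sum_antidiagonal_succ] at a2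
    simp only [range_zero, sum_empty, mul_zero, zero_mul, zero_add] at a1 a2
    simp only [Pi.sub_apply, Pi.add_apply, Pi.mul_apply, LinearMap.mul_apply', AlgHom.toLinearMap_apply]
    simp only [map_sum]
    rw [a1, a2, mul_sum, ← sum_add_distrib, ← sum_sub_distrib]
    refine sum_congr rfl fun m _ => ?_
    have a3 : i Y * j Y * Δ (F m) + (∑ p ∈ antidiagonal m, i (Y * F p.1) * j (K p.2 - Y * F p.2) +
        ∑ p ∈ antidiagonal m, i (K p.1 - Y * F p.1) * j (K p.2)) = Δ (K m) := by
      rw [cv ha pa hK, cv .zero (by simp) hF, mul_sum, ← sum_add_distrib, ← sum_add_distrib]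
      refine sum_congr rfl fun p _ => ?_
      simp only [map_sub, map_mul, mul_sub, sub_mul, mul_assoc]
      rw [← mul_assoc (j Y), ← hij, mul_assoc]
      abel
    rw [map_sub Δ, map_mul Δ, ← a3, sub_mul]
    abel
  have h4 : (Δ Y - i Y * j Y) * Δ γ = 0 := e_uniq (by
    have a1 := e_mul h3 (e_map Δ.toLinearMap (e_exp_mem (e_Sc_sum e_Sc_inv) hb.neg))
    have a2 := e_mul' (e_const (Δ Y - i Y * j Y)) (e_map Δ.toLinearMap lF)
    convert sub_mem a1 a2 using 2 with n
    simp only [Pi.sub_apply, Pi.mul_apply, AlgHom.toLinearMap_apply, map_sub, map_mul, mul_sub (_ - _), mul_assoc, e_H,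
      sub_sub_cancel])
  rw [← sub_eq_zero, ← mul_one (_ - _), ← map_one Δ, ← hγ, map_mul, ← mul_assoc, h4, zero_mul]

end

end Pool.Agent.MP_08482e_nt.H68

/-! A solution of the double shuffle equations from truncated multiple zeta values. -/

namespace Pool.Agent.MP_08482e_nt.H68

open Polynomial Finset TensorProduct

section
variable {R : Type} [CommRing R]

theorem e_co1 (x y : A R) : co [1] (x * y) = co [] x * co [1] y + co [1] x * co [] y :=
  lin_ext' (f := co [1] ∘ₗ LinearMap.mulRight R y)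
    (g := LinearMap.mulRight R (co [1] y) ∘ₗ co [] + LinearMap.mulRight R (co [] y) ∘ₗ co [1])
    (fun w => by
      rcases w with _ | ⟨k, w⟩
      · simp only [wd_nil, LinearMap.coe_comp, Function.comp_apply, LinearMap.mulRight_apply, one_mul, LinearMap.add_apply, co_one, ↓ reduceIte, List.cons_ne_self, zero_mul, add_zero]
      · by_cases h : k = 1 <;> simp [mul_assoc, h, co_nil_mul (wd w)]) x

theorem e_co01 (x y : A R) :
    co [0, 1] (x * y) = co [] x * co [0, 1] y + co [0] x * co [1] y + co [0, 1] x * co [] y :=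
  lin_ext' (f := co [0, 1] ∘ₗ LinearMap.mulRight R y)
    (g := LinearMap.mulRight R (co [0, 1] y) ∘ₗ co [] + LinearMap.mulRight R (co [1] y) ∘ₗ co [0] +
      LinearMap.mulRight R (co [] y) ∘ₗ co [0, 1])
    (fun w => by
      rcases w with _ | ⟨k, w⟩
      · simp only [wd_nil, LinearMap.coe_comp, Function.comp_apply, LinearMap.mulRight_apply, one_mul, LinearMap.add_apply, co_one, ↓ reduceIte, List.cons_ne_self, zero_mul, add_zero, reduceCtorEq]
      · by_cases h : k = 0 <;> simp only [h, wd_cons, LinearMap.coe_comp, Function.comp_apply, LinearMap.mulRight_apply, mul_assoc, co_cons_b, ↓ reduceIte, e_co1, LinearMap.add_apply, co_nil_b, zero_mul, zero_add, add_zero]) x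

theorem e_co_b (w : List ℕ) (k : ℕ) : co w (b k : A R) = if [k] = w then 1 else 0 := by
  simpa using co_wd (R := R) w [k]

theorem e_grp_B {s : R} {M : ℕ} (hs : s ^ M = 0) : Grp (∑ k ∈ range M, s ^ k • bb k : A R) := by
  simp only [Grp, map_sum, map_smul, cop_bb, smul_sum, sum_tmul, tmul_sum, ← smul_tmul', tmul_smul,
    smul_smul, ← pow_add]
  rw [← sum_product', sum_sigma', ← sum_filter_add_sum_filter_not (range M ×ˢ range M)
    (fun p => p.1 + p.2 < M), sum_eq_zero (s := filter (fun p => ¬_) _) fun p hp => by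
      rw [pow_eq_zero_of_le (by have := (mem_filter.1 hp).2; omega) hs, zero_smul], add_zero]
  refine sum_bij' (fun x _ => (x.2.2, x.2.1)) (fun p _ => ⟨p.1 + p.2, p.2, p.1⟩) ?_ ?_ ?_ ?_ ?_ <;>
    simp +contextual only [mem_sigma, mem_range, HasAntidiagonal.mem_antidiagonal, mem_filter, mem_product, and_imp, true_and, Prod.forall, Prod.mk.eta, implies_true] <;> grind

variable {R' : Type} [CommRing R'] [Algebra R R'] (ξ : R')

theorem e_ThW (j : ℕ) (l : List (ℕ × ℕ)) :
    ThW ξ (List.replicate j 0 ++ word l) = ξ ^ j • wd (word (dual l)) := by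
  induction j with
  | zero => rw [← tw_word]; cases l <;> simp only [List.replicate_zero, word_nil, List.append_nil, ThW, pow_zero, tw, wd_nil, one_smul, word_cons, List.nil_append, wd_append, wd_replicate]
  | succ j ih => rw [List.replicate_succ, List.cons_append, ThW, ih, smul_smul, pow_succ']

theorem e_Th_left (x : A R) : Th ξ (b 0 * x) = ξ • Th ξ x :=
  lin_ext' (f := Th ξ ∘ₗ LinearMap.mulLeft R (b 0))
    (g := (LinearMap.lsmul R' (A R') ξ).restrictScalars R ∘ₗ Th ξ)
    (fun w => by simp [← wd_cons, Th, ThW]) x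

theorem e_Th_right (x : A R) (m : ℕ) : Th ξ (x * b 1 * b 0 ^ m) = b (m + 1) * Th ξ x :=
  lin_ext' (f := Th ξ ∘ₗ LinearMap.mulRight R (b 0 ^ m) ∘ₗ LinearMap.mulRight R (b 1))
    (g := (LinearMap.mulLeft R' (b (m + 1))).restrictScalars R ∘ₗ Th ξ) (fun w => by
      obtain ⟨j, l, rfl⟩ := parse w
      have e : (wd (List.replicate j 0 ++ word l) * b 1 * b 0 ^ m : A R) =
          wd (List.replicate j 0 ++ word (l ++ [(0, m)])) := by simp [word_append, mul_assoc]
      have e' : dual (l ++ [(0, m)]) = (m, 0) :: dual l := by simp [dual]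
      simp only [LinearMap.comp_apply, LinearMap.mulRight_apply, e, Th, lin_wd, e_ThW, e',
        LinearMap.restrictScalars_apply, LinearMap.mulLeft_apply]
      simp) x

end

section
variable {R : Type} [CommRing R] [Algebra ℝ R] {θ : R}

theorem e_nil {S B : Type} [CommRing S] [Ring B] [Algebra S B] {s : S} (h : IsNilpotent s) (x : B) :
    IsNilpotent (s • x) := by
  obtain ⟨k, hk⟩ := h
  exact ⟨k, by rw [_root_.smul_pow, hk, zero_smul]⟩

theorem e_grp_exp (h : IsNilpotent θ) (c : ℝ) : Grp (e_exp (c • -(θ • b 1)) : A R) := by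
  have hn : IsNilpotent (c • -(θ • b 1) : A R) := (e_nil h _).neg.smul c
  let i := (Algebra.TensorProduct.includeLeft : A R →ₐ[ℝ] A R ⊗[R] A R)
  let j := (Algebra.TensorProduct.includeRight : A R →ₐ[R] A R ⊗[R] A R).restrictScalars ℝ
  have e : (cop (0 : R)).restrictScalars ℝ (c • -(θ • b 1)) = i (c • -(θ • b 1)) + j (c • -(θ • b 1)) := by
    simp only [map_smul, map_neg, ← smul_add, ← neg_add]
    simp [i, j, show cop (0 : R) (b 1) = _ from prim_b1, smul_tmul']
  have := e_exp_map hn ((cop (0 : R)).restrictScalars ℝ)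
  rw [e, e_exp_add (by generalize c • -(θ • b 1 : A R) = x; simp [i, j, commute_iff_eq]) (hn.map i) (hn.map j),
    ← e_exp_map hn, ← e_exp_map hn] at this
  simpa [i, j, Grp] using this

theorem e_exp_Sp (h : IsNilpotent θ) (c : ℝ) :
    (e_exp (c • -(θ • b 1)) - 1 : A R) ∈ Sp fun w => (∀ k ∈ w, k = 1) ∧ w ≠ [] := by
  obtain ⟨j, hj⟩ : IsNilpotent (c • -(θ • b 1) : A R) := (e_nil h _).neg.smul c
  rw [e_exp_eq (k := j + 1) (by rw [pow_succ, hj, zero_mul]), sum_range_succ']
  simp only [Nat.factorial_zero, Nat.cast_one, inv_one, pow_zero, one_smul, add_sub_cancel_right]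
  refine Submodule.sum_mem _ fun i _ => Submodule.smul_of_tower_mem _ _ ?_
  rw [← neg_smul, _root_.smul_pow, _root_.smul_pow, ← wd_replicate]
  exact Submodule.smul_of_tower_mem _ _ (Submodule.smul_mem _ _ (Sp_wd (by simp)))

variable {K : ℕ → A R}

theorem e_K_Sp (h : IsNilpotent θ) (hK : e_KZ (θ • b 0) (θ • b 1) K) (n : ℕ) :
    ∑ i ∈ range (n + 1), K i - 1 ∈ Sp fun w => (∀ k ∈ w, k ≤ 1) ∧ 1 ∈ w := by
  obtain ⟨k, hk⟩ := e_D_nil (e_nil h (b 0 : A R))
  induction n with
  | zero => simp [hK.1]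
  | succ n ih =>
    rw [sum_range_succ, add_sub_right_comm, e_KZ_sol hK hk]
    refine add_mem ih (Submodule.sum_mem _ fun i _ => Submodule.smul_of_tower_mem _ _ ?_)
    have b0 : (b 0 : A R) ∈ Sp fun w => w = [0] := by simpa using Sp_wd (R := R) (p := fun w => w = [0]) rfl
    have b1 : (b 1 : A R) ∈ Sp fun w => w = [1] := by simpa using Sp_wd (R := R) (p := fun w => w = [1]) rfl
    induction i with
    | zero =>
      rw [pow_zero, Module.End.one_apply, mul_smul_comm, ← sub_add_cancel (∑ _ ∈ _, _) 1, add_mul, one_mul]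
      exact Submodule.smul_mem _ _ (add_mem (Sp_mul (by grind) ih b1) (Sp_mono (by grind) b1))
    | succ i ih =>
      have := ih (by grind)
      rw [pow_succ', Module.End.mul_apply, e_D_apply, mul_smul_comm, smul_mul_assoc]
      exact sub_mem (Submodule.smul_mem _ _ (Sp_mul (by grind) this b0))
        (Submodule.smul_mem _ _ (Sp_mul (by grind) b0 this))

theorem e_K_co (h : IsNilpotent θ) (hK : e_KZ (θ • b 0) (θ • b 1) K) (n : ℕ) :
    co [0, 1] (∑ i ∈ range (n + 1), K i) = (∑ i ∈ range n, (1 / ((i : ℝ) + 1)) ^ 2) • -θ ^ 2 := by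
  induction n with
  | zero => simp [hK.1, co_one]
  | succ n ih =>
    have a0 : co [] (∑ i ∈ range (n + 1), K i) = 1 := by
      simpa [sub_eq_zero, co_one] using co_Sp (w := []) (by simp) (e_K_Sp h hK n)
    have a1 : co [0] (∑ i ∈ range (n + 1), K i) = 0 := by
      simpa [sub_eq_zero, co_one] using co_Sp (w := [0]) (by simp only [List.mem_cons, List.not_mem_nil, or_false, forall_eq, zero_le, one_ne_zero, or_self, and_false, not_false_eq_true]) (e_K_Sp h hK n)
    have e1 := congrArg (co [1]) (hK.2 (n + 1))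
    have e2 := congrArg (co [0, 1]) (hK.2 (n + 1))
    simp only [e_D_apply, map_add, map_sub, LinearMap.map_smul_of_tower, mul_smul_comm, smul_mul_assoc,
      e_co1, e_co01, a0, a1, e_co_b] at e1 e2
    have hc : ((n + 1 : ℕ) : ℝ) ≠ 0 := by positivity
    rw [sum_range_succ, map_add, ih, sum_range_succ, add_smul]
    congr 1
    refine smul_right_injective _ hc (smul_right_injective _ hc ?_)
    simp only [e2]
    simp only [Nat.cast_add, Nat.cast_one, List.cons.injEq, zero_ne_one, and_true, ↓ reduceIte, mul_zero, List.cons_ne_self, add_zero, smul_eq_mul, zero_mul, sub_self, mul_one, map_sum, zero_add, List.ne_cons_self, and_false, one_mul, zero_sub, smul_neg, one_div, inv_pow, neg_inj] at e1 ⊢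
    rw [← mul_smul_comm, e1, smul_smul, smul_smul]
    field_simp
    simp [sq]

variable {R' : Type} [CommRing R'] [Algebra R R'] [Algebra ℝ R'] [IsScalarTower ℝ R R']

theorem e_Th_K (ξ : R') (h : IsNilpotent θ) (hK : e_KZ (θ • b 0) (θ • b 1) K) (n : ℕ) :
    Grp (Th ξ (∑ i ∈ range (n + 1), K i)) := by
  induction n with
  | zero =>
    have : Th ξ (1 : A R) = 1 := lin_wd _ []
    simp [hK.1, Grp, this, Algebra.TensorProduct.one_def]
  | succ n ih =>
    have h' : IsNilpotent (algebraMap R R' θ) := h.map _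
    obtain ⟨y, hy⟩ : ∃ y, y * (algebraMap ℝ R' (n + 1 : ℕ) + algebraMap R R' θ * ξ) = 1 :=
      (((Commute.all _ _).isNilpotent_mul_right h').isUnit_add_left_of_commute
        ((IsUnit.mk0 _ (by positivity)).map _) (Commute.all _ _)).exists_left_inv
    obtain ⟨M, hM⟩ : IsNilpotent (y * algebraMap R R' θ) := (Commute.all _ _).isNilpotent_mul_left h'
    set s := y * algebraMap R R' θ
    set H := Th ξ (∑ i ∈ range (n + 1), K i)
    have e : ∀ m, Th ξ (K (n + 1) * b 0 ^ m) = s • Th ξ (K (n + 1) * b 0 ^ (m + 1)) + s • (b (m + 1) * H) :=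
      fun m => by
        have := congrArg (fun x => Th ξ (x * b 0 ^ m)) (hK.2 (n + 1))
        simp only [e_D_apply, add_mul, sub_mul, smul_mul_assoc, mul_smul_comm, map_add, map_sub,
          LinearMap.map_smul_of_tower, e_Th_right, mul_assoc (b 0), e_Th_left, mul_assoc (K _),
          ← pow_succ'] at this
        rw [← one_smul R' (Th ξ (K (n + 1) * b 0 ^ m)), ← hy, mul_smul, add_smul, algebraMap_smul, this]
        simp only [s, H, mul_smul, algebraMap_smul, ← smul_add y]
        congr 1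
        abel
    have e' : ∀ k, Th ξ (K (n + 1)) = (∑ j ∈ range k, s ^ (j + 1) • bb (j + 1)) * H +
        s ^ k • Th ξ (K (n + 1) * b 0 ^ k) := fun k => by
      induction k with
      | zero => simp
      | succ k ih =>
        rw [ih, e, sum_range_succ, add_mul, smul_add, smul_smul, smul_smul, ← pow_succ, smul_mul_assoc, bb_succ]
        abel
    have := (e_grp_B (M := M + 1) (by rw [pow_succ, hM, zero_mul])).mul ih
    rw [sum_range_succ, map_add, e' M, hM, zero_smul, add_zero, add_comm]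
    rwa [sum_range_succ', pow_zero, one_smul, bb_zero, add_mul, one_mul] at this

theorem e_Th_exp (ξ : R') (h : IsNilpotent θ) (c : ℝ) (x : A R) : Th ξ (x * e_exp (c • -(θ • b 1))) =
    e_exp (c • -(algebraMap R R' θ • b 1)) * Th ξ x := by
  obtain ⟨k, hk⟩ := h
  have e : ∀ i : ℕ, Th ξ (x * b 1 ^ i) = b 1 ^ i * Th ξ x := fun i => by
    induction i with
    | zero => simp
    | succ i ih =>
      rw [pow_succ, pow_succ', mul_assoc, ← ih, ← mul_assoc, ← e_Th_right, pow_zero, mul_one]
  rw [e_exp_eq (k := k) (by rw [← neg_smul, _root_.smul_pow, _root_.smul_pow, neg_pow, hk]; simp only [mul_zero, zero_smul, smul_zero]),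
    e_exp_eq (k := k) (by rw [← neg_smul, _root_.smul_pow, _root_.smul_pow, neg_pow, ← map_pow, hk]; simp only [map_zero, mul_zero, zero_smul, smul_zero]),
    mul_sum, sum_mul, map_sum]
  refine sum_congr rfl fun i _ => ?_
  simp only [← neg_smul, _root_.smul_pow, mul_smul_comm, smul_mul_assoc, LinearMap.map_smul_of_tower, e]
  rw [← map_neg, ← map_pow, algebraMap_smul]

end

def e_p (w : List ℕ) : Prop := (∀ k ∈ w, k ≤ 1) ∧ (w = [] ∨ 1 ∈ w)

theorem e_pm (u v : List ℕ) (hu : e_p u) (hv : e_p v) : e_p (u ++ v) := by grind [e_p]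

theorem e_p1 (w : List ℕ) (h : (∀ k ∈ w, k = 1) ∧ w ≠ []) : e_p w := by
  cases w <;> simp_all [e_p]
  grind

theorem eds (R : Type) [CommRing R] [Algebra ℝ R] (θ : R) (N : ℕ) (hθ : θ ^ N = 0) :
    ∃ (Y : A R) (γ : R[X]), Y ∈ B01 ∧ Grp Y ∧ co [] Y = 1 ∧ co [0] Y = 0 ∧ (∃ y, Y = 1 + θ • y) ∧
      (∃ g, γ = 1 + θ • g) ∧
      co [0, 1] (Y * aeval (b 1) γ) = -(θ ^ 2 * algebraMap ℝ R (Real.pi ^ 2 / 6)) ∧
      ∀ (R' : Type) [CommRing R'] [Algebra R R'] [Algebra ℝ R'] [IsScalarTower ℝ R R'] (ξ : R'),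
        Grp (Th ξ (Y * aeval (b 1) γ)) := by
  have h : IsNilpotent θ := ⟨N, hθ⟩
  obtain ⟨K, hK⟩ := e_KZ_ex (e_nil h (b 0 : A R)) (θ • b 1)
  obtain ⟨F, hF⟩ := e_KZ_ex (B := R[X]) .zero (θ • X)
  obtain ⟨cK, w, lK⟩ := e_lim (e_nil h (b 0 : A R)) (h.map (algebraMap R (A R))) (Algebra.commutes θ)
    (b' := b 1) (by rwa [← Algebra.smul_def])
  obtain ⟨cF, g, lF⟩ := e_lim .zero (h.map (algebraMap R R[X])) (Algebra.commutes θ) (b' := X)
    (by rwa [← Algebra.smul_def])
  simp only [← Algebra.smul_def] at lK lF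
  obtain ⟨γ', hγ⟩ := (e_nil h g).isUnit_one_add.exists_right_inv
  have hγ' : γ' = 1 + θ • -(g * γ') := by rw [← hγ, add_mul, one_mul, smul_mul_assoc, smul_neg]; abel
  let φ : R[X] →ₐ[ℝ] A R := (aeval (b 1)).restrictScalars ℝ
  have eφ : φ (θ • X) = θ • b 1 := by simp only [φ, AlgHom.coe_restrictScalars', map_smul, aeval_X]
  have eY : (1 + θ • w) * φ γ' * aeval (b 1) (1 + θ • g) = 1 + θ • w := by
    rw [mul_assoc]
    show _ * (φ γ' * φ _) = _
    rw [← map_mul, mul_comm γ', hγ, map_one, mul_one]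
  have p1 : (1 : A R) ∈ Sp e_p := Sp_wd (w := []) (by simp [e_p])
  have mY : (1 + θ • w) * φ γ' ∈ Sp e_p := by
    refine Sp_mul e_pm (e_closed ((Sp e_p).restrictScalars ℝ) (fun n => Sp_mul e_pm ?_ ?_) lK) ?_
    · simpa using add_mem (Sp_mono (fun _ hw => ⟨hw.1, .inr hw.2⟩) (e_K_Sp h hK n)) p1
    · simpa only [smul_neg, sub_add_cancel] using add_mem (Sp_mono e_p1 (e_exp_Sp h (e_H n))) p1
    · show aeval (b 1) γ' ∈ _
      rw [aeval_eq_sum_range]
      refine Submodule.sum_mem _ fun i _ => Submodule.smul_mem _ _ ?_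
      rw [← wd_replicate]
      exact Sp_wd (by cases i <;> simp only [e_p, List.replicate_zero, List.not_mem_nil, IsEmpty.forall_iff, implies_true, or_false, and_self, List.replicate_succ, List.mem_cons, List.mem_replicate, ne_eq, forall_eq_or_imp, Std.le_refl, and_imp, forall_eq_apply_imp_iff, reduceCtorEq, and_true, true_or, or_true])
  have gY : Grp ((1 + θ • w) * φ γ') := by
    have lF' := e_map φ.toLinearMap lF
    simp only [AlgHom.toLinearMap_apply, map_sub, map_mul, map_sum,
      e_exp_map ((e_nil h X).neg.smul _) φ, map_smul, map_neg, eφ] at lF'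
    have := e_grp ((cop (0 : R)).restrictScalars ℝ) Algebra.TensorProduct.includeLeft
      (Algebra.TensorProduct.includeRight.restrictScalars ℝ) (by simp) (e_nil h (b 0)) (e_nil h (b 1))
      (by simp [show cop (0 : R) (b 0) = _ from prim_b0, smul_tmul'])
      (by simp only [AlgHom.coe_restrictScalars', map_smul, show cop (0 : R) (b 1) = _ from prim_b1, smul_add, smul_tmul', Algebra.TensorProduct.includeLeft_apply, Algebra.TensorProduct.includeRight_apply]) hK
      (by simpa only [AlgHom.toLinearMap_apply, map_zero, eφ] using e_KZ_map hF φ) cK (e_map φ.toLinearMap cF)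
      (Y := (1 + θ • w) * φ γ') (γ' := φ γ') (by rw [← map_mul, hγ, map_one])
      (by rw [show φ (1 + θ • g) = aeval (b 1) (1 + θ • g) from rfl, eY]; exact lK) lF'
    simpa [Grp] using this
  have fY : (1 + θ • w) * φ γ' = 1 + θ • (w + (1 + θ • w) * aeval (b 1) (-(g * γ'))) := by
    rw [show φ γ' = aeval (b 1) γ' from rfl]
    nth_rw 1 [hγ']
    rw [map_add, map_one, map_smul, mul_add, mul_one, mul_smul_comm, smul_add, add_assoc]
  refine ⟨_, 1 + θ • g, Sp_mono (fun _ h => h.1) mY, gY, ?_, co_Sp (by simp only [e_p, List.mem_cons, List.not_mem_nil, or_false, forall_eq, zero_le, List.cons_ne_self, one_ne_zero, or_self, and_false, not_false_eq_true]) mY, ⟨_, fY⟩, ⟨g, rfl⟩,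
    ?_, fun R' _ _ _ _ ξ => ?_⟩
  · have e := pr_st 0 [] [] ((1 + θ • w) * φ γ')
    rw [gY, co2_tmul, st_nil, pr_wd'] at e
    refine (IsUnit.mul_right_inj ?_).1 (e.symm.trans (mul_one _).symm)
    rw [fY, map_add, map_smul, co_one, if_pos rfl]
    exact (e_nil h _).isUnit_one_add
  · have z : ∑' i : ℕ, (1 / ((i : ℝ) + 1)) ^ 2 = Real.pi ^ 2 / 6 := by
      have := (hasSum_nat_add_iff' 1).2 hasSum_zeta_two
      simpa only [one_div, inv_pow, Nat.cast_add, Nat.cast_one, range_one, sum_singleton, CharP.cast_eq_zero, ne_eq, OfNat.ofNat_ne_zero, not_false_eq_true, zero_pow, inv_zero, sub_zero] using this.tsum_eq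
    have a1 := e_map ((co [0, 1]).restrictScalars ℝ) lK
    have a2 := e_gen (e_Sc_tail (e_Sc_pow 2)).2 (-θ ^ 2)
    rw [eY, ← sub_eq_zero]
    refine e_uniq ?_
    convert sub_mem a2 a1 using 2 with n
    have b1 := co_Sp (w := []) (by simp) (e_exp_Sp h (e_H n))
    have b2 := co_Sp (w := [0, 1]) (by simp) (e_exp_Sp h (e_H n))
    have b3 := co_Sp (w := [0]) (by simp) (e_K_Sp h hK n)
    simp only [map_sub, co_one, sub_eq_zero, if_true, List.cons_ne_nil, if_false] at b1 b2 b3
    simp only [Pi.sub_apply, LinearMap.restrictScalars_apply, map_sub, e_co01, b1, b2, b3, e_K_co h hK, z]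
    simp only [Algebra.smul_def, map_sub]
    ring
  · have a1 := e_map ((Th ξ).restrictScalars ℝ) lK
    simp only [LinearMap.restrictScalars_apply, map_sub] at a1
    have := e_grp_lim ((cop (0 : R')).restrictScalars ℝ).toLinearMap
      (Algebra.TensorProduct.includeLeft : A R' →ₐ[ℝ] A R' ⊗[R'] A R').toLinearMap
      (Algebra.TensorProduct.includeRight.restrictScalars ℝ).toLinearMap (fun n => by
        have := (e_grp_exp (h.map (algebraMap R R')) (e_H n)).mul (e_Th_K ξ h hK n)
        rw [← e_Th_exp ξ h] at this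
        simpa only [AlgHom.toLinearMap_restrictScalars, smul_neg, LinearMap.coe_restrictScalars, AlgHom.toLinearMap_apply, Algebra.TensorProduct.toLinearMap_includeLeft, LinearMap.flip_apply, AlgebraTensorModule.mk_apply, LinearMap.coe_mk, AddHom.coe_mk, Algebra.TensorProduct.toLinearMap_includeRight, Algebra.TensorProduct.tmul_mul_tmul, mul_one, one_mul, Grp] using this) a1
    rw [eY]
    simpa [Grp] using this

end Pool.Agent.MP_08482e_nt.H68

end

-- part MP_08482e_nt.H68.Conn
section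

/-! The group-like series that compares the two quasi-shuffle products: residues of Laurent
polynomials, the Riccati equation, and the coefficients of the generating series. -/

namespace Pool.Agent.MP_08482e_nt.H68

open Polynomial TensorProduct LaurentPolynomial Finset

noncomputable section

variable {R : Type} [CommRing R]

section

/-- The coefficient of `T n`. -/
def c_cf (n : ℤ) : R[T;T⁻¹] →ₗ[R] R := (AddMonoidAlgebra.basis ℤ R).coord n

theorem c_cf_apply (n : ℤ) (F : R[T;T⁻¹]) : c_cf n F = F.coeff n := rfl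

theorem c_ext {V : Type} [AddCommGroup V] [Module R V] {f g : R[T;T⁻¹] →ₗ[R] V}
    (h : ∀ n, f (T n) = g (T n)) (x : R[T;T⁻¹]) : f x = g x := by
  rw [(AddMonoidAlgebra.basis ℤ R).ext (f₁ := f) (f₂ := g) fun n => by
    rw [AddMonoidAlgebra.basis_apply]; exact h n]

@[simp] theorem c_cf_T (n m : ℤ) : c_cf n (T m : R[T;T⁻¹]) = if m = n then 1 else 0 := T_apply _ _

theorem c_cf_mulT (n m : ℤ) (F : R[T;T⁻¹]) : c_cf n (F * T m) = c_cf (n - m) F :=
  c_ext (f := c_cf n ∘ₗ LinearMap.mulRight R (T m)) (fun k => by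
    rw [LinearMap.comp_apply, LinearMap.mulRight_apply, ← T_add, c_cf_T, c_cf_T]
    exact if_congr eq_sub_iff_add_eq.symm rfl rfl) F

theorem c_aevT (p : R[X]) : aeval (T 1 : R[T;T⁻¹]) p = toLaurent p := by
  rw [← toLaurentAlg_apply, ← toLaurent_X, ← toLaurentAlg_apply, aeval_algHom_apply,
    aeval_X_left_apply]

theorem c_cf_toL (n : ℤ) (p : R[X]) :
    c_cf n (toLaurent p) = if 0 ≤ n then p.coeff n.toNat else 0 := by
  induction p using Polynomial.induction_on' with
  | add p q hp hq => rw [map_add, map_add, hp, hq]; split_ifs <;> simp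
  | monomial k a =>
    rw [toLaurent_C_mul_T, ← LaurentPolynomial.smul_eq_C_mul, map_smul, c_cf_T, coeff_monomial]
    split_ifs <;> first | omega | simp

@[simp] theorem c_cf_nat (n : ℕ) (p : R[X]) : c_cf n (toLaurent p) = p.coeff n := by
  simp [c_cf_toL]

@[simp] theorem c_cf_neg (n : ℕ) (p : R[X]) : c_cf (-(n + 1)) (toLaurent p) = 0 := by
  rw [c_cf_toL, if_neg (by omega)]

theorem c_poly {G : R[T;T⁻¹]} (h : ∀ n : ℕ, c_cf (-(n + 1)) G = 0) : ∃ g, toLaurent g = G := by
  refine ⟨LaurentPolynomial.trunc G, LaurentPolynomial.ext fun n => ?_⟩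
  rw [← c_cf_apply, ← c_cf_apply]
  rcases n with n | n
  · exact c_cf_nat n _
  · exact (c_cf_neg n _).trans (h n).symm

def c_dl : R[T;T⁻¹] →ₗ[R] R[T;T⁻¹] :=
  (AddMonoidAlgebra.basis ℤ R).constr R fun n => (n : R) • T (n - 1)

theorem c_dl_T (n : ℤ) : c_dl (T n : R[T;T⁻¹]) = (n : R) • T (n - 1) := by
  have := (AddMonoidAlgebra.basis ℤ R).constr_basis R (fun n => ((n : R) • T (n - 1) : R[T;T⁻¹])) n
  rwa [AddMonoidAlgebra.basis_apply] at this

/-- The derivative. -/
def c_d : Derivation R R[T;T⁻¹] R[T;T⁻¹] := Derivation.mk' c_dl fun x y => by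
  refine c_ext (f := c_dl ∘ₗ LinearMap.mulRight R y)
    (g := LinearMap.mulRight R (c_dl y) + LinearMap.mulLeft R y ∘ₗ c_dl) (fun m => ?_) x
  refine c_ext (f := c_dl ∘ₗ LinearMap.mulLeft R (T m))
    (g := LinearMap.mulLeft R (T m) ∘ₗ c_dl + LinearMap.mulRight R (c_dl (T m))) (fun n => ?_) y
  simp only [LinearMap.comp_apply, LinearMap.add_apply, LinearMap.mulLeft_apply,
    LinearMap.mulRight_apply, ← T_add, c_dl_T, mul_smul_comm]
  rw [show m + (n - 1) = m + n - 1 by ring, show n + (m - 1) = m + n - 1 by ring, ← add_smul]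
  push_cast; rw [add_comm]

theorem c_d_T (n : ℤ) : c_d (T n : R[T;T⁻¹]) = (n : R) • T (n - 1) := c_dl_T n

theorem c_d_toL (p : R[X]) : c_d (toLaurent p) = toLaurent (derivative p) := by
  rw [← c_aevT, Derivation.map_aeval, c_d_T, c_aevT]; simp

theorem c_inj {S p : R[X]} (h : aeval (T (-1) + toLaurent S) p = 0) : p = 0 := by
  have e : ∀ k : ℕ, (T (-1) + toLaurent S) ^ k = toLaurent ((1 + X * S) ^ k) * T (-k) := fun k => by
    have : T (-1) + toLaurent S = toLaurent (1 + X * S) * T (-1) := by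
      rw [map_add, map_one, map_mul, toLaurent_X, add_mul, mul_comm (T 1), mul_T_assoc]; simp
    rw [this, mul_pow, T_pow, map_pow]; simp
  have := congrArg (c_cf (-p.natDegree)) h
  rw [aeval_eq_sum_range, map_sum, sum_range_succ, sum_eq_zero fun k hk => ?_] at this
  · rw [map_smul, e, c_cf_mulT, sub_self, c_cf_toL] at this
    simpa [coeff_zero_eq_eval_zero] using this
  · have := mem_range.1 hk
    rw [map_smul, e, c_cf_mulT, c_cf_toL, if_neg (by omega), smul_zero]

/-- The functions with one pole of order `k + 1`. -/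
def c_c (P : ℕ → R[X]) (k : ℕ) : R[T;T⁻¹] := T (-(k + 1)) + toLaurent (P k)

theorem c_res (P : ℕ → R[X]) (k : ℕ) (g : R[X]) : c_cf (-1) (toLaurent g * c_c P k) = g.coeff k := by
  rw [c_c, mul_add, map_add, c_cf_mulT, ← map_mul, c_cf_toL, c_cf_toL]
  simp only [Int.reduceNeg, neg_add_rev, sub_add_cancel_left, neg_neg, Nat.cast_nonneg, ↓ reduceIte, Int.toNat_natCast, Int.neg_nonneg, Int.reduceLE, add_zero]

theorem c_dec {P : ℕ → R[X]} (hc : ∀ n k, c_cf (-1) (c_c P n * c_c P k) = 0) {F : R[T;T⁻¹]} {e : R}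
    (hF : ∀ k, c_cf (-1) (F * c_c P k) = if k = 0 then e else 0) {M : ℕ}
    (hM : ∀ n, M ≤ n → c_cf (-(n + 1)) F = 0) :
    F = toLaurent (Polynomial.C e) + ∑ n ∈ range M, c_cf (-(n + 1)) F • c_c P n := by
  obtain ⟨g, hg⟩ := c_poly (G := F - ∑ n ∈ range M, c_cf (-(n + 1)) F • c_c P n) fun j => by
    simp only [map_sub, map_sum, map_smul, c_c, map_add, c_cf_neg, c_cf_T, add_zero, neg_inj,
      add_left_inj, Nat.cast_inj, smul_eq_mul, mul_ite, mul_one, mul_zero, sum_ite_eq', mem_range]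
    split_ifs with h
    · exact sub_self _
    · rw [hM j (by omega), sub_self]
  have : g = Polynomial.C e := Polynomial.ext fun k => by
    rw [← c_res P, hg, sub_mul, map_sub, hF, sum_mul, map_sum, coeff_C]
    simp [hc]
  rw [← this, hg, sub_add_cancel]

theorem c_d_c {P : ℕ → R[X]} (hP : ∀ k, derivative (P k) = -((k + 1 : R) • P (k + 1))) (k : ℕ) :
    c_d (c_c P k) = -((k + 1 : R) • c_c P (k + 1)) := by
  rw [c_c, c_c, map_add, c_d_T, c_d_toL, hP, map_neg, ← toLaurentAlg_apply, map_smul,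
    toLaurentAlg_apply, smul_add, neg_add (_ • _), ← neg_smul _ (T _),
    show -((k : ℤ) + 1) - 1 = -((k + 1 : ℕ) + 1) by push_cast; ring]
  push_cast
  rw [neg_add_rev]

theorem c_ric {P : ℕ → R[X]} (hP : ∀ k, derivative (P k) = -((k + 1 : R) • P (k + 1)))
    (hc : ∀ n k, c_cf (-1) (c_c P n * c_c P k) = 0)
    (h3 : ∀ k, c_cf (-1) (c_c P 0 * c_c P 0 * c_c P (k + 1)) = 0) (h0 : (P 0).coeff 0 = 0) :
    c_c P 0 * c_c P 0 - c_c P 1 = toLaurent (Polynomial.C (3 * (P 0).coeff 1)) := by
  obtain ⟨p, hp⟩ := X_dvd_iff.2 h0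
  have e : c_c P 0 * c_c P 0 - c_c P 1 = toLaurent (2 * p + P 0 * P 0 - P 1) := by
    have a : (T (-1) : R[T;T⁻¹]) * T 1 = 1 := (T_add _ _).symm
    have a' : (T (-1) : R[T;T⁻¹]) * T (-1) = T (-(1 + 1)) := (T_add _ _).symm
    simp only [c_c, hp, map_sub, map_add, map_mul, toLaurent_X, map_ofNat, Nat.cast_zero, zero_add,
      Nat.cast_one]
    linear_combination a' + 2 * toLaurent p * a
  rw [e]
  congr 1
  ext k
  cases k with
  | zero =>
    have := congrArg (coeff · 0) (hP 0)
    simp only [hp, coeff_derivative] at this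
    simp only [zero_add, coeff_X_mul, Nat.cast_zero, mul_one, one_smul, coeff_neg, hp, coeff_sub, coeff_add, coeff_ofNat_mul, mul_coeff_zero, coeff_X_zero, zero_mul, mul_zero, add_zero, map_mul, coeff_C_zero] at this ⊢
    linear_combination -this
  | succ k => rw [← c_res P, ← e, sub_mul, map_sub, h3, hc]; simp

variable [Algebra ℚ R]

theorem c_cancel {V : Type} [AddCommGroup V] [Module R V] (n : ℕ) {x y : V}
    (h : (n + 1 : R) • x = (n + 1 : R) • y) : x = y := by
  have : IsUnit (n + 1 : R) := by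
    simpa using (IsUnit.mk0 (n + 1 : ℚ) (by positivity)).map (algebraMap ℚ R)
  exact this.smul_left_cancel.1 h

theorem c_xi {h : R} {N : ℕ} (hN : h ^ N = 0) :
    derivative (xi h N) = 1 + Polynomial.C h * xi h N := by
  have e := sum_range_succ'
    (fun i => Polynomial.C (h ^ i * algebraMap ℚ R (Nat.factorial i : ℚ)⁻¹) * X ^ i) N
  rw [sum_range_succ, hN] at e
  simp only [zero_mul, map_zero, add_zero, pow_zero, Nat.factorial_zero, Nat.cast_one, inv_one,
    map_one, mul_one] at e
  rw [xi, derivative_sum, mul_sum, add_comm]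
  refine (sum_congr rfl fun i _ => ?_).trans (e.trans (congrArg (· + 1) (sum_congr rfl fun i _ => ?_)))
  · rw [derivative_C_mul_X_pow, Nat.add_sub_cancel, mul_assoc, ← map_natCast (algebraMap ℚ R),
      ← map_mul, Nat.factorial_succ]
    congr 4
    have : (Nat.factorial i : ℚ) ≠ 0 := by positivity
    push_cast; field_simp
  · rw [← mul_assoc, ← map_mul, pow_succ', mul_assoc]

theorem c_al {h : R} {N : ℕ} (hN : h ^ N = 0) (k : ℕ) : derivative (al h N k) =
    Polynomial.C (h * (k + 1)) * al h N k + Polynomial.C (k : R) * al h N (k - 1) := by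
  cases k with
  | zero => simp only [al, pow_zero, mul_one, derivative_add, derivative_one, derivative_mul, derivative_C, zero_mul, c_xi hN, zero_add, Nat.cast_zero, map_zero, zero_tsub, add_zero]
  | succ k =>
    simp only [al, derivative_mul, derivative_one, derivative_C, c_xi hN,
      derivative_pow_succ, Nat.add_sub_cancel, map_mul, map_add, map_natCast, map_one, Nat.cast_add,
      Nat.cast_one]
    ring

def c_Q (η h : R) : ℕ → R[X]
  | 0 => X + Polynomial.C η
  | n + 1 => algebraMap ℚ R (n + 1 : ℚ)⁻¹ • (X * ((X + Polynomial.C h) * derivative (c_Q η h n)))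

theorem c_Q_succ (η h : R) (n : ℕ) :
    (n + 1 : R) • c_Q η h (n + 1) = X * ((X + Polynomial.C h) * derivative (c_Q η h n)) := by
  have : (n + 1 : R) * algebraMap ℚ R (n + 1 : ℚ)⁻¹ = 1 := by
    simpa only [map_mul, map_add, map_natCast, map_one] using congrArg (algebraMap ℚ R) (mul_inv_cancel₀ (by positivity : (n + 1 : ℚ) ≠ 0))
  rw [c_Q, smul_smul, this, one_smul]

theorem c_Q_zero (η h : R) (n : ℕ) : (c_Q η h n).coeff 0 = if n = 0 then η else 0 := by
  cases n <;> simp only [c_Q, coeff_add, coeff_X_zero, coeff_C_zero, zero_add, ↓ reduceIte, algebraMap_smul, coeff_smul, mul_coeff_zero, zero_mul, smul_zero, Nat.add_eq_zero_iff, one_ne_zero, and_false]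

theorem c_Q_coeff (η : R) {h : R} {N : ℕ} (hN : h ^ N = 0) (n k : ℕ) :
    (c_Q η h n).coeff (k + 1) = (al h N k).coeff n := by
  induction n generalizing k with
  | zero =>
    have : (xi h N).eval 0 = 0 := by
      rw [xi, eval_finsetSum]
      exact sum_eq_zero fun i _ => by rw [eval_mul, eval_pow, eval_X, zero_pow i.succ_ne_zero, mul_zero]
    cases k <;> simp [c_Q, al, coeff_zero_eq_eval_zero, this, coeff_X]
  | succ n ih =>
    refine c_cancel (R := R) n ?_
    have e := congrArg (coeff · n) (c_al hN k)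
    simp only [coeff_derivative, coeff_add, coeff_C_mul] at e
    rw [← coeff_smul, c_Q_succ, coeff_X_mul, add_mul, coeff_add, coeff_C_mul, coeff_derivative, ih,
      smul_eq_mul]
    cases k with
    | zero => simp only [Nat.cast_zero, zero_add, mul_one, zero_tsub, zero_mul, add_zero, mul_coeff_zero, coeff_X_zero] at e ⊢; linear_combination -e
    | succ k =>
      rw [coeff_X_mul, coeff_derivative, ih]
      simp only [Nat.add_sub_cancel] at e
      push_cast at e ⊢
      linear_combination -e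

theorem c_Q_aev {P : ℕ → R[X]} (hP : ∀ k, derivative (P k) = -((k + 1 : R) • P (k + 1))) {η : R}
    (hr : c_c P 0 * c_c P 0 - c_c P 1 = toLaurent (Polynomial.C (η ^ 2))) (n : ℕ) :
    aeval (T (-1) + toLaurent (P 0 - Polynomial.C η)) (c_Q η (2 * η) n) = c_c P n := by
  set s := T (-1) + toLaurent (P 0 - Polynomial.C η) with hs
  have e : c_c P 0 = s + toLaurent (Polynomial.C η) := by simp [hs, c_c, add_assoc]
  have d : c_d s = -(s * (s + toLaurent (Polynomial.C (2 * η)))) := by
    have := c_d_c hP 0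
    rw [e, map_add, c_d_toL] at this
    rw [e] at hr
    simp only [derivative_C, map_zero, add_zero, Nat.cast_zero, zero_add, one_smul, map_mul, map_pow,
      map_ofNat] at this hr ⊢
    linear_combination this + hr
  induction n with
  | zero => simp [c_Q, e, LaurentPolynomial.algebraMap_apply]
  | succ n ih =>
    refine c_cancel (R := R) n ?_
    have := c_d_c hP n
    rw [← ih, Derivation.map_aeval, d] at this
    rw [← map_smul, c_Q_succ]
    simp only [map_mul, map_add, aeval_X, aeval_C, LaurentPolynomial.algebraMap_apply,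
      Algebra.algebraMap_self, RingHom.id_apply, toLaurent_C, smul_eq_mul] at this ⊢
    linear_combination -this

end

theorem c_ind {q : List ℕ → Prop} {p : A R → Prop} (hw : ∀ w, q w → p (wd w)) (h0 : p 0)
    (ha : ∀ x y, p x → p y → p (x + y)) (hs : ∀ (r : R) x, p x → p (r • x)) {x : A R}
    (hx : x ∈ Sp q) : p x := by
  induction hx using Submodule.span_induction with
  | mem x h => obtain ⟨w, h, rfl⟩ := h; exact hw w h
  | zero => exact h0
  | add x y _ _ a c => exact ha x y a c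
  | smul r x _ a => exact hs r x a

theorem c_mid {f : List ℕ → ℕ} (hf : ∀ u v, f (u ++ v) = f u + f v) {k : ℕ} {z : A R}
    (hz : z ∈ Sp fun w => k ≤ f w) (x y : A R) : x * z * y ∈ Sp fun w => k ≤ f w :=
  Sp_mul (p := fun w => k ≤ f w) (fun u v h _ => by rw [hf]; omega)
    (Sp_mul (fun u v _ h => by rw [hf]; omega) (Sp_top x) hz) (Sp_top y)

theorem c_co_b (w : List ℕ) (k : ℕ) : co w (b k : A R) = if w = [k] then 1 else 0 := by
  simpa [eq_comm] using co_wd (R := R) w [k]

theorem c_bb_zero {w : List ℕ} {k : ℕ} (h : w.sum < k) (x y : A R) : co w (x * bb k * y) = 0 := by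
  obtain ⟨k, rfl⟩ := Nat.exists_eq_succ_of_ne_zero (by omega : k ≠ 0)
  refine co_Sp (p := fun w => k + 1 ≤ w.sum) (not_le.2 h)
    (c_mid (f := List.sum) (fun _ _ => List.sum_append) ?_ x y)
  simpa using Sp_wd (R := R) (p := fun w => k + 1 ≤ w.sum) (w := [k + 1]) (by simp)

theorem c_tl_sum (w : List ℕ) (i : ℕ) : (tl w i).sum = w.length + i + 1 := by
  induction w generalizing i with
  | nil => simp [tl]
  | cons k w ih => cases k <;> simp [tl, ih] <;> omega

theorem c_TH_zero {w : List ℕ} {n : ℕ} (h : w.sum ≤ n) (x y : A R) :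
    co w (TH (x * b 0 ^ n * y)) = 0 := by
  refine co_Sp (p := fun w => n + 1 ≤ w.sum) (by omega) (Sp_map TH _ (fun v hv => ?_)
    (c_mid (f := List.length) (k := n) (fun _ _ => List.length_append) ?_ x y))
  · rw [TH_wd]; exact Sp_wd (by rw [c_tl_sum]; omega)
  · rw [← wd_replicate]; exact Sp_wd (by simp)

theorem c_co_one (k : ℕ) (x y : A R) :
    co [k] (x * y) = co [k] x * co [] y + co [] x * co [k] y := by
  refine c_ind (p := fun x => co [k] (x * y) = co [k] x * co [] y + co [] x * co [k] y)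
    (fun w _ => ?_) (by simp) (fun x z a c => ?_) (fun r x a => ?_) (Sp_top x)
  · cases w <;> simp [co_one, mul_assoc, co_nil_mul, c_co_b]
  · simp only [add_mul, map_add, a, c]; ring
  · simp only [smul_mul_assoc, map_smul, a, smul_eq_mul]; ring

/-- The anti-automorphism that multiplies the letter `k` by `(-1) ^ k`. -/
def c_io : Module.End R (A R) := lin fun w => (-1 : R) ^ w.sum • wd w.reverse

theorem c_io_wd (w : List ℕ) : c_io (wd w : A R) = (-1 : R) ^ w.sum • wd w.reverse := lin_wd _ _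

theorem c_io_mul (x y : A R) : c_io (x * y) = c_io y * c_io x := by
  refine lin_ext' (f := c_io ∘ₗ LinearMap.mulRight R y) (g := LinearMap.mulLeft R (c_io y) ∘ₗ c_io)
    (fun u => ?_) x
  refine lin_ext' (f := c_io ∘ₗ LinearMap.mulLeft R (wd u))
    (g := LinearMap.mulRight R (c_io (wd u)) ∘ₗ c_io) (fun v => ?_) y
  simp only [LinearMap.comp_apply, LinearMap.mulLeft_apply, LinearMap.mulRight_apply, ← wd_append,
    c_io_wd]
  simp only [List.sum_append, pow_add, List.reverse_append, wd_append, Algebra.mul_smul_comm, Algebra.smul_mul_assoc, smul_smul]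

@[simp] theorem c_io_one : c_io (1 : A R) = 1 := by simpa only [wd_nil, List.sum_nil, pow_zero, List.reverse_nil, one_smul] using c_io_wd (R := R) []

@[simp] theorem c_io_b (k : ℕ) : c_io (b k : A R) = (-1 : R) ^ k • b k := by
  simpa only [wd_cons, wd_nil, mul_one, List.sum_cons, List.sum_nil, add_zero, List.reverse_cons, List.reverse_nil, List.nil_append] using c_io_wd (R := R) [k]

theorem c_io_co {w : List ℕ} (h : w.reverse = w) (x : A R) :
    co w (c_io x) = (-1) ^ w.sum * co w x :=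
  lin_ext' (f := co w ∘ₗ c_io) (g := (-1 : R) ^ w.sum • co w) (fun v => by
    simp only [LinearMap.comp_apply, c_io_wd, map_smul, co_wd, LinearMap.smul_apply,
      List.reverse_eq_iff, h]
    split_ifs with e <;> simp only [e, smul_eq_mul, mul_one, mul_zero]) x

theorem c_io_grp {x : A R} (hx : Grp x) : Grp (c_io x) := by
  have m : ∀ z z' : A R ⊗[R] A R, TensorProduct.map c_io c_io (z * z') =
      TensorProduct.map c_io c_io z' * TensorProduct.map c_io c_io z := fun z z' => by
    induction z with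
    | zero => simp
    | add x y a c => simp only [add_mul, mul_add, map_add, a, c]
    | tmul x y =>
      induction z' with
      | zero => simp
      | add x y a c => simp only [add_mul, mul_add, map_add, a, c]
      | tmul x y => simp [c_io_mul]
  have := lin_ext' (f := (cop 0).toLinearMap ∘ₗ c_io)
    (g := TensorProduct.map c_io c_io ∘ₗ (cop (0 : R)).toLinearMap) (fun w => by
      simp only [LinearMap.comp_apply, AlgHom.toLinearMap_apply]
      induction w with
      | nil => simp [Algebra.TensorProduct.one_def]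
      | cons k w ih =>
        rw [wd_cons, c_io_mul, map_mul, map_mul, m, ih, c_io_b, map_smul, cop_b]
        congr 1
        simp only [map_add, map_sum, map_smul, map_tmul, c_io_b, c_io_one, smul_add, smul_sum,
          smul_tmul', tmul_smul]
        congr 1
        refine sum_congr rfl fun p hp => ?_
        rw [← mem_antidiagonal.1 hp]
        simp only [smul_smul, pow_add]
        congr 2; ring) x
  simp only [LinearMap.comp_apply, AlgHom.toLinearMap_apply] at this
  rw [Grp, this, hx, map_tmul]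

theorem c_TH_ap {v : List ℕ} (hv : ∀ k ∈ v, k ≤ 1) (r : ℕ) :
    TH (ap (wd v : A R) * b 0 ^ r) = (-1 : R) ^ (r + 1) • c_io (wd (tl v r)) := by
  induction v generalizing r with
  | nil => simp only [wd_nil, ap_one, one_mul, TH_pow, tl, wd_cons, mul_one, c_io_b, smul_smul, ← mul_pow, mul_neg, neg_neg, one_pow, one_smul]
  | cons k v ih =>
    simp only [List.mem_cons, forall_eq_or_imp] at hv
    obtain rfl | rfl : k = 0 ∨ k = 1 := by omega
    · rw [wd_cons, ap_mul, ap_b, mul_neg, neg_mul, mul_assoc, ← pow_succ', map_neg, ih hv.2, tl,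
        pow_succ _ (r + 1)]
      simp only [mul_neg, mul_one, neg_smul, neg_neg]
    · have := ih hv.2 0
      rw [pow_zero, mul_one] at this
      rw [wd_cons, ap_mul, ap_b, mul_neg, neg_mul, mul_assoc, map_neg, TH_mul _ (W_b 0 _), T0_b, this,
        TH_pow, tl]
      simp only [pow_zero, mul_one, zero_add, pow_one, neg_smul, one_smul, mul_neg, neg_neg, List.replicate_zero, List.append_nil, wd_append, wd_cons, wd_nil, c_io_mul, c_io_b, Algebra.smul_mul_assoc, smul_smul, ← mul_pow, one_pow]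

theorem c_aev_r {f : A R →ₗ[R] A R} {a a' : A R} (hf : ∀ x, f (x * a) = a' * f x) (p : R[X])
    (x : A R) : f (x * aeval a p) = aeval a' p * f x := by
  induction p using Polynomial.induction_on' with
  | add p q hp hq => simp only [map_add, mul_add, add_mul, hp, hq]
  | monomial n r =>
    simp only [← smul_X_eq_monomial, map_smul, map_pow, aeval_X, mul_smul_comm, smul_mul_assoc]
    congr 1
    induction n with
    | zero => simp
    | succ n ih => rw [pow_succ, ← mul_assoc, hf, ih, pow_succ', mul_assoc]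

theorem c_TH_l (p : R[X]) (x : A R) : TH (aeval (b 1) p * x) = TH x * aeval (b 1) p := by
  have hf : ∀ x : A R, TH (b 1 * x) = TH x * b 1 := fun x =>
    lin_ext' (f := TH ∘ₗ LinearMap.mulLeft R (b 1)) (g := LinearMap.mulRight R (b 1) ∘ₗ TH)
      (fun w => by simp only [LinearMap.coe_comp, Function.comp_apply, LinearMap.mulLeft_apply, ← wd_cons, TH_wd, tl, List.replicate_zero, List.append_nil, zero_add, wd_append, LinearMap.mulRight_apply]; simp) x
  induction p using Polynomial.induction_on' with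
  | add p q hp hq => simp only [map_add, mul_add, add_mul, hp, hq]
  | monomial n r =>
    simp only [← smul_X_eq_monomial, map_smul, map_pow, aeval_X, mul_smul_comm, smul_mul_assoc]
    congr 1
    induction n with
    | zero => simp
    | succ n ih => rw [pow_succ', mul_assoc, hf, ih, mul_assoc, ← pow_succ, pow_succ']

theorem c_b1 : (b 1 : A R) ∈ WW ∧ T0 (b 1 : A R) = b 1 := by
  have := T0_b (R := R) 0 1
  have e := TH_pow (R := R) 0
  exact ⟨by simpa using W_b (R := R) 0 1, by simpa only [zero_add, mul_one, show TH (1 : A R) = b 1 by simpa only [pow_zero, zero_add] using e, pow_zero] using this⟩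

theorem c_TH_conj (γ : R[X]) (x y z : A R) :
    TH (ap (x * aeval (b 1) γ) * z * (y * aeval (b 1) γ)) =
      aeval (b 1) γ * TH (ap x * z * y) * aeval (b 1) (γ.comp (-X)) := by
  have e := c_aev_r (f := ap) (a := b 1) (a' := -b 1) (fun x => by rw [ap_mul, ap_b]) γ x
  rw [e, ← mul_assoc, c_aev_r (f := TH) (fun x => by rw [TH_mul _ c_b1.1, c_b1.2]),
    show aeval (-b 1 : A R) γ = aeval (b 1) (γ.comp (-X)) by simp only [aeval_comp, aeval_neg, aeval_X], mul_assoc _ (ap x),
    mul_assoc _ _ y, c_TH_l, mul_assoc (aeval _ γ)]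

theorem c_aev_mem (p : R[X]) : aeval (b 1 : A R) p ∈ Sp fun w => ∀ k ∈ w, k = 1 := by
  induction p using Polynomial.induction_on' with
  | add p q hp hq => rw [map_add]; exact add_mem hp hq
  | monomial n r =>
    rw [← smul_X_eq_monomial, map_smul, map_pow, aeval_X, ← wd_replicate]
    exact Submodule.smul_mem _ _ (Sp_wd fun k hk => List.eq_of_mem_replicate hk)

theorem c_co_der (w : List ℕ) (z : A R) :
    co w (der (fun k => if k = 0 then 1 else 0) z) = pr z (st 0 [0] w) := by
  refine lin_ext' (f := co w ∘ₗ der fun k => if k = 0 then 1 else 0) (g := pr.flip (st 0 [0] w))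
    (fun v => ?_) z
  simp only [LinearMap.comp_apply, LinearMap.flip_apply, pr_wd]
  induction v generalizing w with
  | nil => cases w <;> simp [st, c_co_b]
  | cons a v ih =>
    rw [wd_cons, der_mul, der_b]
    cases w with
    | nil => by_cases h : a = 0 <;> simp [h, co_wd, c_co_b]
    | cons c w =>
      simp only [st, cc, map_add, co_cons_b, ih, true_or, if_true, zero_smul, add_zero, eq_comm (a := a),
        ← wd_cons]
      by_cases h : a = 0 <;> simp only [h, ↓ reduceIte, one_mul, co_wd, eq_comm, List.cons.injEq, true_and, zero_mul, map_zero, zero_add, false_and]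

theorem c_pr_zero {Y : A R} (gY : Grp Y) (h0 : co [0] Y = 0) (γ : R[X]) (w : List ℕ) :
    pr (Y * aeval (b 1) γ) (st 0 [0] w) = 0 := by
  have e : der (fun k => if k = 0 then 1 else 0) Y = 0 :=
    co_ext fun w => by rw [c_co_der, pr_st, gY, co2_tmul, h0, zero_mul, map_zero]
  rw [← c_co_der, der_mul, e, der_zero (by rintro _ rfl; simp) (c_aev_mem γ)]
  simp

theorem c_st0 (k : ℕ) :
    (st 0 [0] (List.replicate k 0) : A R) = (k + 1 : R) • wd (List.replicate (k + 1) 0) := by
  induction k with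
  | zero => simp
  | succ k ih =>
    rw [List.replicate_succ, st, ih]
    simp only [st_nil, wd_cons, wd_replicate, pow_succ', add_smul, one_smul, mul_add, Algebra.mul_smul_comm, cc, or_self, ↓ reduceIte, add_zero, zero_smul, Nat.cast_add, Nat.cast_one]
    abel

theorem c_st01 (j k : ℕ) : (st 0 [0] (List.replicate j 0 ++ 1 :: List.replicate k 0) : A R) =
    (j + 1 : R) • wd (List.replicate (j + 1) 0 ++ 1 :: List.replicate k 0) +
      (k + 1 : R) • wd (List.replicate j 0 ++ 1 :: List.replicate (k + 1) 0) := by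
  induction j with
  | zero => simp only [List.replicate_zero, List.nil_append, st, st_nil, wd_cons, wd_replicate, c_st0, Algebra.mul_smul_comm, cc, one_ne_zero, or_false, ↓ reduceIte, zero_add, zero_smul, add_zero, Nat.cast_zero, List.replicate_one, List.cons_append, one_smul]
  | succ j ih =>
    rw [List.replicate_succ, List.cons_append, st, ih]
    simp only [st_nil, wd_cons, wd_append, wd_replicate, pow_succ', mul_assoc, add_smul, one_smul, mul_add, Algebra.mul_smul_comm, cc, or_self, ↓ reduceIte, add_zero, zero_smul, Nat.cast_add, Nat.cast_one, List.cons_append]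
    abel

theorem c_st1 (w : List ℕ) (n k : ℕ) : co (List.replicate (n + 1) 1) (st 0 w [k + 1] : A R) =
    if k = 0 then (n + 1 : R) * co (List.replicate n 1) (wd w : A R) else 0 := by
  induction w generalizing n with
  | nil => cases n <;> simp only [zero_add, List.replicate_succ, List.replicate_zero, st_nil, wd_cons, wd_nil, mul_one, c_co_b, List.cons.injEq, Nat.right_eq_add, and_true, Nat.cast_zero, co_one, ↓ reduceIte, reduceCtorEq, and_false, Nat.cast_add, Nat.cast_one, mul_zero, ite_self]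
  | cons a u ih =>
    have e : co (List.replicate (n + 1) 1) 
        (cc (0 : R) a (k + 1) • (b (a + (k + 1)) * st 0 u []) : A R) = 0 := by
      rw [map_smul, List.replicate_succ, co_cons_b, cc]
      split_ifs <;> first | omega | simp
    rw [st, map_add, map_add, e, List.replicate_succ, co_cons_b, co_cons_b, st_nil']
    cases n with
    | zero => cases u <;> simp only [List.replicate_zero, st_nil, wd_cons, wd_nil, mul_one, c_co_b, List.ne_cons_self, ↓ reduceIte, ite_self, Nat.add_eq_right, add_zero, Nat.cast_zero, zero_add, mul_zero, st, st_nil', map_add, co_nil_b, map_smul, smul_eq_mul]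
    | succ n =>
      rw [ih, List.replicate_succ, wd_cons, co_cons_b]
      split_ifs <;> first | omega | (push_cast; ring)

theorem c_pr_aev (q : R[X]) (w : List ℕ) (k : ℕ) : pr (aeval (b 1 : A R) q) (st 0 w [k + 1]) =
    if k = 0 then co w (aeval (b 1 : A R) (derivative q)) else 0 := by
  induction q using Polynomial.induction_on' with
  | add p q hp hq => simp only [map_add, LinearMap.add_apply, hp, hq]; split_ifs <;> simp
  | monomial n r =>
    simp only [derivative_monomial]
    simp only [← smul_X_eq_monomial, map_smul, map_pow, aeval_X, ← wd_replicate, LinearMap.smul_apply,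
      pr_wd]
    cases n with
    | zero => cases w <;> simp only [List.replicate_zero, st_nil, wd_cons, wd_nil, mul_one, c_co_b, List.ne_cons_self, ↓ reduceIte, smul_eq_mul, mul_zero, Nat.cast_zero, zero_tsub, zero_mul, ite_self, st, st_nil', map_add, co_nil_b, add_zero, map_smul]
    | succ n =>
      rw [c_st1, co_wd, co_wd]
      simp only [mul_ite, mul_one, mul_zero, smul_eq_mul, Nat.cast_add, Nat.cast_one, add_tsub_cancel_right, eq_comm]

section
variable {R' : Type} [CommRing R'] [Algebra R R']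

/-- Change of scalars. -/
def c_mp : A R →ₐ[R] A R' := hom fun k => b k

@[simp] theorem c_mp_b (k : ℕ) : c_mp (b k : A R) = (b k : A R') := hom_b _ _

@[simp] theorem c_mp_wd (w : List ℕ) : c_mp (wd w : A R) = (wd w : A R') := by
  induction w with
  | nil => simp
  | cons a w ih => simp [ih]

theorem c_co_mp (w : List ℕ) (z : A R) : co w (c_mp z : A R') = algebraMap R R' (co w z) :=
  lin_ext' (f := (co w).restrictScalars R ∘ₗ (c_mp : A R →ₐ[R] A R').toLinearMap)
    (g := Algebra.linearMap R R' ∘ₗ co w) (fun v => by simp [co_wd]) z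

theorem c_st_mp (u v : List ℕ) : c_mp (st (0 : R) u v) = st (0 : R') u v := by
  induction u generalizing v with
  | nil => simp
  | cons a u ihu =>
    induction v with
    | nil => simp [-wd_cons]
    | cons c v ihv =>
      rw [st, st]
      simp only [map_add, map_mul, map_smul, c_mp_b, ihu, ihv, cc]
      split_ifs <;> simp only [zero_smul, add_zero, one_smul]

theorem c_Th (ξ : R') (j : ℕ) (l : List (ℕ × ℕ)) :
    Th ξ (wd (List.replicate j 0 ++ word l) : A R) = ξ ^ j • wd (word (dual l)) := by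
  rw [Th, lin_wd]
  induction j with
  | zero =>
    rw [← tw_word]
    cases l <;> simp only [List.replicate_zero, word_nil, List.append_nil, ThW, pow_zero, tw, wd_nil, one_smul, word_cons, List.nil_append, wd_append, wd_replicate]
  | succ j ih => rw [List.replicate_succ, List.cons_append, ThW, ih, smul_smul, pow_succ']

theorem c_Th_nat (ξ : R') (w : List ℕ) (z : A R) :
    co w (Th ξ z) = aeval ξ (co w (Th (X : R[X]) z)) :=
  lin_ext' (f := (co w).restrictScalars R ∘ₗ Th ξ)
    (g := (aeval ξ).toLinearMap ∘ₗ (co w).restrictScalars R ∘ₗ Th (X : R[X])) (fun v => by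
      obtain ⟨j, l, rfl⟩ := parse v
      simp [c_Th, co_wd, -wd_append, apply_ite (aeval ξ)]) z

end

theorem c_Th_zero (z : A R) : Th (0 : R) z = T0 z := lin_ext' (fun w => by
  obtain ⟨j, l, rfl⟩ := parse w
  rw [c_Th]
  cases j with
  | zero => simp [T0_word]
  | succ j => simp [pow_succ', mul_assoc, T0_J (J_b _)]) z

theorem c_Th_coeff (j : ℕ) (l : List (ℕ × ℕ)) (z : A R) :
    (co (word (dual l)) (Th (X : R[X]) z)).coeff j = co (List.replicate j 0 ++ word l) z :=
  lin_ext' (f := lcoeff R j ∘ₗ (co (word (dual l))).restrictScalars R ∘ₗ Th (X : R[X])) (fun v => by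
    obtain ⟨i, m, rfl⟩ := parse v
    simp only [LinearMap.comp_apply, LinearMap.restrictScalars_apply, c_Th, map_smul, co_wd,
      lcoeff_apply, smul_eq_mul, mul_ite, mul_one, mul_zero]
    by_cases h : List.replicate i 0 ++ word m = List.replicate j 0 ++ word l
    · have := congrArg (tl · 0) h
      simp only [tl_replicate, tl_word, zero_add] at this
      obtain ⟨h1, h2⟩ := List.append_inj' this rfl
      simp at h2
      rw [if_pos h, if_pos h1, h2, coeff_X_pow_self]
    · rw [if_neg h]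
      split_ifs with e
      · have : word m = word l := by simpa [tw_word] using congrArg tw e
        rw [coeff_X_pow, if_neg (by rintro rfl; exact h (by rw [this]))]
      · rfl) z

theorem c_polar (w : List ℕ) (n : ℕ) (y : A R) {z : A R} (hz : z ∈ B01) :
    c_cf (-(n + 1)) (∑ k ∈ range (w.sum + 1), co w (Th (T 1 : R[T;T⁻¹]) y * bb k *
      c_io (Th (-T 1 : R[T;T⁻¹]) z)) * T (-k)) = co w (TH (ap z * b 0 ^ n * y)) := by
  refine c_ind (p := fun z => c_cf (-(n + 1)) (∑ k ∈ range (w.sum + 1),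
      co w (Th (T 1 : R[T;T⁻¹]) y * bb k * c_io (Th (-T 1 : R[T;T⁻¹]) z)) * T (-k)) =
      co w (TH (ap z * b 0 ^ n * y))) (fun v hv => ?_) (by simp) (fun x z a c => ?_)
    (fun r x a => ?_) hz
  swap
  · simp only [map_add, mul_add, add_mul, sum_add_distrib, a, c]
  swap
  · simp only [map_smul, LinearMap.map_smul_of_tower, mul_smul_comm, smul_mul_assoc, ← smul_sum, a]
  refine c_ind (p := fun y => c_cf (-(n + 1)) (∑ k ∈ range (w.sum + 1),
      co w (Th (T 1 : R[T;T⁻¹]) y * bb k * c_io (Th (-T 1 : R[T;T⁻¹]) (wd v : A R))) * T (-k)) =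
      co w (TH (ap (wd v) * b 0 ^ n * y))) (fun u _ => ?_) (by simp only [neg_add_rev, Int.reduceNeg, map_zero, zero_mul, sum_const_zero, mul_zero]) (fun x z a c => ?_)
    (fun r x a => ?_) (Sp_top y)
  swap
  · simp only [map_add, mul_add, add_mul, sum_add_distrib, a, c]
  swap
  · simp only [map_smul, LinearMap.map_smul_of_tower, mul_smul_comm, smul_mul_assoc, ← smul_sum, a]
  obtain ⟨j, l, rfl⟩ := parse u
  obtain ⟨i, m, rfl⟩ := parse v
  have e : ∀ k, co w (Th (T 1 : R[T;T⁻¹]) (wd (List.replicate j 0 ++ word l) : A R) * bb k *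
      c_io (Th (-T 1 : R[T;T⁻¹]) (wd (List.replicate i 0 ++ word m) : A R))) * T (-k) =
      ((-1) ^ i * co w (wd (word (dual l)) * bb k * c_io (wd (word (dual m))) : A R)) •
        T (j + i - k) := fun k => by
    have : (wd (word (dual l)) * bb k * c_io (wd (word (dual m))) : A R[T;T⁻¹]) =
        c_mp (wd (word (dual l)) * bb k * c_io (wd (word (dual m))) : A R) := by
      rcases Nat.even_or_odd (word (dual m)).sum with h | h <;> cases k <;>
        simp only [bb_zero, mul_one, c_io_wd, h.neg_one_pow, one_smul, map_mul, c_mp_wd, bb_succ, c_mp_b, neg_smul, mul_neg, map_neg]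
    rw [c_Th, c_Th, map_smul, mul_smul_comm, smul_mul_assoc, smul_mul_assoc, map_smul, map_smul, this,
      c_co_mp, neg_pow, T_pow, T_pow, Algebra.smul_def (R := R), T_sub, T_add]
    simp only [smul_eq_mul, map_mul, map_pow, map_neg, map_one, mul_one]
    ring
  simp only [e, map_sum, map_smul, c_cf_T, smul_eq_mul]
  rw [wd_append (List.replicate j 0), wd_replicate, ← mul_assoc, mul_assoc _ _ (b 0 ^ j), ← pow_add,
    TH_mul _ (Sp_wd ⟨l, rfl⟩), T0_word, c_TH_ap hv, tl_replicate, tl_word, wd_append, c_io_mul]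
  rw [sum_eq_single (n + j + i + 1) (fun k _ hk => by rw [if_neg (by omega), mul_zero]) fun hk => by
    rw [c_bb_zero (by simpa only [Order.lt_add_one_iff, mem_range, Order.add_one_le_iff, not_lt] using hk)]; simp only [mul_zero, Nat.cast_add, Nat.cast_one, neg_add_rev, Int.reduceNeg, mul_ite, mul_one, ite_self], if_pos (by push_cast; ring)]
  simp only [wd_cons, wd_nil, mul_one, c_io_b, smul_mul_assoc, mul_smul_comm, map_smul, smul_eq_mul,
    bb_succ, mul_assoc]
  rw [← mul_assoc (_ ^ _) (_ ^ _), ← pow_add, show n + j + 1 + (n + j + i + 1) = 2 * (n + j + 1) + i by ring, pow_add,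
    pow_mul]
  simp only [even_two, Even.neg_pow, one_pow, one_mul]


section
variable {R' : Type} [CommRing R'] [Algebra R R']

/-- The generating polynomial of the coefficients of a word. -/
def c_G (G : ℕ → A R') : A R →ₗ[R] R'[X] :=
  lin fun w => ∑ k ∈ range (w.sum + 1), monomial k (co w (G k))

theorem c_G_coeff {G : ℕ → A R'} (hG : ∀ w k, w.sum < k → co w (G k) = 0) (z : A R) (k : ℕ) :
    (c_G G z).coeff k = pr (G k) (c_mp z) :=
  lin_ext' (f := (lcoeff R' k).restrictScalars R ∘ₗ c_G G)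
    (g := (pr (G k)).restrictScalars R ∘ₗ (c_mp : A R →ₐ[R] A R').toLinearMap) (fun w => by
      simp only [LinearMap.comp_apply, LinearMap.restrictScalars_apply, c_G, lin_wd, map_sum,
        lcoeff_apply, coeff_monomial, sum_ite_eq', mem_range, AlgHom.toLinearMap_apply, c_mp_wd, pr_wd']
      split_ifs with h
      · rfl
      · exact (hG w k (by omega)).symm) z

theorem c_G_mul {G : ℕ → A R'} (hG : ∀ w k, w.sum < k → co w (G k) = 0)
    (hc : ∀ k, cop 0 (G k) = ∑ p ∈ antidiagonal k, G p.1 ⊗ₜ G p.2) (u v : List ℕ) :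
    c_G G (st (0 : R) u v) = c_G G (wd u : A R) * c_G G (wd v : A R) := by
  ext k
  simp only [coeff_mul, c_G_coeff hG, c_st_mp, c_mp_wd, pr_wd', pr_st, hc, map_sum, co2_tmul]

end

theorem c_trunc (ψ : R[X] →ₗ[R] R) {M : ℕ} (h : ∀ n, M ≤ n → ψ (X ^ n) = 0) (p : R[X]) :
    ∑ n ∈ range M, ψ (X ^ n) * p.coeff n = ψ p := by
  induction p using Polynomial.induction_on' with
  | add p q hp hq => simp only [coeff_add, mul_add, sum_add_distrib, hp, hq, map_add]
  | monomial n r =>
    simp only [coeff_monomial, mul_ite, mul_zero, sum_ite_eq, mem_range]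
    rw [← smul_X_eq_monomial, map_smul, smul_eq_mul, mul_comm]
    split_ifs with e
    · rfl
    · rw [h n (by omega), mul_zero]

variable [Algebra ℚ R]

theorem c_Th_nil {Z : A R} (hD : ∀ w, pr Z (st 0 [0] w) = 0) (h1 : co [] Z = 1) {R' : Type}
    [CommRing R'] [Algebra R R'] (ξ : R') : co [] (Th ξ Z) = 1 := by
  have : co [] (Th (X : R[X]) Z) = 1 := Polynomial.ext fun j => (c_Th_coeff j [] Z).trans (by
    cases j with
    | zero => simpa using h1
    | succ j =>
      have := hD (List.replicate j 0)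
      rw [c_st0, map_smul, pr_wd'] at this
      rw [coeff_one, if_neg j.succ_ne_zero, word_nil, List.append_nil]
      exact c_cancel (R := R) j (this.trans (smul_zero _).symm))
  rw [c_Th_nat, this, map_one]

/-- The depth one part. -/
def c_p (Z : A R) (k : ℕ) : R[X] := co [k + 1] (Th (X : R[X]) Z)

omit [Algebra ℚ R] in
theorem c_p_coeff (Z : A R) (k j : ℕ) :
    (c_p Z k).coeff j = co (List.replicate j 0 ++ 1 :: List.replicate k 0) Z := by
  simpa [dual, c_p] using c_Th_coeff j [(0, k)] Z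

def c_P (Z : A R) (k : ℕ) : R[X] := c_p Z k + (-1 : R) ^ (k + 1) • (c_p Z k).comp (-X)

omit [Algebra ℚ R] in
theorem c_P_der {Z : A R} (hD : ∀ w, pr Z (st 0 [0] w) = 0) (k : ℕ) :
    derivative (c_P Z k) = -((k + 1 : R) • c_P Z (k + 1)) := by
  have : derivative (c_p Z k) = -((k + 1 : R) • c_p Z (k + 1)) := Polynomial.ext fun j => by
    have := hD (List.replicate j 0 ++ 1 :: List.replicate k 0)
    rw [c_st01, map_add, map_smul, map_smul, pr_wd', pr_wd'] at this
    simp only [coeff_derivative, coeff_neg, coeff_smul, c_p_coeff, smul_eq_mul] at this ⊢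
    linear_combination this
  simp only [c_P, map_add, map_smul, derivative_comp, this, pow_succ _ (k + 1)]
  simp only [Polynomial.smul_eq_C_mul, map_mul, neg_comp, mul_comp, C_comp, map_neg, derivative_X,
    map_one]
  ring

theorem c_main {h η : R} {N : ℕ} (hN : h ^ N = 0) (hη : h = 2 * η) {Z : A R} {q : R[X]}
    (hZ : Z ∈ B01) (hD : ∀ w, pr Z (st 0 [0] w) = 0) (h1 : co [] Z = 1)
    (h2 : η ^ 2 = 6 * co [0, 1] Z) (hq : TH (ap Z * Z) = aeval (b 1) q)
    (gp : Grp (Th (T 1 : R[T;T⁻¹]) Z)) (gm : Grp (Th (-T 1 : R[T;T⁻¹]) Z)) (D : ℕ → A R)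
    (d0 : D 0 = aeval (b 1) (derivative q + η • q)) (d1 : ∀ k, D (k + 1) = TH (uu h N Z k)) (k : ℕ) :
    cop 0 (D k) = ∑ p ∈ antidiagonal k, D p.1 ⊗ₜ D p.2 := by
  let G : ℕ → A R[T;T⁻¹] := fun k => Th (T 1) Z * bb k * c_io (Th (-T 1) Z)
  have hG : ∀ w k, w.sum < k → co w (G k) = 0 := fun w k h => c_bb_zero h _ _
  let χ : A R →ₗ[R] R[T;T⁻¹] := (Polynomial.leval (T (-1))).restrictScalars R ∘ₗ c_G G
  have χw : ∀ w, χ (wd w) = ∑ k ∈ range (w.sum + 1), co w (G k) * T (-k) := fun w => by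
    simp only [χ, Int.reduceNeg, c_G, LinearMap.coe_comp, LinearMap.coe_restrictScalars, Function.comp_apply, lin_wd, map_sum, Polynomial.leval_apply, eval_monomial, T_pow, mul_neg, mul_one]
  have χm : ∀ u v, χ (st 0 u v) = χ (wd u) * χ (wd v) := fun u v => by
    simp only [χ, LinearMap.comp_apply, LinearMap.restrictScalars_apply, Polynomial.leval_apply,
      ← eval_mul]
    rw [c_G_mul hG fun k => ?_]
    have gi := c_io_grp gm
    rw [Grp] at gp gi
    simp only [G, map_mul, cop_bb, gp, gi, mul_sum, sum_mul, Algebra.TensorProduct.tmul_mul_tmul]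
  let φ : R[X] →ₗ[R] A R := TH ∘ₗ LinearMap.mulRight R Z ∘ₗ LinearMap.mulLeft R (ap Z) ∘ₗ
    (aeval (b 0 : A R)).toLinearMap
  have φx : ∀ n, φ (X ^ n) = TH (ap Z * b 0 ^ n * Z) := fun n => by simp only [φ, LinearMap.coe_comp, AlgHom.coe_toLinearMap, Function.comp_apply, map_pow, aeval_X, LinearMap.mulLeft_apply, LinearMap.mulRight_apply]
  have χp : ∀ (n : ℕ) z, c_cf (-(n + 1)) (χ z) = pr (φ (X ^ n)) z := fun n =>
    lin_ext' (f := c_cf (-(n + 1)) ∘ₗ χ) fun w => by
      rw [LinearMap.comp_apply, χw, c_polar w n Z hZ, pr_wd', φx]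
  have χc : ∀ k, χ (wd [k + 1]) = c_c (c_P Z) k := fun k => by
    have e : ∀ i, co [k + 1] (G i) = (if i = k + 1 then 1 else 0) +
        if i = 0 then toLaurent (c_P Z k) else 0 := fun i => by
      simp only [G, c_co_one, co_nil_mul, c_io_co (w := []) rfl, c_io_co (w := [k + 1]) rfl,
        c_Th_nil hD h1, c_Th_nat (T 1), c_Th_nat (-T 1) [k + 1], c_P, ← c_aevT, c_p]
      cases i <;> simp [c_co_b, co_one, aeval_comp, eq_comm, Algebra.smul_def]
    rw [χw]
    simp only [List.sum_cons, List.sum_nil, add_zero, e, add_mul, ite_mul, one_mul, zero_mul, sum_add_distrib, sum_ite_eq', mem_range, lt_add_iff_pos_right, Order.lt_one_iff, ↓ reduceIte, Nat.cast_add, Nat.cast_one, neg_add_rev, Int.reduceNeg, lt_add_iff_pos_left, add_pos_iff, Order.lt_two_iff, zero_le, or_true, CharP.cast_eq_zero, neg_zero, T_zero, mul_one, c_c]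
  have φ0 : φ (X ^ 0) = aeval (b 1) q := by rw [φx, pow_zero, mul_one, hq]
  have hr : ∀ w k, c_cf (-1) (χ (wd w) * c_c (c_P Z) k) =
      if k = 0 then co w (aeval (b 1 : A R) (derivative q)) else 0 := fun w k => by
    rw [← χc, ← χm, ← c_pr_aev, ← φ0, ← χp]; simp
  have p0 : (c_P Z 0).coeff 0 = 0 := by simp [c_P, coeff_zero_eq_eval_zero, eval_comp]
  have hc : ∀ n k, c_cf (-1) (c_c (c_P Z) n * c_c (c_P Z) k) = 0 := fun n k => by
    rcases k with _ | k
    · rcases n with _ | n
      · nth_rewrite 1 [c_c]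
        rw [add_mul, map_add, c_res, mul_comm, c_cf_mulT, p0, c_c, map_add, c_cf_toL]
        simp [p0]
      · rw [mul_comm, ← χc 0, hr]; simp
    · rw [← χc n, hr]; simp
  have h3 : ∀ k, c_cf (-1) (c_c (c_P Z) 0 * c_c (c_P Z) 0 * c_c (c_P Z) (k + 1)) = 0 := fun k => by
    rw [← χc 0, ← χm]
    exact lin_ext' (f := c_cf (-1) ∘ₗ LinearMap.mulRight R (c_c (c_P Z) (k + 1)) ∘ₗ χ) (g := 0)
      (fun w => by simp [hr]) _
  have ric := c_ric (c_P_der hD) hc h3 p0
  have p1 : 3 * (c_P Z 0).coeff 1 = η ^ 2 := by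
    have e : ∀ p : R[X], p.coeff 1 = (derivative p).eval 0 := fun p => by
      simp only [← coeff_zero_eq_eval_zero, coeff_derivative, zero_add, Nat.cast_zero, mul_one]
    have := c_p_coeff Z 0 1
    rw [e] at this
    rw [e, h2]
    simp only [c_P, zero_add, pow_one, neg_smul, one_smul, derivative_add, derivative_neg, derivative_comp, derivative_X, neg_mul, one_mul, neg_neg, eval_add, this, List.replicate_one, List.replicate_zero, List.cons_append, List.nil_append, eval_comp, eval_neg, eval_X, neg_zero]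
    ring
  rw [p1] at ric
  let s := T (-1) + toLaurent (c_P Z 0 - Polynomial.C η)
  let Ψ : A R →ₗ[R] R[X] := lin fun w => Polynomial.C (co w (aeval (b 1 : A R) (derivative q))) +
    ∑ n ∈ range (w.sum + 1), co w (φ (X ^ n)) • c_Q η h n
  have φz : ∀ (w : List ℕ) n, w.sum + 1 ≤ n → co w (φ (X ^ n)) = 0 := fun w n h => by
    rw [φx, c_TH_zero (by omega)]
  have Ψχ : ∀ z, aeval s (Ψ z) = χ z := lin_ext' (f := (aeval s).toLinearMap ∘ₗ Ψ) fun w => by
    rw [c_dec hc (hr w) (M := w.sum + 1) fun n hn => by rw [χp, pr_wd', φz w n hn]]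
    simp only [LinearMap.comp_apply, AlgHom.toLinearMap_apply, Ψ, lin_wd, map_add, map_sum, map_smul,
      hη, s, c_Q_aev (c_P_der hD) ric, χp, pr_wd']
    simp [LaurentPolynomial.algebraMap_apply]
  have Ψc : ∀ k z, (Ψ z).coeff k = pr (D k) z := fun k =>
    lin_ext' (f := lcoeff R k ∘ₗ Ψ) fun w => by
      simp only [LinearMap.comp_apply, Ψ, lin_wd, map_add, map_sum, map_smul, lcoeff_apply, pr_wd',
        smul_eq_mul]
      cases k with
      | zero => simp only [coeff_C_zero, c_Q_zero, mul_comm, ite_mul, zero_mul, sum_ite_eq', mem_range, lt_add_iff_pos_left, Order.lt_add_one_iff, zero_le, ↓ reduceIte, pow_zero, d0, map_add, map_smul, ← φ0, smul_eq_mul]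
      | succ k =>
        simp only [c_Q_coeff η hN, coeff_C_succ, zero_add, d1]
        exact c_trunc (co w ∘ₗ φ) (φz w) _
  refine co2_ext fun u v => ?_
  have := c_inj (S := c_P Z 0 - Polynomial.C η) (p := Ψ (st 0 u v) - Ψ (wd u) * Ψ (wd v))
    (by rw [map_sub, map_mul, Ψχ, Ψχ, Ψχ, χm, sub_self])
  rw [← pr_st, ← Ψc, sub_eq_zero.1 this, coeff_mul]
  simp only [Ψc, pr_wd', map_sum, co2_tmul]

end

theorem conn {R : Type} [CommRing R] [Algebra ℚ R] {θ h : R} {N : ℕ} (hθ : IsNilpotent θ)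
    (hN : h ^ N = 0) (hh : θ ∣ h) {Y : A R} {γ : R[X]} (hY : Y ∈ B01) (gY : Grp Y)
    (h1 : co [] Y = 1) (h0 : co [0] Y = 0) (hγ : ∃ g, γ = 1 + θ • g)
    (h2 : h ^ 2 = 24 * co [0, 1] (Y * aeval (b 1) γ))
    (g0 : Grp (Th (0 : R) (Y * aeval (b 1) γ)))
    (gp : Grp (Th (T 1 : R[T;T⁻¹]) (Y * aeval (b 1) γ)))
    (gm : Grp (Th (-T 1 : R[T;T⁻¹]) (Y * aeval (b 1) γ))) :
    ∃ f g : R[X], (∃ f', f = 1 + θ • f') ∧ (∃ g', g = 1 + θ • g') ∧ Grp (aeval (b 1) f * T0 Y) ∧
      ∀ k, cop 0 (Dt h N Y f g k) =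
        ∑ p ∈ antidiagonal k, Dt h N Y f g p.1 ⊗ₜ Dt h N Y f g p.2 := by
  obtain ⟨g, hg⟩ := hγ
  obtain ⟨r, hr⟩ := hh
  have e1 : co [] (Y * aeval (b 1) γ) = 1 := by
    have := congrArg (co2 [] []) g0
    rw [← pr_st, st_nil, pr_wd', co2_tmul, c_Th_zero] at this
    have e := co_T0 [] (Y * aeval (b 1) γ)
    rw [dual_nil, word_nil] at e
    rw [e] at this
    have u : IsUnit (co [] (Y * aeval (b 1) γ)) := by
      rw [co_nil_mul, h1, one_mul, hg, map_add, map_one, map_smul, map_add, map_smul, co_one, if_pos rfl]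
      exact ((Commute.all _ _).isNilpotent_mul_right hθ).isUnit_one_add
    exact u.mul_left_cancel (this.symm.trans (mul_one _).symm)
  let t : R := algebraMap ℚ R 2⁻¹
  have ht : 2 * t = 1 := by
    rw [← map_ofNat (algebraMap ℚ R) 2, ← map_mul, mul_inv_cancel₀ two_ne_zero, map_one]
  let q := γ * X * γ.comp (-X)
  let E := derivative q + (t * h) • q
  let D : ℕ → A R := fun k => Nat.casesOn k (aeval (b 1) E) fun k => TH (uu h N (Y * aeval (b 1) γ) k)
  have hD := c_main hN (η := t * h) (by linear_combination -h * ht)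
    (B01_mul hY (Sp_mono (fun w hw k hk => (hw k hk).le) (c_aev_mem γ))) (c_pr_zero gY h0 γ) e1
    (by linear_combination t ^ 2 * h2 + 6 * co [0, 1] (Y * aeval (b 1) γ) * (2 * t + 1) * ht) (q := q)
    (by
      have := c_TH_conj γ Y Y 1
      rw [mul_one, mul_one, (ap_grp hY gY h1).1, ← pow_zero (b 0), TH_pow] at this
      simp [this, q]) gp gm D rfl fun _ => rfl
  obtain ⟨e, he⟩ : ∃ e, E = 1 + θ • e := by
    refine ⟨derivative ((g + g.comp (-X) + θ • (g * g.comp (-X))) * X) + (t * r) • q, ?_⟩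
    have : q = X + θ • ((g + g.comp (-X) + θ • (g * g.comp (-X))) * X) := by
      simp only [q, hg, Polynomial.smul_eq_C_mul, add_comp, one_comp, mul_comp, C_comp]; ring
    simp only [E, hr, smul_add, smul_smul]
    rw [← map_smul, ← add_assoc, ← derivative_X (R := R), ← map_add, ← this]
    congr 2; ring
  obtain ⟨i, hi⟩ : ∃ i, E * i = 1 := by
    rw [he, Polynomial.smul_eq_C_mul]
    exact ((Commute.all _ _).isNilpotent_mul_right (hθ.map Polynomial.C)).isUnit_one_add.exists_right_inv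
  have gi : Grp (aeval (b 1 : A R) i) := Grp.inv (x := aeval (b 1) E) (by simpa [Grp, D] using hD 0)
    (by rw [← map_mul, hi, map_one]) (by rw [← map_mul, mul_comm, hi, map_one])
  have eD : ∀ k, Dt h N Y (i * γ) (γ.comp (-X)) k = aeval (b 1) i * D k := fun k => by
    cases k with
    | zero => exact (by rw [← map_mul, mul_comm, hi, map_one] : aeval (b 1) i * aeval (b 1) E = 1).symm
    | succ k => simp only [Dt, D, uu, c_TH_conj]; simp only [map_mul, mul_assoc]
  refine ⟨i * γ, γ.comp (-X), ⟨i * g - e * i, ?_⟩, ⟨g.comp (-X), by simp [hg]⟩, ?_, fun k => ?_⟩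
  · rw [he] at hi
    simp only [hg, Polynomial.smul_eq_C_mul] at hi ⊢
    linear_combination hi
  · rw [map_mul, mul_assoc, ← c_aev_r (f := T0) (fun x => by rw [T0_mul _ c_b1.1, c_b1.2]), ← c_Th_zero]
    exact gi.mul g0
  · rw [Grp] at gi
    simp only [eD, map_mul, hD, gi, mul_sum, Algebra.TensorProduct.tmul_mul_tmul]

end Pool.Agent.MP_08482e_nt.H68

end

-- part MP_08482e_nt.H68.Final
section

/-! The words without the letter `0` do not span the formal q-zeta values. -/

namespace Pool.Agent.MP_08482e_nt.H68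

open TensorProduct Finset Polynomial LaurentPolynomial

noncomputable section

def wg (w : List ℕ) : ℕ := (w.map fun k => max k 1).sum

theorem wg_dual (l : List (ℕ × ℕ)) : wg (word (dual l)) = wg (word l) := by
  induction l with
  | nil => rfl
  | cons p l ih =>
    simp only [wg] at ih
    simp only [wg, dual_cons, word_append, word_cons, Prod.fst_swap, Prod.snd_swap, word_nil, List.append_nil, List.map_append, List.map_cons, le_add_iff_nonneg_left, zero_le, sup_of_le_left, List.map_replicate, sup_of_le_right, List.sum_append, ih, List.sum_cons, List.sum_replicate, smul_eq_mul, mul_one]; omega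

variable {R : Type} [CommRing R] [Algebra ℚ R]

def emb (t : R) (N : ℕ) : (List ℕ →₀ ℚ) →ₗ[ℚ] A R :=
  Finsupp.linearCombination ℚ fun w => t ^ (N - wg w) • wd w

theorem emb_single (t : R) (N : ℕ) (w : List ℕ) :
    emb t N (Finsupp.single w 1) = t ^ (N - wg w) • wd w := by simp [emb]

theorem emb_cons (t : R) (N a : ℕ) (f : List ℕ →₀ ℚ) :
    emb t N (f.mapDomain (List.cons a)) = b a * emb t (N - max a 1) f := by
  induction f using Finsupp.induction_linear with
  | zero => simp only [Finsupp.mapDomain_zero, map_zero, mul_zero]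
  | add f g a c => simp only [Finsupp.mapDomain_add, map_add, a, c, mul_add]
  | single w c => simp only [emb, wg, Finsupp.mapDomain_single, Finsupp.linearCombination_single, List.map_cons, List.sum_cons, wd_cons, Nat.sub_sub, Algebra.mul_smul_comm]

theorem emb_st (t : R) (h : ℚ) (u v : List ℕ) (N : ℕ) (hN : wg u + wg v ≤ N) :
    emb t N (stuffle h u v) = t ^ (N - (wg u + wg v)) • st (algebraMap ℚ R h * t) u v := by
  fun_induction stuffle h u v generalizing N with
  | case1 v => simp only [emb_single, wg, List.map_nil, List.sum_nil, zero_add, st_nil]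
  | case2 a u => simp only [emb_single, wg, List.map_cons, List.sum_cons, wd_cons, List.map_nil, List.sum_nil, add_zero, st_nil']
  | case3 a u c v i1 i2 i3 =>
    have e : ∀ a u, wg (a :: u) = max a 1 + wg u := fun _ _ => by simp only [wg, List.map_cons, List.sum_cons, Nat.add_left_cancel_iff]
    simp only [e] at *
    rw [map_add, map_add, map_smul, emb_cons, emb_cons, emb_cons, i1 _ (by omega), i2 _ (by omega),
      i3 _ (by omega), st, smul_add, smul_add, cc]
    simp only [mul_smul_comm]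
    congr 1
    · congr 2 <;> congr 1 <;> omega
    · split_ifs with hc
      · rw [← algebraMap_smul R h, smul_smul, smul_smul, mul_left_comm, ← pow_succ]
        congr 3; omega
      · rw [one_smul, one_smul]; congr 2; omega

theorem kill (h : ℚ) (N : ℕ) : ∃ K : Submodule ℚ (List ℕ →₀ ℚ),
    (∀ l m, wg (word l) + wg (word m) ≤ N →
      stuffle h (word l) (word m) - stuffle h (word (dual l)) (word m) ∈ K) ∧
    (∀ w, 0 ∉ w → Finsupp.single w 1 ∈ K) ∧ Finsupp.single (word l0) 1 ∉ K := by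
  let R := AdjoinRoot (X ^ (N + 1) : ℂ[X])
  let t : R := AdjoinRoot.root _
  have ht : ∀ n, t ^ n = 0 ↔ N + 1 ≤ n := fun n => by
    rw [← pow_dvd_pow_iff (X_ne_zero (R := ℂ)) not_isUnit_X, ← AdjoinRoot.mk_eq_zero, map_pow,
      AdjoinRoot.mk_X]
  set θ : R := algebraMap ℂ R (h / (2 * Real.pi * Complex.I)) * t with hθ
  have n1 : θ ^ (N + 1) = 0 := by rw [hθ, mul_pow, (ht _).2 le_rfl, mul_zero]
  have n2 : (algebraMap ℚ R h * t) ^ (N + 1) = 0 := by rw [mul_pow, (ht _).2 le_rfl, mul_zero]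
  have e : algebraMap ℚ R h * t = θ * algebraMap ℂ R (2 * Real.pi * Complex.I) := by
    rw [hθ, mul_right_comm, ← map_mul, div_mul_cancel₀ _ Complex.two_pi_I_ne_zero,
      IsScalarTower.algebraMap_apply ℚ ℂ R]
    rfl
  obtain ⟨Y, γ, y1, y2, y3, y4, y5, y6, y7, y8⟩ := eds R θ _ n1
  obtain ⟨f, g, f1, f2, f3, f4⟩ := conn ⟨_, n1⟩ n2 ⟨_, e⟩ y1 y2 y3 y4 y6 (by
    rw [y7, e, mul_pow, ← map_pow, IsScalarTower.algebraMap_apply ℝ ℂ R, ← mul_neg, mul_left_comm,
      ← map_neg, ← map_ofNat (algebraMap ℂ R), ← map_mul]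
    congr 2
    simp [mul_pow]; ring) (y8 _ _) (y8 _ _) (y8 _ _)
  obtain ⟨Θ, t1, t2, t3, t4⟩ := theta n2 ⟨_, e⟩ y1 y2 y3 y5 f1 f2 f3 f4
  obtain ⟨η, δ, a1, a2, a3, a4, r, a5⟩ := eta_h ⟨_, n1⟩ t1 t2 t3 t4
  have du : ∀ {x : A R}, T0 x - x ∈ JJ → ∀ l, co (word (dual l)) x = co (word l) x := fun hx l => by
    rw [← co_T0 l, eq_comm, ← sub_eq_zero, ← map_sub]; exact co_J hx _
  refine ⟨LinearMap.ker ((pr η).restrictScalars ℚ ∘ₗ emb t N), fun l m hl => ?_, fun w hw => ?_, ?_⟩
  · simp only [LinearMap.mem_ker, LinearMap.coe_comp, LinearMap.coe_restrictScalars, Function.comp_apply, map_sub, emb_st t h _ _ N hl, emb_st t h _ _ N (wg_dual l ▸ hl), wg_dual, map_smul, pr_st, a1, map_add, co2_tmul, smul_eq_mul, du a2, du a3, sub_self]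
  · simp [emb_single, pr_wd', co_Sp hw a4]
  · simp only [LinearMap.mem_ker, LinearMap.comp_apply, emb_single, LinearMap.restrictScalars_apply,
      map_smul, pr_wd', a5, smul_eq_mul]
    rw [IsUnit.mul_left_eq_zero, ht]
    · omega
    · refine IsNilpotent.isUnit_add_left_of_commute ⟨N + 1, by rw [mul_pow, n1, zero_mul]⟩ ?_ (.all _ _)
      simpa [map_ofNat] using (IsUnit.mk0 (14400 : ℂ) (by norm_num)).map (algebraMap ℂ R)

theorem formal_fails (h : ℚ) : Finsupp.single (word l0) 1 ∉
    rel h ⊔ Submodule.span ℚ {x | ∃ w, 0 ∉ w ∧ x = Finsupp.single w 1} := fun hx => by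
  choose K k1 k2 k3 using kill h
  let S : Submodule ℚ (List ℕ →₀ ℚ) :=
    { carrier := {x | ∀ᶠ N in Filter.atTop, x ∈ K N}
      add_mem' := fun a c => (a.and c).mono fun N e => add_mem e.1 e.2
      zero_mem' := .of_forall fun N => zero_mem _
      smul_mem' := fun c x a => a.mono fun N e => (K N).smul_mem c e }
  have : _ ∈ S := (sup_le (Submodule.span_le.2 ?_) (Submodule.span_le.2 ?_) : _ ≤ S) hx
  · obtain ⟨N, e⟩ := Filter.Eventually.exists this
    exact k3 N e
  · rintro _ ⟨l, m, rfl⟩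
    exact (Filter.eventually_ge_atTop _).mono fun N => k1 N l m
  · rintro _ ⟨w, hw, rfl⟩
    exact .of_forall fun N => k2 N w hw

end

end Pool.Agent.MP_08482e_nt.H68

end
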